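import Mathlib

/-!
# The Maker-Breaker alpha-clique game on the edges of a complete graph
-/

set_option autoImplicit false

namespace Pool.Agent.H69.Clique

open Finset

section game

variable {E : Type} [Fintype E] [DecidableEq E]

/-- A strategy tells its owner which element to claim when Maker owns `R` and Breaker owns `B`. -/
abbrev Strategy (E : Type) : Type := Finset E → Finset E → E

/-- A strategy is legal if it claims an unclaimed element as long as there is one. -/
def Legal (σ : Strategy E) : Prop := ∀ R B : Finset E, R ∪ B ≠ univ → σ R B ∉ R ∪ B

/-- One round from the position `p = (Maker's set, Breaker's set)`, Maker to move: if everything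
is claimed nothing happens; otherwise Maker claims an element, and then, if there is still an
unclaimed element, Breaker claims one. -/
def round (σ τ : Strategy E) (p : Finset E × Finset E) : Finset E × Finset E :=
  if p.1 ∪ p.2 = univ then p
  else if insert (σ p.1 p.2) p.1 ∪ p.2 = univ then (insert (σ p.1 p.2) p.1, p.2)
  else (insert (σ p.1 p.2) p.1, insert (τ (insert (σ p.1 p.2) p.1) p.2) p.2)

/-- The position after `n` rounds when Maker uses `σ` and Breaker uses `τ`. -/
def play (σ τ : Strategy E) (n : ℕ) : Finset E × Finset E := (round σ τ)^[n] (∅, ∅)

/-- Maker has a strategy guaranteeing that the set of elements he owns at the end has the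
property `W`.  (After `Fintype.card E` rounds everything is claimed.) -/
def MakerGuarantees (W : Finset E → Prop) : Prop :=
  ∃ σ : Strategy E, Legal σ ∧ ∀ τ : Strategy E, Legal τ → W (play σ τ (Fintype.card E)).1

end game

/-- The edges of the complete graph on `Fin N`. -/
abbrev Edge (N : ℕ) : Type := {e : Sym2 (Fin N) // ¬ e.IsDiag}

/-- The edges with both end points in `A`. -/
def inside {N : ℕ} (A : Finset (Fin N)) : Finset (Edge N) :=
  univ.filter (fun e => ∀ v ∈ e.1, v ∈ A)

/-- `R` contains at least the fraction `α` of the edges inside some set of `q` vertices. -/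
def HasDense (N : ℕ) (α : ℝ) (q : ℕ) (R : Finset (Edge N)) : Prop :=
  ∃ A : Finset (Fin N), A.card = q ∧ α * (q.choose 2 : ℝ) ≤ ((R ∩ inside A).card : ℝ)

/-- The `α`-clique achievement number of `K_N`: the largest `q` such that Maker can guarantee to
own, at the end, at least the fraction `α` of the edges inside some set of `q` vertices. -/
noncomputable def achievement (N : ℕ) (α : ℝ) : ℕ :=
  sSup {q : ℕ | MakerGuarantees (HasDense N α q)}

/-- The binary entropy function. -/
noncomputable def entropy (α : ℝ) : ℝ :=
  -α * Real.logb 2 α - (1 - α) * Real.logb 2 (1 - α)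

/-- The quantity `Q_α(N)`. -/
noncomputable def Q (α : ℝ) (N : ℕ) : ℝ :=
  2 / (1 - entropy α) * (Real.logb 2 N - Real.logb 2 (Real.logb 2 N) +
    Real.logb 2 (1 - entropy α) + Real.logb 2 (Real.exp 1) - 1) - 1

end Pool.Agent.H69.Clique
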