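import Mathlib
import Pool.Agent.H69.CliqueDefs

/-!
# Averages over completions, harmonic functions on positions
-/

set_option autoImplicit false
set_option linter.unusedSectionVars false

namespace Pool.Agent.H69.Clique

open Finset

variable {E : Type} [Fintype E] [DecidableEq E]

/-- The unclaimed elements. -/
def free (R B : Finset E) : Finset E := univ \ (R ∪ B)

lemma mem_free {R B : Finset E} {e : E} : e ∈ free R B ↔ e ∉ R ∪ B := by
  simp [free]

lemma free_insert_left (R B : Finset E) (e : E) : free (insert e R) B = (free R B).erase e := by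
  ext x
  simp only [mem_free, mem_erase, mem_union, mem_insert]
  tauto

lemma free_insert_right (R B : Finset E) (e : E) : free R (insert e B) = (free R B).erase e := by
  ext x
  simp only [mem_free, mem_erase, mem_union, mem_insert]
  tauto

lemma free_eq_empty {R B : Finset E} : free R B = ∅ ↔ R ∪ B = univ := by
  rw [free, sdiff_eq_empty_iff_subset]
  constructor
  · intro h
    exact eq_univ_iff_forall.2 (fun x => h (mem_univ x))
  · intro h
    rw [h]

/-- The average of `h` over all completions of the position `(R, B)`. -/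
noncomputable def avg (h : Finset E → ℝ) (R B : Finset E) : ℝ :=
  (∑ T ∈ (free R B).powerset, h (R ∪ T)) / 2 ^ (free R B).card

lemma avg_split (h : Finset E → ℝ) (R B : Finset E) (e : E) (he : e ∉ R ∪ B) :
    avg h (insert e R) B + avg h R (insert e B) = 2 * avg h R B := by
  have hf : e ∈ free R B := mem_free.2 he
  have h1 : free R B = insert e ((free R B).erase e) := (insert_erase hf).symm
  have hn : e ∉ (free R B).erase e := notMem_erase _ _
  unfold avg
  rw [free_insert_left, free_insert_right]
  conv_rhs => rw [h1]
  rw [sum_powerset_insert hn, card_insert_of_notMem hn, pow_succ]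
  have h2 : ∀ T : Finset E, insert e R ∪ T = R ∪ insert e T := by
    intro T
    rw [insert_union, union_insert]
  simp only [h2]
  field_simp
  ring

lemma avg_final (h : Finset E → ℝ) (R B : Finset E) (hu : R ∪ B = univ) : avg h R B = h R := by
  unfold avg
  rw [free_eq_empty.2 hu]
  simp

lemma avg_nonneg (h : Finset E → ℝ) (hh : ∀ T, 0 ≤ h T) (R B : Finset E) : 0 ≤ avg h R B :=
  div_nonneg (sum_nonneg (fun _ _ => hh _)) (by positivity)

lemma avg_mono (h₁ h₂ : Finset E → ℝ) (hh : ∀ T, h₁ T ≤ h₂ T) (R B : Finset E) :
    avg h₁ R B ≤ avg h₂ R B := by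
  unfold avg
  gcongr
  exact hh _

lemma avg_sum {ι : Type*} (s : Finset ι) (h : ι → Finset E → ℝ) (R B : Finset E) :
    avg (fun T => ∑ i ∈ s, h i T) R B = ∑ i ∈ s, avg (h i) R B := by
  unfold avg
  rw [sum_comm, sum_div]

lemma avg_pow_le (h : Finset E → ℝ) (hh : ∀ T, 0 ≤ h T) (R B : Finset E) (n : ℕ) :
    (avg h R B) ^ n ≤ avg (fun T => h T ^ n) R B := by
  have hc : (0 : ℝ) < 2 ^ (free R B).card := by positivity
  have key := Real.pow_arith_mean_le_arith_mean_pow (free R B).powerset
    (fun _ => ((2 : ℝ) ^ (free R B).card)⁻¹) (fun T => h (R ∪ T)) (fun _ _ => by positivity)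
    (by rw [sum_const, card_powerset, nsmul_eq_mul]; push_cast; field_simp) (fun _ _ => hh _) n
  unfold avg
  rw [← mul_sum, ← mul_sum] at key
  rw [div_eq_inv_mul, div_eq_inv_mul]
  exact key

/-- An element on which `h` does not depend can be given to either player. -/
lemma avg_insert_indep (h : Finset E → ℝ) (R B : Finset E) (f : E) (hf : f ∉ R ∪ B)
    (hi : ∀ T, h (insert f T) = h T) :
    avg h (insert f R) B = avg h R B ∧ avg h R (insert f B) = avg h R B := by
  have h1 : avg h (insert f R) B = avg h R (insert f B) := by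
    unfold avg
    rw [free_insert_left, free_insert_right]
    congr 1
    apply sum_congr rfl
    intro T _
    rw [insert_union, hi]
  have h2 := avg_split h R B f hf
  constructor <;> linarith

/-- A function on positions is harmonic if its value is the mean of the two values obtained by
giving an unclaimed element to either player. -/
def Harmonic (φ : Finset E → Finset E → ℝ) : Prop :=
  ∀ R B : Finset E, Disjoint R B → ∀ e, e ∉ R ∪ B → φ (insert e R) B + φ R (insert e B) = 2 * φ R B

lemma disjoint_insert_left' {R B : Finset E} {e : E} (hd : Disjoint R B) (he : e ∉ R ∪ B) :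
    Disjoint (insert e R) B := by
  rw [Finset.disjoint_insert_left]
  exact ⟨fun h => he (mem_union_right _ h), hd⟩

lemma disjoint_insert_right' {R B : Finset E} {e : E} (hd : Disjoint R B) (he : e ∉ R ∪ B) :
    Disjoint R (insert e B) := by
  rw [Finset.disjoint_insert_right]
  exact ⟨fun h => he (mem_union_left _ h), hd⟩

/-- Domination at the final positions gives domination of the averages. -/
lemma avg_le_of_final (h : Finset E → ℝ) (φ : Finset E → Finset E → ℝ) (hφ : Harmonic φ)
    (hfin : ∀ R B, Disjoint R B → R ∪ B = univ → h R ≤ φ R B) :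
    ∀ n : ℕ, ∀ R B : Finset E, (free R B).card = n → Disjoint R B → avg h R B ≤ φ R B := by
  intro n
  induction n with
  | zero =>
    intro R B hc hd
    have hu : R ∪ B = univ := free_eq_empty.1 (card_eq_zero.1 hc)
    rw [avg_final h R B hu]
    exact hfin R B hd hu
  | succ n ih =>
    intro R B hc hd
    have hne : (free R B).Nonempty := card_pos.1 (by omega)
    obtain ⟨e, he⟩ := hne
    have he' := mem_free.1 he
    have h1 := ih (insert e R) B (by rw [free_insert_left, card_erase_of_mem he, hc]; rfl)
      (disjoint_insert_left' hd he')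
    have h2 := ih R (insert e B) (by rw [free_insert_right, card_erase_of_mem he, hc]; rfl)
      (disjoint_insert_right' hd he')
    have h3 := avg_split h R B e he'
    have h4 := hφ R B hd e he'
    linarith

/-- The cross term of a function on positions. -/
def cross (φ : Finset E → Finset E → ℝ) (R B : Finset E) (e f : E) : ℝ :=
  φ (insert e R) (insert f B) - φ (insert e R) B - φ R (insert f B) + φ R B

/-- Product weights. -/
noncomputable def wgt (ε : ℝ) (P R B : Finset E) : ℝ :=
  (1 + ε) ^ (P ∩ R).card * (1 - ε) ^ (P ∩ B).card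

lemma wgt_nonneg {ε : ℝ} (h0 : 0 ≤ ε) (h1 : ε ≤ 1) (P R B : Finset E) : 0 ≤ wgt ε P R B :=
  mul_nonneg (pow_nonneg (by linarith) _) (pow_nonneg (by linarith) _)

lemma wgt_insert_left (ε : ℝ) (P R B : Finset E) (e : E) (he : e ∉ R) :
    wgt ε P (insert e R) B = (if e ∈ P then 1 + ε else 1) * wgt ε P R B := by
  unfold wgt
  split_ifs with h
  · rw [inter_insert_of_mem h, card_insert_of_notMem (fun h' => he (mem_inter.1 h').2), pow_succ]
    ring
  · rw [inter_insert_of_notMem h, one_mul]

lemma wgt_insert_right (ε : ℝ) (P R B : Finset E) (e : E) (he : e ∉ B) :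
    wgt ε P R (insert e B) = (if e ∈ P then 1 - ε else 1) * wgt ε P R B := by
  unfold wgt
  split_ifs with h
  · rw [inter_insert_of_mem h, card_insert_of_notMem (fun h' => he (mem_inter.1 h').2), pow_succ]
    ring
  · rw [inter_insert_of_notMem h, one_mul]

lemma wgt_harmonic (ε : ℝ) (P : Finset E) : Harmonic (wgt ε P) := by
  intro R B _ e he
  rw [mem_union, not_or] at he
  rw [wgt_insert_left ε P R B e he.1, wgt_insert_right ε P R B e he.2]
  split_ifs <;> ring

lemma wgt_cross_nonpos {ε : ℝ} (h0 : 0 ≤ ε) (h1 : ε ≤ 1) (P R B : Finset E) (e f : E)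
    (he : e ∉ R ∪ B) (hf : f ∉ R ∪ B) : cross (wgt ε P) R B e f ≤ 0 := by
  rw [mem_union, not_or] at he hf
  unfold cross
  rw [wgt_insert_left ε P R (insert f B) e he.1, wgt_insert_left ε P R B e he.1,
    wgt_insert_right ε P R B f hf.2]
  have hw := wgt_nonneg h0 h1 P R B
  have h2 : 0 ≤ ε ^ 2 * wgt ε P R B := by positivity
  split_ifs <;> nlinarith

/-- The cross term of an average is at least minus the average. -/
lemma avg_cross_ge (h : Finset E → ℝ) (hh : ∀ T, 0 ≤ h T) (R B : Finset E) (e f : E)
    (he : e ∉ R ∪ B) (hf : f ∉ R ∪ B) (hef : e ≠ f) : - avg h R B ≤ cross (avg h) R B e f := by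
  rw [mem_union, not_or] at he hf
  have h1 := avg_split h R B e (by rw [mem_union, not_or]; exact he)
  have h2 := avg_split h R B f (by rw [mem_union, not_or]; exact hf)
  have h3 := avg_split h (insert e R) B f (by
    rw [mem_union, mem_insert, not_or, not_or]; exact ⟨⟨hef.symm, hf.1⟩, hf.2⟩)
  have h4 := avg_split h R (insert e B) f (by
    rw [mem_union, mem_insert, not_or, not_or]; exact ⟨hf.1, hef.symm, hf.2⟩)
  have h5 := avg_split h R (insert f B) e (by
    rw [mem_union, mem_insert, not_or, not_or]; exact ⟨he.1, hef, he.2⟩)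
  have n1 := avg_nonneg h hh (insert e R) (insert f B)
  have n2 := avg_nonneg h hh (insert f R) (insert e B)
  have n3 := avg_nonneg h hh (insert f (insert e R)) B
  have n4 := avg_nonneg h hh R (insert f (insert e B))
  have e1 : insert e (insert f B) = insert f (insert e B) := Finset.insert_comm _ _ _
  rw [e1] at h5
  unfold cross
  linarith

/-- If `h` does not depend on `e`, or not on `f`, the cross term vanishes. -/
lemma avg_cross_zero_left (h : Finset E → ℝ) (R B : Finset E) (e f : E)
    (he : e ∉ R ∪ B) (hef : e ≠ f) (hi : ∀ T, h (insert e T) = h T) :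
    cross (avg h) R B e f = 0 := by
  unfold cross
  rw [(avg_insert_indep h R (insert f B) e (by
    rw [mem_union, not_or] at he
    rw [mem_union, mem_insert, not_or, not_or]; exact ⟨he.1, hef, he.2⟩) hi).1,
    (avg_insert_indep h R B e he hi).1]
  ring

lemma avg_cross_zero_right (h : Finset E → ℝ) (R B : Finset E) (e f : E)
    (hf : f ∉ R ∪ B) (hef : e ≠ f) (hi : ∀ T, h (insert f T) = h T) :
    cross (avg h) R B e f = 0 := by
  unfold cross
  rw [(avg_insert_indep h (insert e R) B f (by
    rw [mem_union, not_or] at hf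
    rw [mem_union, mem_insert, not_or, not_or]; exact ⟨⟨hef.symm, hf.1⟩, hf.2⟩) hi).2,
    (avg_insert_indep h R B f hf hi).2]
  ring

end Pool.Agent.H69.Clique
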