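import Mathlib
import Pool.Agent.H69.CliqueDefs

/-!
# Edges inside vertex sets
-/

set_option autoImplicit false
set_option linter.unusedSectionVars false

namespace Pool.Agent.H69.Clique

open Finset

variable {N : ℕ}

lemma mem_inside {A : Finset (Fin N)} {e : Edge N} : e ∈ inside A ↔ ∀ v ∈ e.1, v ∈ A := by
  simp [inside]

lemma card_inside (A : Finset (Fin N)) : (inside A).card = A.card.choose 2 := by
  classical
  rw [← Sym2.card_image_offDiag A, ← card_map (Function.Embedding.subtype _)]
  congr 1
  ext x
  simp only [mem_map, mem_inside, Function.Embedding.subtype_apply, mem_image, mem_offDiag,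
    Prod.exists]
  constructor
  · rintro ⟨⟨y, hy⟩, h, rfl⟩
    induction y using Sym2.ind with
    | _ a b =>
      refine ⟨a, b, ⟨h a (Sym2.mem_mk_left a b), h b (Sym2.mem_mk_right a b), ?_⟩, rfl⟩
      intro hab
      exact hy (by rw [hab]; exact Sym2.mk_isDiag_iff.2 rfl)
  · rintro ⟨a, b, ⟨ha, hb, hab⟩, rfl⟩
    refine ⟨⟨s(a, b), fun h => hab (Sym2.mk_isDiag_iff.1 h)⟩, ?_, rfl⟩
    intro v hv
    rcases Sym2.mem_iff.1 hv with rfl | rfl
    · exact ha
    · exact hb

lemma inside_inter (A J : Finset (Fin N)) : inside (A ∩ J) = inside A ∩ inside J := by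
  ext e
  simp only [mem_inside, mem_inter]
  constructor
  · intro h
    exact ⟨fun v hv => (h v hv).1, fun v hv => (h v hv).2⟩
  · rintro ⟨h1, h2⟩ v hv
    exact ⟨h1 v hv, h2 v hv⟩

lemma inside_mono {A J : Finset (Fin N)} (h : A ⊆ J) : inside A ⊆ inside J := by
  intro e he
  rw [mem_inside] at he ⊢
  exact fun v hv => h (he v hv)

/-- The private edges of `A` with respect to the earlier vertices `U`. -/
def priv (A U : Finset (Fin N)) : Finset (Edge N) := inside A \ inside U

lemma card_priv (A U : Finset (Fin N)) :
    (priv A U).card = A.card.choose 2 - (A ∩ U).card.choose 2 := by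
  unfold priv
  rw [← card_inside, ← card_inside, inside_inter, ← sdiff_inter_self_left, card_sdiff_of_subset
    inter_subset_left]

lemma priv_eq (A U : Finset (Fin N)) : priv A U = inside A \ inside (A ∩ U) := by
  unfold priv
  rw [inside_inter, sdiff_inter_self_left]

lemma card_edge : Fintype.card (Edge N) = N.choose 2 := by
  have h := card_inside (univ : Finset (Fin N))
  rw [card_univ, Fintype.card_fin] at h
  rw [← h, ← card_univ]
  congr 1
  ext e
  simp [mem_inside]

/-- Two different edges span at least three vertices. -/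
lemma exists_three {e f : Edge N} (hef : e ≠ f) : ∃ S : Finset (Fin N), S.card = 3 ∧
    ∀ A : Finset (Fin N), e ∈ inside A → f ∈ inside A → S ⊆ A := by
  classical
  obtain ⟨x, hx⟩ := e
  obtain ⟨y, hy⟩ := f
  induction x using Sym2.ind with
  | _ a b =>
    induction y using Sym2.ind with
    | _ c d =>
      have hab : a ≠ b := fun h => hx (Sym2.mk_isDiag_iff.2 h)
      have hcd : c ≠ d := fun h => hy (Sym2.mk_isDiag_iff.2 h)
      have hne : s(a, b) ≠ s(c, d) := fun h => hef (Subtype.ext h)
      have key : ∃ z, z ∈ s(c, d) ∧ z ≠ a ∧ z ≠ b := by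
        by_contra hcon
        push Not at hcon
        apply hne
        have hc := hcon c (Sym2.mem_mk_left c d)
        have hd := hcon d (Sym2.mem_mk_right c d)
        by_cases h1 : c = a
        · subst h1
          have : d = b := hd (Ne.symm hcd)
          rw [this]
        · have h2 : c = b := hc h1
          subst h2
          by_cases h3 : d = a
          · rw [h3, Sym2.eq_swap]
          · exact absurd (hd h3) (Ne.symm hcd)
      obtain ⟨z, hz, hza, hzb⟩ := key
      refine ⟨{a, b, z}, ?_, ?_⟩
      · rw [card_eq_three]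
        exact ⟨a, b, z, hab, hza.symm, hzb.symm, rfl⟩
      · intro A h1 h2
        rw [mem_inside] at h1 h2
        intro v hv
        simp only [mem_insert, mem_singleton] at hv
        rcases hv with rfl | rfl | rfl
        · exact h1 _ (Sym2.mem_mk_left _ _)
        · exact h1 _ (Sym2.mem_mk_right _ _)
        · exact h2 _ hz

end Pool.Agent.H69.Clique
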