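import Mathlib
import Pool.Agent.H69.CliqueAvg
import Pool.Agent.H69.CliqueBasic

/-!
# Binomial estimates
-/

set_option autoImplicit false
set_option linter.unusedSectionVars false

namespace Pool.Agent.H69.Clique

open Finset

/-- Terms of the binomial distribution. -/
noncomputable def bt (α : ℝ) (m k : ℕ) : ℝ := (m.choose k : ℝ) * α ^ k * (1 - α) ^ (m - k)

lemma bt_ratio {α : ℝ} (m k : ℕ) (hk : k < m) :
    bt α m (k + 1) * ((k + 1) * (1 - α)) = bt α m k * ((m - k) * α) := by
  unfold bt
  have h1 : (m.choose (k + 1) : ℝ) * (k + 1) = (m.choose k : ℝ) * (m - k) := by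
    have := Nat.choose_succ_right_eq m k
    have h2 : ((m - k : ℕ) : ℝ) = (m : ℝ) - k := Nat.cast_sub hk.le
    rw [← h2]
    exact_mod_cast this
  have h3 : m - k = (m - (k + 1)) + 1 := by omega
  rw [h3, pow_succ, pow_succ]
  linear_combination (α ^ k * α * (1 - α) ^ (m - (k + 1)) * (1 - α)) * h1

lemma bt_nonneg {α : ℝ} (h0 : 0 ≤ α) (h1 : α ≤ 1) (m k : ℕ) : 0 ≤ bt α m k := by
  unfold bt
  have : 0 ≤ 1 - α := by linarith
  positivity

lemma bt_sum {α : ℝ} (m : ℕ) : ∑ k ∈ range (m + 1), bt α m k = 1 := by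
  have h := add_pow α (1 - α) m
  rw [show α + (1 - α) = 1 by ring, one_pow] at h
  rw [h]
  apply sum_congr rfl
  intro k _
  unfold bt
  ring

/-- The term at `⌈α m⌉` is at least `1 / (2 (m + 1))`. -/
lemma bt_mode {α : ℝ} (h0 : 1 / 2 ≤ α) (h1 : α < 1) (m : ℕ) (hm : 2 ≤ m) :
    1 / (2 * ((m : ℝ) + 1)) ≤ bt α m ⌈α * m⌉₊ := by
  set r := ⌈α * m⌉₊ with hr
  have hα0 : 0 < α := by linarith
  have hα1 : 0 < 1 - α := by linarith
  have hm' : (2 : ℝ) ≤ m := by exact_mod_cast hm
  have hr1 : α * m ≤ r := Nat.le_ceil _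
  have hr2 : (r : ℝ) < α * m + 1 := Nat.ceil_lt_add_one (by positivity)
  have hrm : r ≤ m := by
    rw [hr]
    apply Nat.ceil_le.2
    nlinarith
  have hrpos : 1 ≤ r := by
    rw [hr]
    apply Nat.one_le_ceil_iff.2
    positivity
  -- decreasing from r on
  have hdec : ∀ k, r ≤ k → bt α m k ≤ bt α m r := by
    intro k hk
    induction k, hk using Nat.le_induction with
    | base => exact le_rfl
    | succ k hk ih =>
      refine le_trans ?_ ih
      by_cases hkm : k < m
      · have hrat := bt_ratio (α := α) m k hkm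
        have hk' : (r : ℝ) ≤ k := by exact_mod_cast hk
        have hb := bt_nonneg hα0.le h1.le m k
        have hc : ((m : ℝ) - k) * α ≤ (k + 1) * (1 - α) := by nlinarith
        have hpos : 0 < ((k : ℝ) + 1) * (1 - α) := by positivity
        have : bt α m (k + 1) * ((k + 1) * (1 - α)) ≤ bt α m k * ((k + 1) * (1 - α)) := by
          rw [hrat]
          exact mul_le_mul_of_nonneg_left hc hb
        exact le_of_mul_le_mul_right this hpos
      · have : m.choose (k + 1) = 0 := Nat.choose_eq_zero_of_lt (by omega)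
        unfold bt
        rw [this]
        simp only [Nat.cast_zero, zero_mul]
        exact bt_nonneg hα0.le h1.le m k
  -- increasing up to r - 1
  have hinc : ∀ j, ∀ k, k + j = r - 1 → bt α m k ≤ bt α m (r - 1) := by
    intro j
    induction j with
    | zero =>
      intro k hk
      have : k = r - 1 := by omega
      rw [this]
    | succ j ih =>
      intro k hk
      refine le_trans ?_ (ih (k + 1) (by omega))
      have hkm : k < m := by omega
      have hrat := bt_ratio (α := α) m k hkm
      have hk' : (k : ℝ) + 1 ≤ (r : ℝ) - 1 := by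
        have : k + 1 + 1 ≤ r := by omega
        have h2 : ((k + 1 + 1 : ℕ) : ℝ) ≤ r := by exact_mod_cast this
        push_cast at h2
        linarith
      have hb := bt_nonneg hα0.le h1.le m k
      have hc : ((k : ℝ) + 1) * (1 - α) ≤ (m - k) * α := by nlinarith
      have hpos : 0 < ((k : ℝ) + 1) * (1 - α) := by positivity
      have : bt α m k * ((k + 1) * (1 - α)) ≤ bt α m (k + 1) * ((k + 1) * (1 - α)) := by
        rw [hrat]
        exact mul_le_mul_of_nonneg_left hc hb
      exact le_of_mul_le_mul_right this hpos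
  have hlast : bt α m (r - 1) ≤ 2 * bt α m r := by
    have hkm : r - 1 < m := by omega
    have hrat := bt_ratio (α := α) m (r - 1) hkm
    have hrr : r - 1 + 1 = r := by omega
    have hcast : ((r - 1 : ℕ) : ℝ) = (r : ℝ) - 1 := by
      rw [Nat.cast_sub hrpos]
      simp
    rw [hrr, hcast] at hrat
    have hb := bt_nonneg hα0.le h1.le m r
    have hpos : 0 < ((m : ℝ) - (r - 1)) * α := by
      apply mul_pos _ hα0
      have : (r : ℝ) ≤ m := by exact_mod_cast hrm
      linarith
    have hc : ((r : ℝ) - 1 + 1) * (1 - α) ≤ 2 * (((m : ℝ) - (r - 1)) * α) := by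
      have e1 : (1 - α) * m ≤ (m : ℝ) - (r - 1) := by linarith
      have e2 : (r : ℝ) * (1 - α) ≤ (α * m + 1) * (1 - α) := by nlinarith
      have e3 : 1 ≤ α * m := by nlinarith
      nlinarith
    have : bt α m (r - 1) * (((m : ℝ) - (r - 1)) * α) ≤
        (2 * bt α m r) * (((m : ℝ) - (r - 1)) * α) := by
      rw [← hrat]
      nlinarith
    exact le_of_mul_le_mul_right this hpos
  have hall : ∀ k ∈ range (m + 1), bt α m k ≤ 2 * bt α m r := by
    intro k _
    have hb := bt_nonneg hα0.le h1.le m r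
    rcases Nat.lt_or_ge k r with hk | hk
    · exact (hinc (r - 1 - k) k (by omega)).trans hlast
    · exact (hdec k hk).trans (by linarith)
  have hsum := sum_le_sum hall
  rw [bt_sum, sum_const, card_range, nsmul_eq_mul] at hsum
  push_cast at hsum
  rw [div_le_iff₀ (by positivity)]
  linarith

/-- Bernstein type inequality for one Bernoulli variable. -/
lemma mgf_bound {α s : ℝ} (h0 : 0 ≤ α) (h1 : α ≤ 1) (hs0 : 0 ≤ s) (hs1 : s ≤ 1) :
    α * Real.exp (-s) + (1 - α) ≤ Real.exp (-s * α + s ^ 2) := by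
  have e1 : Real.exp (-(s * (1 - α))) ≤ 1 + -(s * (1 - α)) + (s * (1 - α)) ^ 2 := by
    have := Real.abs_exp_sub_one_sub_id_le (x := -(s * (1 - α))) (by
      rw [abs_neg, abs_of_nonneg (mul_nonneg hs0 (by linarith))]
      nlinarith)
    have h2 := (abs_le.1 this).2
    nlinarith
  have e2 : Real.exp (s * α) ≤ 1 + s * α + (s * α) ^ 2 := by
    have := Real.abs_exp_sub_one_sub_id_le (x := s * α) (by
      rw [abs_of_nonneg (mul_nonneg hs0 h0)]
      nlinarith)
    have h2 := (abs_le.1 this).2
    nlinarith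
  have e3 : 1 + s ^ 2 ≤ Real.exp (s ^ 2) := by
    have := Real.add_one_le_exp (s ^ 2)
    linarith
  have e4 : α * Real.exp (-(s * (1 - α))) + (1 - α) * Real.exp (s * α) ≤ Real.exp (s ^ 2) := by
    refine le_trans ?_ e3
    have f1 := mul_le_mul_of_nonneg_left e1 h0
    have f2 := mul_le_mul_of_nonneg_left e2 (by linarith : (0 : ℝ) ≤ 1 - α)
    have f3 : s ^ 2 * (α * (1 - α)) ≤ s ^ 2 * 1 := by
      apply mul_le_mul_of_nonneg_left _ (by positivity)
      nlinarith
    nlinarith
  have e5 : α * Real.exp (-s) + (1 - α) = Real.exp (-s * α) *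
      (α * Real.exp (-(s * (1 - α))) + (1 - α) * Real.exp (s * α)) := by
    rw [mul_add, ← mul_assoc, ← mul_assoc, mul_comm (Real.exp (-s * α)) α,
      mul_comm (Real.exp (-s * α)) (1 - α), mul_assoc, mul_assoc, ← Real.exp_add, ← Real.exp_add]
    rw [show -s * α + -(s * (1 - α)) = -s by ring, show -s * α + s * α = 0 by ring,
      Real.exp_zero, mul_one]
  rw [e5, Real.exp_add]
  exact mul_le_mul_of_nonneg_left e4 (Real.exp_pos _).le

section measure

variable {E : Type} [DecidableEq E]

/-- The weight of the subset `T` of `P` under independent choices with probability `α`. -/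
noncomputable def mu (α : ℝ) (P T : Finset E) : ℝ := α ^ T.card * (1 - α) ^ (P \ T).card

lemma mu_nonneg {α : ℝ} (h0 : 0 ≤ α) (h1 : α ≤ 1) (P T : Finset E) : 0 ≤ mu α P T := by
  unfold mu
  have : 0 ≤ 1 - α := by linarith
  positivity

/-- Lower tail bound. -/
lemma tail_bound {α δ : ℝ} (h0 : 0 ≤ α) (h1 : α ≤ 1) (hδ0 : 0 ≤ δ) (hδ1 : δ ≤ 1)
    (P D : Finset E) (hD : D ⊆ P) :
    ∑ T ∈ P.powerset.filter (fun T => ((T ∩ D).card : ℝ) < (α - δ) * D.card), mu α P T ≤
      Real.exp (-(δ ^ 2 / 4) * D.card) := by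
  set s := δ / 2 with hs
  have hs0 : 0 ≤ s := by positivity
  have hs1 : s ≤ 1 := by rw [hs]; linarith
  have step1 : ∑ T ∈ P.powerset.filter (fun T => ((T ∩ D).card : ℝ) < (α - δ) * D.card),
      mu α P T ≤ ∑ T ∈ P.powerset, mu α P T *
        Real.exp (s * ((α - δ) * D.card - (T ∩ D).card)) := by
    rw [sum_filter]
    apply sum_le_sum
    intro T _
    split_ifs with hT
    · have : 1 ≤ Real.exp (s * ((α - δ) * D.card - (T ∩ D).card)) := by
        apply Real.one_le_exp
        apply mul_nonneg hs0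
        linarith
      exact le_mul_of_one_le_right (mu_nonneg h0 h1 P T) this
    · exact mul_nonneg (mu_nonneg h0 h1 P T) (Real.exp_pos _).le
  have step2 : ∑ T ∈ P.powerset, mu α P T * Real.exp (s * ((α - δ) * D.card - (T ∩ D).card)) =
      Real.exp (s * (α - δ) * D.card) * (α * Real.exp (-s) + (1 - α)) ^ D.card := by
    have hprod : ∏ e ∈ P, ((α * (if e ∈ D then Real.exp (-s) else 1)) + (1 - α)) =
        (α * Real.exp (-s) + (1 - α)) ^ D.card := by
      rw [← prod_subset hD]
      · rw [prod_congr rfl (fun e he => by rw [if_pos he]), prod_const]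
      · intro e _ he
        rw [if_neg he]
        ring
    rw [← hprod, prod_add, mul_sum]
    apply sum_congr rfl
    intro T _
    unfold mu
    rw [prod_mul_distrib, prod_const, prod_const]
    have h2 : ∏ e ∈ T, (if e ∈ D then Real.exp (-s) else 1) = Real.exp (-s) ^ (T ∩ D).card := by
      rw [prod_ite, prod_const, prod_const_one, mul_one, filter_mem_eq_inter]
    rw [h2, ← Real.exp_nat_mul]
    have h3 : Real.exp (s * ((α - δ) * D.card - (T ∩ D).card)) =
        Real.exp (s * (α - δ) * D.card) * Real.exp ((T ∩ D).card * (-s)) := by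
      rw [← Real.exp_add]
      congr 1
      ring
    rw [h3]
    ring
  refine step1.trans (step2.le.trans ?_)
  have h4 := mgf_bound h0 h1 hs0 hs1
  have h5 : (0 : ℝ) ≤ α * Real.exp (-s) + (1 - α) := by
    have : 0 ≤ 1 - α := by linarith
    positivity
  calc Real.exp (s * (α - δ) * D.card) * (α * Real.exp (-s) + (1 - α)) ^ D.card
      ≤ Real.exp (s * (α - δ) * D.card) * (Real.exp (-s * α + s ^ 2)) ^ D.card := by
        apply mul_le_mul_of_nonneg_left _ (Real.exp_pos _).le
        exact pow_le_pow_left₀ h5 h4 _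
    _ = Real.exp (-(δ ^ 2 / 4) * D.card) := by
        rw [← Real.exp_nat_mul, ← Real.exp_add]
        congr 1
        rw [hs]
        ring

lemma sum_mu_card (α : ℝ) (P : Finset E) (r : ℕ) :
    ∑ T ∈ P.powerset.filter (fun T => T.card = r), mu α P T = bt α P.card r := by
  have h1 : ∀ T ∈ P.powerset.filter (fun T => T.card = r), mu α P T =
      α ^ r * (1 - α) ^ (P.card - r) := by
    intro T hT
    rw [mem_filter, mem_powerset] at hT
    unfold mu
    rw [card_sdiff_of_subset hT.1, hT.2]
  rw [sum_congr rfl h1, sum_const, nsmul_eq_mul, ← powersetCard_eq_filter, card_powersetCard]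
  unfold bt
  ring

end measure

end Pool.Agent.H69.Clique
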