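import Mathlib
import Pool.Agent.H69.CliqueProb

/-!
# Balanced dense sets
-/

set_option autoImplicit false
set_option linter.unusedSectionVars false

namespace Pool.Agent.H69.Clique

open Finset

/-- `β = log (2 α ^ α (1 - α) ^ (1 - α))`. -/
noncomputable def be (α : ℝ) : ℝ := Real.log 2 + α * Real.log α + (1 - α) * Real.log (1 - α)

/-- `τ = log (α / (1 - α))`. -/
noncomputable def ta (α : ℝ) : ℝ := Real.log α - Real.log (1 - α)

/-- `log (2 α)`. -/
noncomputable def aa (α : ℝ) : ℝ := Real.log 2 + Real.log α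

lemma be_pos {α : ℝ} (h0 : 1 / 2 < α) (h1 : α < 1) : 0 < be α := by
  have hα0 : 0 < α := by linarith
  have hα1 : 0 < 1 - α := by linarith
  have e1 : Real.log (1 / (2 * α)) < 1 / (2 * α) - 1 := by
    apply Real.log_lt_sub_one_of_pos (by positivity)
    intro h
    rw [div_eq_one_iff_eq (by positivity)] at h
    linarith
  have e2 : Real.log (1 / (2 * (1 - α))) ≤ 1 / (2 * (1 - α)) - 1 :=
    Real.log_le_sub_one_of_pos (by positivity)
  rw [one_div, Real.log_inv, Real.log_mul two_ne_zero hα0.ne'] at e1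
  rw [one_div, Real.log_inv, Real.log_mul two_ne_zero hα1.ne'] at e2
  have f1 := mul_lt_mul_of_pos_left e1 hα0
  have f2 := mul_le_mul_of_nonneg_left e2 hα1.le
  have g1 : α * ((2 * α)⁻¹ - 1) = 1 / 2 - α := by field_simp
  have g2 : (1 - α) * ((2 * (1 - α))⁻¹ - 1) = 1 / 2 - (1 - α) := by field_simp
  rw [g1] at f1
  rw [g2] at f2
  unfold be
  nlinarith

lemma ta_pos {α : ℝ} (h0 : 1 / 2 < α) (h1 : α < 1) : 0 < ta α := by
  unfold ta
  have := Real.log_lt_log (by linarith : 0 < 1 - α) (by linarith : 1 - α < α)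
  linarith

lemma aa_pos {α : ℝ} (h0 : 1 / 2 < α) : 0 < aa α := by
  unfold aa
  rw [← Real.log_mul two_ne_zero (by linarith)]
  exact Real.log_pos (by linarith)

lemma be_le_aa {α : ℝ} (h0 : 1 / 2 < α) (h1 : α < 1) : be α ≤ aa α := by
  unfold be aa
  have := ta_pos h0 h1
  unfold ta at this
  nlinarith

lemma be_add {α : ℝ} : be α + ta α * (1 - α) = aa α := by
  unfold be ta aa
  ring

variable {N : ℕ}

/-- `A` carries exactly `⌈α C(q,2)⌉` edges of `T`, and the edges of `A` outside each large subset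
have density at least `α - δ`. -/
def Bal (α δ x₀ : ℝ) (q : ℕ) (A : Finset (Fin N)) (T : Finset (Edge N)) : Prop :=
  (T ∩ inside A).card = ⌈α * (q.choose 2 : ℕ)⌉₊ ∧
    ∀ J, J ⊆ A → x₀ * q < J.card → (α - δ) * (priv A J).card ≤ (T ∩ priv A J).card

open Classical in
/-- The indicator of `Bal`. -/
noncomputable def Y (α δ x₀ : ℝ) (q : ℕ) (A : Finset (Fin N)) (T : Finset (Edge N)) : ℝ :=
  if Bal α δ x₀ q A T then 1 else 0

lemma Y_nonneg (α δ x₀ : ℝ) (q : ℕ) (A : Finset (Fin N)) (T : Finset (Edge N)) :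
    0 ≤ Y α δ x₀ q A T := by
  unfold Y
  split_ifs <;> norm_num

lemma priv_subset (A U : Finset (Fin N)) : priv A U ⊆ inside A := sdiff_subset

lemma Y_indep (α δ x₀ : ℝ) (q : ℕ) (A : Finset (Fin N)) (T : Finset (Edge N)) (f : Edge N)
    (hf : f ∉ inside A) : Y α δ x₀ q A (insert f T) = Y α δ x₀ q A T := by
  have h1 : insert f T ∩ inside A = T ∩ inside A := insert_inter_of_notMem hf
  have h2 : ∀ J, insert f T ∩ priv A J = T ∩ priv A J := fun J =>
    insert_inter_of_notMem (fun h => hf (priv_subset A J h))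
  have hB : Bal α δ x₀ q A (insert f T) ↔ Bal α δ x₀ q A T := by
    unfold Bal
    rw [h1]
    simp only [h2]
  unfold Y
  by_cases h : Bal α δ x₀ q A T
  · rw [if_pos h, if_pos (hB.2 h)]
  · rw [if_neg h, if_neg (fun h' => h (hB.1 h'))]

/-- Restriction of an average to the relevant elements. -/
lemma avg_restrict {E : Type} [Fintype E] [DecidableEq E] (h : Finset E → ℝ) (P : Finset E)
    (hi : ∀ f, f ∉ P → ∀ T, h (insert f T) = h T) :
    avg h ∅ ∅ = (∑ T ∈ P.powerset, h T) / 2 ^ P.card := by
  have key : ∀ D : Finset E, Disjoint D P → avg h ∅ D = avg h ∅ ∅ := by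
    intro D
    induction D using Finset.induction_on with
    | empty => intro _; rfl
    | insert f D hfD ih =>
      intro hd
      rw [Finset.disjoint_insert_left] at hd
      rw [← ih hd.2]
      exact (avg_insert_indep h ∅ D f (by simpa using hfD) (hi f hd.1)).2
  have h1 := key (univ \ P) (by
    rw [Finset.disjoint_left]
    intro x hx hx2
    exact (mem_sdiff.1 hx).2 hx2)
  rw [← h1]
  unfold avg
  have h2 : free (∅ : Finset E) (univ \ P) = P := by
    ext x
    rw [mem_free]
    simp
  rw [h2]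
  simp

lemma priv_card_ge (A J : Finset (Fin N)) (hJ : J ⊆ A) (hJ1 : 1 ≤ J.card) :
    ((A.card : ℝ) - J.card) * A.card / 2 ≤ (priv A J).card := by
  have h1 : J.card ≤ A.card := card_le_card hJ
  have h2 : (A ∩ J) = J := inter_eq_right.2 hJ
  rw [card_priv, h2, Nat.cast_sub (Nat.choose_le_choose 2 h1), Nat.cast_choose_two,
    Nat.cast_choose_two]
  have h3 : (1 : ℝ) ≤ J.card := by exact_mod_cast hJ1
  have h4 : (J.card : ℝ) ≤ A.card := by exact_mod_cast h1
  nlinarith

/-- The average of `Y` at the start. -/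
lemma avg_Y_ge {α δ x₀ : ℝ} (h0 : 1 / 2 < α) (h1 : α < 1) (hδ0 : 0 ≤ δ) (hδ1 : δ ≤ 1)
    (hx : 0 < x₀) (q : ℕ) (hq3 : 3 ≤ q)
    (hq : (1 + Real.exp (-(δ ^ 2 / 8 * q))) ^ q - 1 ≤ 1 / (4 * ((q.choose 2 : ℕ) + 1 : ℝ)))
    (A : Finset (Fin N)) (hA : A.card = q) :
    Real.exp (-(be α * (q.choose 2 : ℕ)) - ta α) / (4 * ((q.choose 2 : ℕ) + 1 : ℝ)) ≤
      avg (Y α δ x₀ q A) ∅ ∅ := by
  classical
  set m := q.choose 2 with hm
  set P := inside A with hP
  have hPm : P.card = m := by rw [hP, card_inside, hA]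
  have hm2 : 2 ≤ m := by
    rw [hm]
    have : Nat.choose 3 2 ≤ q.choose 2 := Nat.choose_le_choose 2 hq3
    have h3 : Nat.choose 3 2 = 3 := by decide
    omega
  have hα0 : 0 < α := by linarith
  have hα1 : 0 < 1 - α := by linarith
  set r := ⌈α * (m : ℕ)⌉₊ with hr
  have hr1 : α * m ≤ r := Nat.le_ceil _
  have hr2 : (r : ℝ) < α * m + 1 := Nat.ceil_lt_add_one (by positivity)
  have hrm : r ≤ m := by
    rw [hr]
    apply Nat.ceil_le.2
    have : (2 : ℝ) ≤ m := by exact_mod_cast hm2
    nlinarith
  rw [avg_restrict (Y α δ x₀ q A) P (fun f hf T => Y_indep α δ x₀ q A T f hf), hPm]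
  -- the sum of Y is the number of balanced sets
  have hY : ∑ T ∈ P.powerset, Y α δ x₀ q A T =
      ((P.powerset.filter (fun T => Bal α δ x₀ q A T)).card : ℝ) := by
    unfold Y
    rw [sum_boole]
  rw [hY]
  -- the weight of each balanced set
  have hw : ∀ T ∈ P.powerset.filter (fun T => Bal α δ x₀ q A T),
      mu α P T ≤ Real.exp (be α * m + ta α) / 2 ^ m := by
    intro T hT
    rw [mem_filter, mem_powerset] at hT
    have hc : T.card = r := by
      have := hT.2.1
      rw [inter_eq_left.2 hT.1] at this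
      exact this
    unfold mu
    rw [card_sdiff_of_subset hT.1, hc, hPm]
    have e1 : α ^ r * (1 - α) ^ (m - r) =
        Real.exp (r * Real.log α + (m - r) * Real.log (1 - α)) := by
      rw [Real.exp_add, Real.exp_nat_mul, Real.exp_log hα0, ← Nat.cast_sub hrm, Real.exp_nat_mul,
        Real.exp_log hα1]
    have e2 : (2 : ℝ) ^ m = Real.exp (m * Real.log 2) := by
      rw [Real.exp_nat_mul, Real.exp_log two_pos]
    rw [e1, e2, ← Real.exp_sub]
    apply Real.exp_le_exp.2
    unfold be ta
    have h3 := ta_pos h0 h1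
    unfold ta at h3
    nlinarith
  have hsumw := sum_le_sum hw
  rw [sum_const, nsmul_eq_mul] at hsumw
  -- lower bound for the total weight
  have hlow : 1 / (4 * ((m : ℝ) + 1)) ≤
      ∑ T ∈ P.powerset.filter (fun T => Bal α δ x₀ q A T), mu α P T := by
    have hmode := bt_mode h0.le h1 m hm2
    rw [← hr] at hmode
    have hb := sum_mu_card α P r
    rw [hPm] at hb
    set 𝒥 := (A.powerset.erase A).filter (fun J => x₀ * q < J.card) with h𝒥
    have hcover : ∀ T ∈ P.powerset.filter (fun T => T.card = r), mu α P T ≤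
        (if Bal α δ x₀ q A T then mu α P T else 0) +
        ∑ J ∈ 𝒥, (if ((T ∩ priv A J).card : ℝ) < (α - δ) * (priv A J).card
          then mu α P T else 0) := by
      intro T hT
      rw [mem_filter, mem_powerset] at hT
      have hμ := mu_nonneg hα0.le h1.le P T
      have hsumnn : 0 ≤ ∑ J ∈ 𝒥, (if ((T ∩ priv A J).card : ℝ) < (α - δ) * (priv A J).card
          then mu α P T else 0) := by
        apply sum_nonneg
        intro J _
        split_ifs
        · exact hμ
        · exact le_rfl
      by_cases hbal : Bal α δ x₀ q A T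
      · rw [if_pos hbal]
        linarith
      · rw [if_neg hbal, zero_add]
        have : ∃ J ⊆ A, x₀ * q < J.card ∧
            ((T ∩ priv A J).card : ℝ) < (α - δ) * (priv A J).card := by
          by_contra hcon
          push Not at hcon
          apply hbal
          refine ⟨?_, fun J hJ hJ2 => hcon J hJ hJ2⟩
          rw [inter_eq_left.2 hT.1, hT.2]
        obtain ⟨J, hJA, hJx, hJlt⟩ := this
        have hJne : J ≠ A := by
          rintro rfl
          rw [priv, sdiff_self] at hJlt
          simp at hJlt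
        have hJmem : J ∈ 𝒥 := by
          rw [h𝒥, mem_filter, mem_erase, mem_powerset]
          exact ⟨⟨hJne, hJA⟩, hJx⟩
        refine le_trans ?_ (single_le_sum (fun J _ => ?_) hJmem)
        · rw [if_pos hJlt]
        · split_ifs
          · exact hμ
          · exact le_rfl
    have hs1 := sum_le_sum hcover
    rw [hb, sum_add_distrib] at hs1
    have hs2 : ∑ T ∈ P.powerset.filter (fun T => T.card = r),
        (if Bal α δ x₀ q A T then mu α P T else 0) ≤
        ∑ T ∈ P.powerset.filter (fun T => Bal α δ x₀ q A T), mu α P T := by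
      rw [sum_filter (fun T => Bal α δ x₀ q A T)]
      apply sum_le_sum_of_subset_of_nonneg (filter_subset _ _)
      intro T _ _
      split_ifs
      · exact mu_nonneg hα0.le h1.le P T
      · exact le_rfl
    have hs3 : ∑ T ∈ P.powerset.filter (fun T => T.card = r), ∑ J ∈ 𝒥,
        (if ((T ∩ priv A J).card : ℝ) < (α - δ) * (priv A J).card then mu α P T else 0) ≤
        1 / (4 * ((m : ℝ) + 1)) := by
      rw [sum_comm]
      refine le_trans ?_ hq
      have hs4 : ∀ J ∈ 𝒥, ∑ T ∈ P.powerset.filter (fun T => T.card = r),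
          (if ((T ∩ priv A J).card : ℝ) < (α - δ) * (priv A J).card then mu α P T else 0) ≤
          1 ^ J.card * Real.exp (-(δ ^ 2 / 8 * q)) ^ (A.card - J.card) := by
        intro J hJ
        rw [h𝒥, mem_filter, mem_erase, mem_powerset] at hJ
        obtain ⟨⟨hJne, hJA⟩, hJx⟩ := hJ
        have hJ1 : 1 ≤ J.card := by
          have : (0 : ℝ) < J.card := lt_of_le_of_lt (by positivity) hJx
          exact_mod_cast this
        have hJc : J.card ≤ A.card := card_le_card hJA
        have ht := tail_bound hα0.le h1.le hδ0 hδ1 P (priv A J) (priv_subset A J)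
        have hpc := priv_card_ge A J hJA hJ1
        calc ∑ T ∈ P.powerset.filter (fun T => T.card = r),
            (if ((T ∩ priv A J).card : ℝ) < (α - δ) * (priv A J).card then mu α P T else 0)
            ≤ ∑ T ∈ P.powerset,
            (if ((T ∩ priv A J).card : ℝ) < (α - δ) * (priv A J).card then mu α P T else 0) := by
              apply sum_le_sum_of_subset_of_nonneg (filter_subset _ _)
              intro T _ _
              split_ifs
              · exact mu_nonneg hα0.le h1.le P T
              · exact le_rfl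
          _ = ∑ T ∈ P.powerset.filter (fun T => ((T ∩ priv A J).card : ℝ) <
              (α - δ) * (priv A J).card), mu α P T := by rw [sum_filter]
          _ ≤ Real.exp (-(δ ^ 2 / 4) * (priv A J).card) := ht
          _ ≤ 1 ^ J.card * Real.exp (-(δ ^ 2 / 8 * q)) ^ (A.card - J.card) := by
              rw [one_pow, one_mul, ← Real.exp_nat_mul]
              apply Real.exp_le_exp.2
              rw [Nat.cast_sub hJc]
              rw [hA] at hpc ⊢
              have hd2 : 0 ≤ δ ^ 2 := sq_nonneg δ
              nlinarith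
      refine (sum_le_sum hs4).trans ?_
      have hs5 : ∑ J ∈ 𝒥, (1 : ℝ) ^ J.card * Real.exp (-(δ ^ 2 / 8 * q)) ^ (A.card - J.card) ≤
          ∑ J ∈ A.powerset.erase A,
            (1 : ℝ) ^ J.card * Real.exp (-(δ ^ 2 / 8 * q)) ^ (A.card - J.card) := by
        apply sum_le_sum_of_subset_of_nonneg (filter_subset _ _)
        intro J _ _
        positivity
      refine hs5.trans ?_
      have hs6 := sum_pow_mul_eq_add_pow (1 : ℝ) (Real.exp (-(δ ^ 2 / 8 * q))) A
      rw [← add_sum_erase _ _ (mem_powerset_self A), hA, Nat.sub_self, pow_zero, one_pow] at hs6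
      rw [hA]
      linarith
    have h8 : 1 / (2 * ((m : ℝ) + 1)) = 1 / (4 * ((m : ℝ) + 1)) + 1 / (4 * ((m : ℝ) + 1)) := by
      field_simp
      norm_num
    linarith
  -- conclusion
  have hexp : 0 < Real.exp (be α * m + ta α) := Real.exp_pos _
  have h9 : 1 / (4 * ((m : ℝ) + 1)) ≤
      ((P.powerset.filter (fun T => Bal α δ x₀ q A T)).card : ℝ) *
        (Real.exp (be α * m + ta α) / 2 ^ m) := hlow.trans hsumw
  have h10 : Real.exp (-(be α * m) - ta α) = 1 / Real.exp (be α * m + ta α) := by
    rw [one_div, ← Real.exp_neg]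
    congr 1
    ring
  rw [h10]
  rw [div_div, div_le_div_iff₀ (by positivity) (by positivity)]
  rw [div_le_iff₀ (by positivity)] at h9
  have h11 : ((P.powerset.filter (fun T => Bal α δ x₀ q A T)).card : ℝ) *
        (Real.exp (be α * m + ta α) / 2 ^ m) * (4 * ((m : ℝ) + 1)) * 2 ^ m =
        ((P.powerset.filter (fun T => Bal α δ x₀ q A T)).card : ℝ) *
        (Real.exp (be α * m + ta α) * (4 * ((m : ℝ) + 1))) := by
    field_simp
  rw [← h11]
  have : (0 : ℝ) ≤ 2 ^ m := by positivity
  nlinarith

end Pool.Agent.H69.Clique
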