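import Mathlib
import Pool.Agent.H69.CliqueY

/-!
# Quadruples of balanced sets
-/

set_option autoImplicit false
set_option linter.unusedSectionVars false

namespace Pool.Agent.H69.Clique

open Finset

variable {N : ℕ}

open Classical in
/-- The cost of a set whose intersection with the earlier vertices has size `j`. -/
noncomputable def gam (α δ x₀ : ℝ) (q j : ℕ) : ℝ :=
  Real.exp (-be α * ((q.choose 2 : ℕ) - (j.choose 2 : ℕ)) +
    ta α * (if (j : ℝ) ≤ x₀ * q then (1 - α) * (j.choose 2 : ℕ)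
      else δ * ((q.choose 2 : ℕ) - (j.choose 2 : ℕ))))

lemma gam_pos (α δ x₀ : ℝ) (q j : ℕ) : 0 < gam α δ x₀ q j := Real.exp_pos _

lemma Y_le {α δ x₀ : ℝ} (h0 : 1 / 2 < α) (h1 : α < 1) (q : ℕ) (A U : Finset (Fin N))
    (hA : A.card = q) (T : Finset (Edge N)) :
    Y α δ x₀ q A T ≤ gam α δ x₀ q (A ∩ U).card * wgt (2 * α - 1) (priv A U) T (univ \ T) := by
  classical
  have hα0 : 0 < α := by linarith
  have hα1 : 0 < 1 - α := by linarith
  have hnn : 0 ≤ gam α δ x₀ q (A ∩ U).card * wgt (2 * α - 1) (priv A U) T (univ \ T) :=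
    mul_nonneg (gam_pos _ _ _ _ _).le (wgt_nonneg (by linarith) (by linarith) _ _ _)
  unfold Y
  split_ifs with hb
  swap
  · exact hnn
  obtain ⟨hb1, hb2⟩ := hb
  set j := (A ∩ U).card with hj
  set n := (priv A U).card with hn
  set r := (T ∩ priv A U).card with hr
  have hjq : j ≤ q := by
    rw [hj, ← hA]
    exact card_le_card inter_subset_left
  have hnc : (n : ℝ) = (q.choose 2 : ℕ) - (j.choose 2 : ℕ) := by
    rw [hn, card_priv, hA, Nat.cast_sub (Nat.choose_le_choose 2 hjq)]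
  have hrn : r ≤ n := card_le_card inter_subset_right
  have hw : wgt (2 * α - 1) (priv A U) T (univ \ T) =
      Real.exp (r * aa α + (n - r) * (Real.log 2 + Real.log (1 - α))) := by
    unfold wgt aa
    have e1 : (priv A U ∩ T).card = r := by rw [inter_comm]
    have e2 : (priv A U ∩ (univ \ T)).card = n - r := by
      have : priv A U ∩ (univ \ T) = priv A U \ T := by
        ext x
        simp
      rw [this, card_sdiff, inter_comm T]
      rw [inter_comm] at hr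
      rw [hn, hr]
    rw [e1, e2, Real.exp_add, Real.exp_nat_mul, ← Nat.cast_sub hrn, Real.exp_nat_mul,
      ← Real.log_mul two_ne_zero hα0.ne', ← Real.log_mul two_ne_zero hα1.ne',
      Real.exp_log (by positivity), Real.exp_log (by positivity)]
    congr 2
    · ring
    · ring
  rw [hw]
  unfold gam
  rw [← Real.exp_add]
  apply Real.one_le_exp
  rw [← hnc]
  have hτ := ta_pos h0 h1
  have key : 0 ≤ (if (j : ℝ) ≤ x₀ * q then (1 - α) * (j.choose 2 : ℕ) else δ * n) + r - α * n := by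
    split_ifs with hx
    · -- small intersection
      have h2 : (T ∩ inside A).card ≤ r + j.choose 2 := by
        have e3 : T ∩ inside A ⊆ (T ∩ priv A U) ∪ inside (A ∩ U) := by
          intro x hx
          rw [mem_inter] at hx
          rw [mem_union, mem_inter, priv_eq, mem_sdiff]
          by_cases h : x ∈ inside (A ∩ U)
          · exact Or.inr h
          · exact Or.inl ⟨hx.1, hx.2, h⟩
        have e4 := (card_le_card e3).trans (card_union_le _ _)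
        rw [card_inside] at e4
        exact e4
      rw [hb1] at h2
      have h3 : α * (q.choose 2 : ℕ) ≤ (⌈α * (q.choose 2 : ℕ)⌉₊ : ℝ) := Nat.le_ceil _
      have h4 : (⌈α * (q.choose 2 : ℕ)⌉₊ : ℝ) ≤ r + (j.choose 2 : ℕ) := by exact_mod_cast h2
      rw [hnc]
      linarith
    · push Not at hx
      have h2 := hb2 (A ∩ U) inter_subset_left hx
      have e5 : priv A (A ∩ U) = priv A U := by
        rw [priv_eq A U, priv]
      rw [e5] at h2
      linarith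
  have hexp : -be α * n + ta α * (if (j : ℝ) ≤ x₀ * q then (1 - α) * (j.choose 2 : ℕ) else δ * n) +
      (r * aa α + (n - r) * (Real.log 2 + Real.log (1 - α))) =
      ta α * ((if (j : ℝ) ≤ x₀ * q then (1 - α) * (j.choose 2 : ℕ) else δ * n) + r - α * n) := by
    unfold be aa ta
    ring
  rw [hexp]
  exact mul_nonneg hτ.le key

/-- The `q`-sets containing `S`. -/
def fam (N q : ℕ) (S : Finset (Fin N)) : Finset (Finset (Fin N)) :=
  (powersetCard q univ).filter (fun A => S ⊆ A)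

lemma mem_fam {q : ℕ} {S A : Finset (Fin N)} : A ∈ fam N q S ↔ A.card = q ∧ S ⊆ A := by
  simp [fam, mem_powersetCard]

/-- The coefficient of a quadruple. -/
noncomputable def coef (α δ x₀ : ℝ) (q : ℕ) (S A₁ A₂ A₃ A₄ : Finset (Fin N)) : ℝ :=
  gam α δ x₀ q (A₁ ∩ S).card * gam α δ x₀ q (A₂ ∩ (S ∪ A₁)).card *
    gam α δ x₀ q (A₃ ∩ (S ∪ A₁ ∪ A₂)).card * gam α δ x₀ q (A₄ ∩ (S ∪ A₁ ∪ A₂ ∪ A₃)).card

lemma coef_nonneg (α δ x₀ : ℝ) (q : ℕ) (S A₁ A₂ A₃ A₄ : Finset (Fin N)) :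
    0 ≤ coef α δ x₀ q S A₁ A₂ A₃ A₄ := by
  unfold coef
  have := gam_pos α δ x₀ q
  exact mul_nonneg (mul_nonneg (mul_nonneg (this _).le (this _).le) (this _).le) (this _).le

/-- All private edges of a quadruple. -/
def privs (S A₁ A₂ A₃ A₄ : Finset (Fin N)) : Finset (Edge N) :=
  priv A₁ S ∪ priv A₂ (S ∪ A₁) ∪ priv A₃ (S ∪ A₁ ∪ A₂) ∪ priv A₄ (S ∪ A₁ ∪ A₂ ∪ A₃)

lemma wgt_union {E : Type} [Fintype E] [DecidableEq E] (ε : ℝ) (P Q R B : Finset E)
    (hd : Disjoint P Q) : wgt ε (P ∪ Q) R B = wgt ε P R B * wgt ε Q R B := by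
  unfold wgt
  rw [union_inter_distrib_right, union_inter_distrib_right,
    card_union_of_disjoint (disjoint_of_subset_left inter_subset_left
      (disjoint_of_subset_right inter_subset_left hd)),
    card_union_of_disjoint (disjoint_of_subset_left inter_subset_left
      (disjoint_of_subset_right inter_subset_left hd)), pow_add, pow_add]
  ring

lemma disj_priv (A A' U U' : Finset (Fin N)) (h : A ⊆ U') : Disjoint (priv A U) (priv A' U') := by
  rw [Finset.disjoint_left]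
  intro x hx hx'
  rw [priv, mem_sdiff] at hx hx'
  exact hx'.2 (inside_mono h hx.1)

lemma prod_Y_le {α δ x₀ : ℝ} (h0 : 1 / 2 < α) (h1 : α < 1) (q : ℕ)
    (S A₁ A₂ A₃ A₄ : Finset (Fin N)) (c₁ : A₁.card = q) (c₂ : A₂.card = q) (c₃ : A₃.card = q)
    (c₄ : A₄.card = q) (T : Finset (Edge N)) :
    Y α δ x₀ q A₁ T * Y α δ x₀ q A₂ T * Y α δ x₀ q A₃ T * Y α δ x₀ q A₄ T ≤
      coef α δ x₀ q S A₁ A₂ A₃ A₄ * wgt (2 * α - 1) (privs S A₁ A₂ A₃ A₄) T (univ \ T) := by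
  have y1 := Y_le (δ := δ) (x₀ := x₀) h0 h1 q A₁ S c₁ T
  have y2 := Y_le (δ := δ) (x₀ := x₀) h0 h1 q A₂ (S ∪ A₁) c₂ T
  have y3 := Y_le (δ := δ) (x₀ := x₀) h0 h1 q A₃ (S ∪ A₁ ∪ A₂) c₃ T
  have y4 := Y_le (δ := δ) (x₀ := x₀) h0 h1 q A₄ (S ∪ A₁ ∪ A₂ ∪ A₃) c₄ T
  have n1 := Y_nonneg α δ x₀ q A₁ T
  have n2 := Y_nonneg α δ x₀ q A₂ T
  have n3 := Y_nonneg α δ x₀ q A₃ T
  have n4 := Y_nonneg α δ x₀ q A₄ T
  have hA1 : A₁ ⊆ S ∪ A₁ := subset_union_right
  have hA12 : A₁ ⊆ S ∪ A₁ ∪ A₂ := hA1.trans subset_union_left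
  have hA13 : A₁ ⊆ S ∪ A₁ ∪ A₂ ∪ A₃ := hA12.trans subset_union_left
  have hA2 : A₂ ⊆ S ∪ A₁ ∪ A₂ := subset_union_right
  have hA23 : A₂ ⊆ S ∪ A₁ ∪ A₂ ∪ A₃ := hA2.trans subset_union_left
  have hA3 : A₃ ⊆ S ∪ A₁ ∪ A₂ ∪ A₃ := subset_union_right
  unfold privs coef
  rw [wgt_union _ _ _ _ _ (by
      rw [disjoint_union_left, disjoint_union_left]
      exact ⟨⟨disj_priv _ _ _ _ hA13, disj_priv _ _ _ _ hA23⟩, disj_priv _ _ _ _ hA3⟩),
    wgt_union _ _ _ _ _ (by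
      rw [disjoint_union_left]
      exact ⟨disj_priv _ _ _ _ hA12, disj_priv _ _ _ _ hA2⟩),
    wgt_union _ _ _ _ _ (disj_priv _ _ _ _ hA1)]
  set g1 := gam α δ x₀ q (A₁ ∩ S).card
  set g2 := gam α δ x₀ q (A₂ ∩ (S ∪ A₁)).card
  set g3 := gam α δ x₀ q (A₃ ∩ (S ∪ A₁ ∪ A₂)).card
  set g4 := gam α δ x₀ q (A₄ ∩ (S ∪ A₁ ∪ A₂ ∪ A₃)).card
  set w1 := wgt (2 * α - 1) (priv A₁ S) T (univ \ T)
  set w2 := wgt (2 * α - 1) (priv A₂ (S ∪ A₁)) T (univ \ T)
  set w3 := wgt (2 * α - 1) (priv A₃ (S ∪ A₁ ∪ A₂)) T (univ \ T)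
  set w4 := wgt (2 * α - 1) (priv A₄ (S ∪ A₁ ∪ A₂ ∪ A₃)) T (univ \ T)
  have m1 : 0 ≤ g1 * w1 := n1.trans y1
  have m2 : 0 ≤ g2 * w2 := n2.trans y2
  have m3 : 0 ≤ g3 * w3 := n3.trans y3
  calc Y α δ x₀ q A₁ T * Y α δ x₀ q A₂ T * Y α δ x₀ q A₃ T * Y α δ x₀ q A₄ T
      ≤ (g1 * w1) * (g2 * w2) * (g3 * w3) * (g4 * w4) :=
        mul_le_mul (mul_le_mul (mul_le_mul y1 y2 n2 m1) y3 n3 (mul_nonneg m1 m2)) y4 n4
          (mul_nonneg (mul_nonneg m1 m2) m3)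
    _ = g1 * g2 * g3 * g4 * (w1 * w2 * w3 * w4) := by ring

/-- The fourth moment potential. -/
noncomputable def Psi (α δ x₀ : ℝ) (q : ℕ) (S : Finset (Fin N)) (R B : Finset (Edge N)) : ℝ :=
  ∑ A₁ ∈ fam N q S, ∑ A₂ ∈ fam N q S, ∑ A₃ ∈ fam N q S, ∑ A₄ ∈ fam N q S,
    coef α δ x₀ q S A₁ A₂ A₃ A₄ * wgt (2 * α - 1) (privs S A₁ A₂ A₃ A₄) R B

lemma Psi_nonneg {α : ℝ} (δ x₀ : ℝ) (h0 : 1 / 2 < α) (h1 : α < 1) (q : ℕ) (S : Finset (Fin N))
    (R B : Finset (Edge N)) : 0 ≤ Psi α δ x₀ q S R B := by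
  unfold Psi
  refine sum_nonneg (fun _ _ => sum_nonneg (fun _ _ => sum_nonneg (fun _ _ => sum_nonneg
    (fun _ _ => mul_nonneg (coef_nonneg _ _ _ _ _ _ _ _ _)
      (wgt_nonneg (by linarith) (by linarith) _ _ _)))))

lemma Psi_harmonic (α δ x₀ : ℝ) (q : ℕ) (S : Finset (Fin N)) :
    Harmonic (Psi α δ x₀ q S) := by
  intro R B hd e he
  unfold Psi
  simp only [← sum_add_distrib, mul_sum]
  refine sum_congr rfl (fun A₁ _ => sum_congr rfl (fun A₂ _ => sum_congr rfl (fun A₃ _ =>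
    sum_congr rfl (fun A₄ _ => ?_))))
  have := wgt_harmonic (2 * α - 1) (privs S A₁ A₂ A₃ A₄) R B hd e he
  rw [← mul_add, this]
  ring

lemma Psi_cross_nonpos {α : ℝ} (δ x₀ : ℝ) (h0 : 1 / 2 < α) (h1 : α < 1) (q : ℕ)
    (S : Finset (Fin N)) (R B : Finset (Edge N)) (e f : Edge N) (he : e ∉ R ∪ B)
    (hf : f ∉ R ∪ B) : cross (Psi α δ x₀ q S) R B e f ≤ 0 := by
  unfold cross Psi
  simp only [← sum_add_distrib, ← sum_sub_distrib]
  refine sum_nonpos (fun A₁ _ => sum_nonpos (fun A₂ _ => sum_nonpos (fun A₃ _ =>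
    sum_nonpos (fun A₄ _ => ?_))))
  have h2 := wgt_cross_nonpos (ε := 2 * α - 1) (by linarith) (by linarith)
    (privs S A₁ A₂ A₃ A₄) R B e f he hf
  unfold cross at h2
  have h3 := coef_nonneg α δ x₀ q S A₁ A₂ A₃ A₄
  rw [← mul_sub, ← mul_sub, ← mul_add]
  exact mul_nonpos_of_nonneg_of_nonpos h3 h2

/-- The number of dense sets containing `S`. -/
noncomputable def X (α δ x₀ : ℝ) (q : ℕ) (S : Finset (Fin N)) (T : Finset (Edge N)) : ℝ :=
  ∑ A ∈ fam N q S, Y α δ x₀ q A T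

lemma X_nonneg (α δ x₀ : ℝ) (q : ℕ) (S : Finset (Fin N)) (T : Finset (Edge N)) :
    0 ≤ X α δ x₀ q S T := sum_nonneg (fun A _ => Y_nonneg α δ x₀ q A T)

/-- The fourth moment bound. -/
lemma avg_X_pow_le {α : ℝ} (δ x₀ : ℝ) (h0 : 1 / 2 < α) (h1 : α < 1) (q : ℕ)
    (S : Finset (Fin N)) (R B : Finset (Edge N)) (hd : Disjoint R B) :
    (avg (X α δ x₀ q S) R B) ^ 4 ≤ Psi α δ x₀ q S R B := by
  refine (avg_pow_le (X α δ x₀ q S) (X_nonneg α δ x₀ q S) R B 4).trans ?_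
  refine avg_le_of_final _ _ (Psi_harmonic α δ x₀ q S) ?_ _ R B rfl hd
  intro R' B' hd' hu'
  have hB' : B' = univ \ R' := by
    ext x
    rw [mem_sdiff]
    constructor
    · intro hx
      exact ⟨mem_univ _, fun h => (Finset.disjoint_left.1 hd') h hx⟩
    · rintro ⟨_, hx⟩
      have : x ∈ R' ∪ B' := by rw [hu']; exact mem_univ x
      exact (mem_union.1 this).resolve_left hx
  rw [hB']
  have hexp : X α δ x₀ q S R' ^ 4 = ∑ A₁ ∈ fam N q S, ∑ A₂ ∈ fam N q S, ∑ A₃ ∈ fam N q S,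
      ∑ A₄ ∈ fam N q S,
        Y α δ x₀ q A₁ R' * Y α δ x₀ q A₂ R' * Y α δ x₀ q A₃ R' * Y α δ x₀ q A₄ R' := by
    unfold X
    simp only [← mul_sum, ← sum_mul]
    ring
  rw [hexp]
  unfold Psi
  refine sum_le_sum (fun A₁ m1 => sum_le_sum (fun A₂ m2 => sum_le_sum (fun A₃ m3 =>
    sum_le_sum (fun A₄ m4 => ?_))))
  exact prod_Y_le h0 h1 q S A₁ A₂ A₃ A₄ (mem_fam.1 m1).1 (mem_fam.1 m2).1 (mem_fam.1 m3).1
    (mem_fam.1 m4).1 R'

/-- The counting bound. -/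
noncomputable def Zf (α δ x₀ : ℝ) (N q s : ℕ) : ℝ :=
  ∑ j ∈ Icc s q, ((4 * q).choose (j - s) : ℝ) * (N.choose (q - j) : ℝ) * gam α δ x₀ q j

lemma Zf_nonneg (α δ x₀ : ℝ) (N q s : ℕ) : 0 ≤ Zf α δ x₀ N q s :=
  sum_nonneg (fun j _ => mul_nonneg (by positivity) (gam_pos _ _ _ _ _).le)

lemma count_fam (q j : ℕ) (S U : Finset (Fin N)) (hSU : S ⊆ U) :
    ((fam N q S).filter (fun A => (A ∩ U).card = j)).card ≤
      U.card.choose (j - S.card) * N.choose (q - j) := by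
  classical
  have h1 : (powersetCard (j - S.card) U ×ˢ powersetCard (q - j) (univ : Finset (Fin N))).card =
      U.card.choose (j - S.card) * N.choose (q - j) := by
    rw [card_product, card_powersetCard, card_powersetCard, card_univ, Fintype.card_fin]
  rw [← h1]
  apply card_le_card_of_injOn (fun A => ((A ∩ U) \ S, A \ U))
  · intro A hA
    rw [mem_coe, mem_filter, mem_fam] at hA
    obtain ⟨⟨hc, hS⟩, hj⟩ := hA
    rw [mem_coe, mem_product, mem_powersetCard, mem_powersetCard]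
    refine ⟨⟨sdiff_subset.trans inter_subset_right, ?_⟩, subset_univ _, ?_⟩
    · rw [card_sdiff_of_subset (subset_inter hS hSU), hj]
    · have := card_sdiff_add_card_inter A U
      simp only
      omega
  · intro A hA A' hA' heq
    rw [mem_coe, mem_filter, mem_fam] at hA hA'
    simp only [Prod.mk.injEq] at heq
    obtain ⟨e1, e2⟩ := heq
    have key : ∀ A : Finset (Fin N), S ⊆ A → A = ((A ∩ U) \ S) ∪ S ∪ (A \ U) := by
      intro A hS
      rw [sdiff_union_of_subset (subset_inter hS hSU), union_comm]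
      exact (sdiff_union_inter A U).symm
    rw [key A hA.1.2, key A' hA'.1.2, e1, e2]

lemma sum_gam_le (α δ x₀ : ℝ) (q : ℕ) (S U : Finset (Fin N)) (hSU : S ⊆ U)
    (hU : U.card ≤ 4 * q) :
    ∑ A ∈ fam N q S, gam α δ x₀ q (A ∩ U).card ≤ Zf α δ x₀ N q S.card := by
  classical
  have hmaps : ∀ A ∈ fam N q S, (A ∩ U).card ∈ Icc S.card q := by
    intro A hA
    rw [mem_fam] at hA
    rw [mem_Icc]
    refine ⟨card_le_card (subset_inter hA.2 hSU), ?_⟩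
    rw [← hA.1]
    exact card_le_card inter_subset_left
  rw [← sum_fiberwise_of_maps_to hmaps]
  unfold Zf
  apply sum_le_sum
  intro j _
  have h1 : ∑ A ∈ (fam N q S).filter (fun A => (A ∩ U).card = j),
      gam α δ x₀ q (A ∩ U).card =
      (((fam N q S).filter (fun A => (A ∩ U).card = j)).card : ℝ) * gam α δ x₀ q j := by
    rw [← nsmul_eq_mul, ← sum_const]
    apply sum_congr rfl
    intro A hA
    rw [(mem_filter.1 hA).2]
  rw [h1]
  apply mul_le_mul_of_nonneg_right _ (gam_pos _ _ _ _ _).le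
  have h2 := count_fam q j S U hSU
  have h3 : U.card.choose (j - S.card) ≤ (4 * q).choose (j - S.card) := Nat.choose_le_choose _ hU
  have h4 := h2.trans (Nat.mul_le_mul_right _ h3)
  exact_mod_cast h4

lemma Psi_start_le {α δ x₀ : ℝ} (q : ℕ) (S : Finset (Fin N)) (hS : S.card ≤ q) :
    Psi α δ x₀ q S ∅ ∅ ≤ Zf α δ x₀ N q S.card ^ 4 := by
  classical
  have hw : ∀ P : Finset (Edge N), wgt (2 * α - 1) P ∅ ∅ = 1 := by
    intro P
    unfold wgt
    simp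
  unfold Psi coef
  simp only [hw, mul_one]
  have hZ := Zf_nonneg α δ x₀ N q S.card
  have hg := fun j => (gam_pos α δ x₀ q j).le
  have b4 : ∀ A₁ ∈ fam N q S, ∀ A₂ ∈ fam N q S, ∀ A₃ ∈ fam N q S,
      ∑ A₄ ∈ fam N q S, gam α δ x₀ q (A₄ ∩ (S ∪ A₁ ∪ A₂ ∪ A₃)).card ≤
        Zf α δ x₀ N q S.card := by
    intro A₁ m1 A₂ m2 A₃ m3
    apply sum_gam_le
    · exact (subset_union_left.trans subset_union_left).trans subset_union_left
    · have e1 := card_union_le (S ∪ A₁ ∪ A₂) A₃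
      have e2 := card_union_le (S ∪ A₁) A₂
      have e3 := card_union_le S A₁
      have c1 := (mem_fam.1 m1).1
      have c2 := (mem_fam.1 m2).1
      have c3 := (mem_fam.1 m3).1
      omega
  have b3 : ∀ A₁ ∈ fam N q S, ∀ A₂ ∈ fam N q S,
      ∑ A₃ ∈ fam N q S, gam α δ x₀ q (A₃ ∩ (S ∪ A₁ ∪ A₂)).card ≤ Zf α δ x₀ N q S.card := by
    intro A₁ m1 A₂ m2
    apply sum_gam_le
    · exact subset_union_left.trans subset_union_left
    · have e2 := card_union_le (S ∪ A₁) A₂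
      have e3 := card_union_le S A₁
      have c1 := (mem_fam.1 m1).1
      have c2 := (mem_fam.1 m2).1
      omega
  have b2 : ∀ A₁ ∈ fam N q S,
      ∑ A₂ ∈ fam N q S, gam α δ x₀ q (A₂ ∩ (S ∪ A₁)).card ≤ Zf α δ x₀ N q S.card := by
    intro A₁ m1
    apply sum_gam_le
    · exact subset_union_left
    · have e3 := card_union_le S A₁
      have c1 := (mem_fam.1 m1).1
      omega
  have b1 : ∑ A₁ ∈ fam N q S, gam α δ x₀ q (A₁ ∩ S).card ≤ Zf α δ x₀ N q S.card := by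
    apply sum_gam_le
    · exact subset_rfl
    · omega
  calc ∑ A₁ ∈ fam N q S, ∑ A₂ ∈ fam N q S, ∑ A₃ ∈ fam N q S, ∑ A₄ ∈ fam N q S,
        gam α δ x₀ q (A₁ ∩ S).card * gam α δ x₀ q (A₂ ∩ (S ∪ A₁)).card *
        gam α δ x₀ q (A₃ ∩ (S ∪ A₁ ∪ A₂)).card *
        gam α δ x₀ q (A₄ ∩ (S ∪ A₁ ∪ A₂ ∪ A₃)).card
      ≤ ∑ A₁ ∈ fam N q S, ∑ A₂ ∈ fam N q S, ∑ A₃ ∈ fam N q S,
        gam α δ x₀ q (A₁ ∩ S).card * gam α δ x₀ q (A₂ ∩ (S ∪ A₁)).card *
        gam α δ x₀ q (A₃ ∩ (S ∪ A₁ ∪ A₂)).card * Zf α δ x₀ N q S.card := by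
        refine sum_le_sum (fun A₁ m1 => sum_le_sum (fun A₂ m2 => sum_le_sum (fun A₃ m3 => ?_)))
        rw [← mul_sum]
        exact mul_le_mul_of_nonneg_left (b4 A₁ m1 A₂ m2 A₃ m3)
          (mul_nonneg (mul_nonneg (hg _) (hg _)) (hg _))
    _ ≤ ∑ A₁ ∈ fam N q S, ∑ A₂ ∈ fam N q S,
        gam α δ x₀ q (A₁ ∩ S).card * gam α δ x₀ q (A₂ ∩ (S ∪ A₁)).card *
        Zf α δ x₀ N q S.card * Zf α δ x₀ N q S.card := by
        refine sum_le_sum (fun A₁ m1 => sum_le_sum (fun A₂ m2 => ?_))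
        rw [← sum_mul, ← mul_sum]
        exact mul_le_mul_of_nonneg_right (mul_le_mul_of_nonneg_left (b3 A₁ m1 A₂ m2)
          (mul_nonneg (hg _) (hg _))) hZ
    _ ≤ ∑ A₁ ∈ fam N q S, gam α δ x₀ q (A₁ ∩ S).card * Zf α δ x₀ N q S.card *
        Zf α δ x₀ N q S.card * Zf α δ x₀ N q S.card := by
        refine sum_le_sum (fun A₁ m1 => ?_)
        rw [← sum_mul, ← sum_mul, ← mul_sum]
        exact mul_le_mul_of_nonneg_right (mul_le_mul_of_nonneg_right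
          (mul_le_mul_of_nonneg_left (b2 A₁ m1) (hg _)) hZ) hZ
    _ ≤ Zf α δ x₀ N q S.card * Zf α δ x₀ N q S.card * Zf α δ x₀ N q S.card *
        Zf α δ x₀ N q S.card := by
        rw [← sum_mul, ← sum_mul, ← sum_mul]
        exact mul_le_mul_of_nonneg_right (mul_le_mul_of_nonneg_right
          (mul_le_mul_of_nonneg_right b1 hZ) hZ) hZ
    _ = Zf α δ x₀ N q S.card ^ 4 := by ring

end Pool.Agent.H69.Clique
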