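import Mathlib
import Pool.Agent.H69.CliqueTuple

/-!
# Estimates for the counting bound
-/

set_option autoImplicit false
set_option linter.unusedSectionVars false

namespace Pool.Agent.H69.Clique

open Finset

/-- The threshold `x₀ = β / (4 log (2 α))`. -/
noncomputable def xx (α : ℝ) : ℝ := be α / (4 * aa α)

/-- The slack `δ`. -/
noncomputable def dd (α : ℝ) : ℝ := min 1 (xx α / 4 * be α / ta α)

lemma xx_pos {α : ℝ} (h0 : 1 / 2 < α) (h1 : α < 1) : 0 < xx α := by
  unfold xx
  have := be_pos h0 h1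
  have := aa_pos h0
  positivity

lemma xx_le {α : ℝ} (h0 : 1 / 2 < α) (h1 : α < 1) : xx α ≤ 1 / 4 := by
  unfold xx
  have h2 := be_le_aa h0 h1
  have h3 := aa_pos h0
  rw [div_le_iff₀ (by positivity)]
  linarith

lemma dd_pos {α : ℝ} (h0 : 1 / 2 < α) (h1 : α < 1) : 0 < dd α := by
  unfold dd
  have := be_pos h0 h1
  have := ta_pos h0 h1
  have := xx_pos h0 h1
  apply lt_min one_pos
  positivity

lemma dd_le_one (α : ℝ) : dd α ≤ 1 := min_le_left _ _

lemma ta_mul_dd {α : ℝ} (h0 : 1 / 2 < α) (h1 : α < 1) : ta α * dd α ≤ xx α / 4 * be α := by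
  have h2 := ta_pos h0 h1
  have h3 : dd α ≤ xx α / 4 * be α / ta α := min_le_right _ _
  rw [le_div_iff₀ h2] at h3
  linarith

lemma choose_ratio (N q : ℕ) (hN : 2 * q ≤ N) (hq : 1 ≤ q) :
    ∀ j, j ≤ q → (N.choose (q - j) : ℝ) ≤ N.choose q * (2 * q / N) ^ j := by
  have hNpos : (0 : ℝ) < N := by
    have : 0 < N := by omega
    exact_mod_cast this
  intro j
  induction j with
  | zero => intro _; simp
  | succ j ih =>
    intro hj
    have h1 := ih (by omega)
    obtain ⟨k, hk⟩ : ∃ k, q - j = k + 1 := ⟨q - j - 1, by omega⟩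
    have hk2 : q - (j + 1) = k := by omega
    rw [hk2]
    rw [hk] at h1
    have h2 := Nat.choose_succ_right_eq N k
    have h3 : (N.choose (k + 1) : ℝ) * (k + 1) = N.choose k * (N - k) := by
      have h4 : ((N - k : ℕ) : ℝ) = (N : ℝ) - k := Nat.cast_sub (by omega)
      rw [← h4]
      exact_mod_cast h2
    have hkq : (k : ℝ) + 1 ≤ q := by
      have : k + 1 ≤ q := by omega
      exact_mod_cast this
    have hNq : 2 * (q : ℝ) ≤ N := by exact_mod_cast hN
    have h5 : (N : ℝ) / 2 ≤ N - k := by linarith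
    have hc : (0 : ℝ) ≤ N.choose k := by positivity
    have hc1 : (0 : ℝ) ≤ N.choose (k + 1) := by positivity
    have h6 : (N.choose k : ℝ) * (N / 2) ≤ N.choose (k + 1) * q := by
      calc (N.choose k : ℝ) * (N / 2) ≤ N.choose k * (N - k) := mul_le_mul_of_nonneg_left h5 hc
        _ = N.choose (k + 1) * (k + 1) := h3.symm
        _ ≤ _ := mul_le_mul_of_nonneg_left hkq hc1
    have h7 : (N.choose k : ℝ) ≤ N.choose (k + 1) * (2 * q / N) := by
      have : (N.choose k : ℝ) = N.choose k * (N / 2) * (2 / N) := by field_simp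
      rw [this]
      calc (N.choose k : ℝ) * (N / 2) * (2 / N) ≤ N.choose (k + 1) * q * (2 / N) :=
            mul_le_mul_of_nonneg_right h6 (by positivity)
        _ = _ := by ring
    calc (N.choose k : ℝ) ≤ N.choose (k + 1) * (2 * q / N) := h7
      _ ≤ N.choose q * (2 * q / N) ^ j * (2 * q / N) :=
          mul_le_mul_of_nonneg_right h1 (by positivity)
      _ = _ := by rw [pow_succ]; ring

/-- The main term. -/
noncomputable def Mn (α : ℝ) (N q : ℕ) : ℝ := N.choose q * Real.exp (-(be α * (q.choose 2 : ℕ)))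

lemma Mn_nonneg (α : ℝ) (N q : ℕ) : 0 ≤ Mn α N q := by unfold Mn; positivity

lemma gam_small {α : ℝ} (q j : ℕ) (hj : (j : ℝ) ≤ xx α * q) :
    gam α (dd α) (xx α) q j =
      Real.exp (-(be α * (q.choose 2 : ℕ))) * Real.exp (aa α * (j.choose 2 : ℕ)) := by
  unfold gam
  rw [if_pos hj, ← Real.exp_add]
  congr 1
  rw [← be_add (α := α)]
  ring

lemma gam_large {α : ℝ} (h0 : 1 / 2 < α) (h1 : α < 1) (q j : ℕ) (hjq : j ≤ q)
    (hj : ¬ (j : ℝ) ≤ xx α * q) :
    gam α (dd α) (xx α) q j ≤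
      Real.exp (-(be α * (1 - xx α / 4) * ((q.choose 2 : ℕ) - (j.choose 2 : ℕ)))) := by
  unfold gam
  rw [if_neg hj]
  apply Real.exp_le_exp.2
  have h2 := ta_mul_dd h0 h1
  have h3 : (0 : ℝ) ≤ (q.choose 2 : ℕ) - (j.choose 2 : ℕ) := by
    have : j.choose 2 ≤ q.choose 2 := Nat.choose_le_choose 2 hjq
    have h4 : ((j.choose 2 : ℕ) : ℝ) ≤ (q.choose 2 : ℕ) := by exact_mod_cast this
    linarith
  nlinarith

lemma exp_aa {α : ℝ} (h0 : 1 / 2 < α) : Real.exp (aa α) = 2 * α := by
  unfold aa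
  rw [← Real.log_mul two_ne_zero (by linarith), Real.exp_log (by linarith)]

/-- Terms with a large intersection. -/
lemma term_large {α : ℝ} (h0 : 1 / 2 < α) (h1 : α < 1) (N q j s : ℕ) (hN : 1 ≤ N)
    (hjq : j ≤ q) (hj : ¬ (j : ℝ) ≤ xx α * q)
    (hC : Real.log N ≤ be α * (1 - xx α / 4) * ((1 + xx α) * q - 1) / 2) :
    ((4 * q).choose (j - s) : ℝ) * (N.choose (q - j) : ℝ) * gam α (dd α) (xx α) q j ≤
      ((4 * q).choose (j - s) : ℝ) := by
  have hg := gam_large h0 h1 q j hjq hj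
  have hNpos : (0 : ℝ) < N := by exact_mod_cast hN
  have h2 : (N.choose (q - j) : ℝ) ≤ Real.exp ((q - j : ℕ) * Real.log N) := by
    rw [Real.exp_nat_mul, Real.exp_log hNpos]
    exact_mod_cast Nat.choose_le_pow N (q - j)
  have h3 : (N.choose (q - j) : ℝ) * gam α (dd α) (xx α) q j ≤ 1 := by
    calc (N.choose (q - j) : ℝ) * gam α (dd α) (xx α) q j ≤
        Real.exp ((q - j : ℕ) * Real.log N) *
        Real.exp (-(be α * (1 - xx α / 4) * ((q.choose 2 : ℕ) - (j.choose 2 : ℕ)))) :=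
          mul_le_mul h2 hg (gam_pos _ _ _ _ _).le (Real.exp_pos _).le
      _ ≤ 1 := by
          rw [← Real.exp_add]
          apply Real.exp_le_one_iff.2
          rw [Nat.cast_choose_two, Nat.cast_choose_two, Nat.cast_sub hjq]
          push Not at hj
          have e1 : (0 : ℝ) ≤ q - j := by
            have : (j : ℝ) ≤ q := by exact_mod_cast hjq
            linarith
          have e2 : 0 < be α * (1 - xx α / 4) := by
            have := be_pos h0 h1
            have := xx_le h0 h1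
            have : 0 < 1 - xx α / 4 := by linarith
            positivity
          have e3 : be α * (1 - xx α / 4) * ((1 + xx α) * q - 1) / 2 ≤
              be α * (1 - xx α / 4) * ((q + j - 1) / 2) := by
            rw [mul_div_assoc]
            apply mul_le_mul_of_nonneg_left _ e2.le
            linarith
          have e4 : ((q : ℝ) - j) * Real.log N ≤
              (q - j) * (be α * (1 - xx α / 4) * ((q + j - 1) / 2)) :=
            mul_le_mul_of_nonneg_left (hC.trans e3) e1
          nlinarith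
  calc ((4 * q).choose (j - s) : ℝ) * (N.choose (q - j) : ℝ) * gam α (dd α) (xx α) q j
      = ((4 * q).choose (j - s) : ℝ) * ((N.choose (q - j) : ℝ) * gam α (dd α) (xx α) q j) := by ring
    _ ≤ ((4 * q).choose (j - s) : ℝ) * 1 := mul_le_mul_of_nonneg_left h3 (by positivity)
    _ = _ := mul_one _

/-- Terms with a small intersection. -/
lemma term_small {α : ℝ} (h0 : 1 / 2 < α) (h1 : α < 1) (N q j s : ℕ) (hN : 2 * q ≤ N)
    (hq : 1 ≤ q) (hjq : j ≤ q) (hsj : s ≤ j) (hs : s = 0 ∨ s = 3) (hj : (j : ℝ) ≤ xx α * q)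
    (hB : 32 * (q : ℝ) ^ 2 * Real.exp (be α * q / 8) ≤ N) :
    ((4 * q).choose (j - s) : ℝ) * (N.choose (q - j) : ℝ) * gam α (dd α) (xx α) q j ≤
      8 * Mn α N q * (2 * q / N) ^ s * (1 / 2) ^ (j - s) := by
  have hNpos : (0 : ℝ) < N := by
    have : 0 < N := by omega
    exact_mod_cast this
  rw [gam_small q j hj]
  have c1 : ((4 * q).choose (j - s) : ℝ) ≤ (4 * q : ℝ) ^ (j - s) := by
    exact_mod_cast Nat.choose_le_pow (4 * q) (j - s)
  have c2 := choose_ratio N q hN hq j hjq
  have hα2 : Real.exp (aa α) ≤ 2 := by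
    rw [exp_aa h0]
    linarith
  have haa := aa_pos h0
  have hqr : (0 : ℝ) < q := by exact_mod_cast hq
  have hax : aa α * (xx α * q) / 2 = be α * q / 8 := by
    unfold xx
    field_simp
    ring
  -- the exponential factor
  have c3 : Real.exp (aa α * (j.choose 2 : ℕ)) ≤
      8 * (2 * Real.exp (be α * q / 8)) ^ (j - s) := by
    have key : aa α * (j.choose 2 : ℕ) ≤ aa α * 3 + (j - s : ℕ) * (aa α + be α * q / 8) := by
      rw [Nat.cast_choose_two, ← hax, Nat.cast_sub hsj]
      rcases hs with rfl | rfl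
      · have hj0 : (0 : ℝ) ≤ j := by positivity
        have : aa α * (j * (j - 1) / 2) ≤ j * (aa α * (xx α * q) / 2) := by
          have e1 : (j : ℝ) * (j - 1) ≤ j * (xx α * q) := by nlinarith
          nlinarith
        push_cast
        nlinarith
      · have hj3 : (3 : ℝ) ≤ j := by exact_mod_cast hsj
        push_cast
        have e1 : (j : ℝ) * (j - 1) / 2 = 3 + (j - 3) * (j + 2) / 2 := by ring
        rw [e1]
        have e2 : ((j : ℝ) - 3) * (j + 2) / 2 ≤ (j - 3) * (1 + xx α * q / 2) := by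
          have : (0 : ℝ) ≤ j - 3 := by linarith
          nlinarith
        nlinarith
    refine (Real.exp_le_exp.2 key).trans ?_
    rw [Real.exp_add, Real.exp_nat_mul, Real.exp_add]
    have e3 : Real.exp (aa α * 3) ≤ 8 := by
      rw [mul_comm, show (3 : ℝ) = ((3 : ℕ) : ℝ) by norm_num, Real.exp_nat_mul]
      calc Real.exp (aa α) ^ 3 ≤ 2 ^ 3 := pow_le_pow_left₀ (Real.exp_pos _).le hα2 3
        _ = 8 := by norm_num
    apply mul_le_mul e3 _ (by positivity) (by norm_num)
    apply pow_le_pow_left₀ (by positivity)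
    exact mul_le_mul_of_nonneg_right hα2 (Real.exp_pos _).le
  have hbr : 4 * (q : ℝ) * (2 * q / N) * (2 * Real.exp (be α * q / 8)) ≤ 1 / 2 := by
    have : 4 * (q : ℝ) * (2 * q / N) * (2 * Real.exp (be α * q / 8)) =
        (16 * (q : ℝ) ^ 2 * Real.exp (be α * q / 8)) / N := by
      field_simp
      norm_num
    rw [this, div_le_iff₀ hNpos]
    linarith
  have hbr0 : 0 ≤ 4 * (q : ℝ) * (2 * q / N) * (2 * Real.exp (be α * q / 8)) := by positivity
  have hM : 0 ≤ Real.exp (-(be α * (q.choose 2 : ℕ))) := (Real.exp_pos _).le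
  calc ((4 * q).choose (j - s) : ℝ) * (N.choose (q - j) : ℝ) *
        (Real.exp (-(be α * (q.choose 2 : ℕ))) * Real.exp (aa α * (j.choose 2 : ℕ)))
      ≤ (4 * q : ℝ) ^ (j - s) * (N.choose q * (2 * q / N) ^ j) *
        (Real.exp (-(be α * (q.choose 2 : ℕ))) * (8 * (2 * Real.exp (be α * q / 8)) ^ (j - s))) := by
        apply mul_le_mul (mul_le_mul c1 c2 (by positivity) (by positivity))
          (mul_le_mul_of_nonneg_left c3 hM) (by positivity) (by positivity)
    _ = 8 * Mn α N q * (2 * q / N) ^ s *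
        (4 * (q : ℝ) * (2 * q / N) * (2 * Real.exp (be α * q / 8))) ^ (j - s) := by
        unfold Mn
        have e5 : ((2 : ℝ) * q / N) ^ j = (2 * q / N) ^ s * (2 * q / N) ^ (j - s) := by
          rw [← pow_add]
          congr 1
          omega
        rw [e5, mul_pow (4 * (q : ℝ) * (2 * q / N)), mul_pow (4 * (q : ℝ)) (2 * q / N)]
        ring
    _ ≤ 8 * Mn α N q * (2 * q / N) ^ s * (1 / 2) ^ (j - s) := by
        apply mul_le_mul_of_nonneg_left (pow_le_pow_left₀ hbr0 hbr _)
        have := Mn_nonneg α N q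
        positivity

lemma sum_geom_le (s q : ℕ) : ∑ j ∈ Icc s q, (1 / 2 : ℝ) ^ (j - s) ≤ 2 := by
  have h1 : ∑ j ∈ Icc s q, (1 / 2 : ℝ) ^ (j - s) ≤ ∑ i ∈ range (q + 1), (1 / 2 : ℝ) ^ i := by
    rw [← sum_image (s := Icc s q) (g := fun j => j - s) (f := fun i => (1 / 2 : ℝ) ^ i)]
    · apply sum_le_sum_of_subset_of_nonneg
      · intro i hi
        rw [mem_image] at hi
        obtain ⟨j, hj, rfl⟩ := hi
        rw [mem_Icc] at hj
        rw [mem_range]
        omega
      · intro i _ _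
        positivity
    · intro a ha b hb hab
      rw [mem_coe, mem_Icc] at ha hb
      simp only at hab
      omega
  refine h1.trans ?_
  rw [geom_sum_eq (by norm_num)]
  have : (0 : ℝ) < (1 / 2) ^ (q + 1) := by positivity
  rw [div_le_iff_of_neg (by norm_num)]
  linarith

lemma sum_choose_le (s q : ℕ) : ∑ j ∈ Icc s q, ((4 * q).choose (j - s) : ℝ) ≤ 16 ^ q := by
  have h0 : ∑ j ∈ Icc s q, (4 * q).choose (j - s) ≤ ∑ i ∈ range (4 * q + 1), (4 * q).choose i := by
    rw [← sum_image (s := Icc s q) (g := fun j => j - s) (f := fun i => (4 * q).choose i)]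
    · apply sum_le_sum_of_subset
      intro i hi
      rw [mem_image] at hi
      obtain ⟨j, hj, rfl⟩ := hi
      rw [mem_Icc] at hj
      rw [mem_range]
      omega
    · intro a ha b hb hab
      rw [mem_coe, mem_Icc] at ha hb
      simp only at hab
      omega
  rw [Nat.sum_range_choose] at h0
  have h1 : (2 : ℕ) ^ (4 * q) = 16 ^ q := by rw [pow_mul]; norm_num
  rw [h1] at h0
  exact_mod_cast h0

/-- The counting bound. -/
lemma Zf_le {α : ℝ} (h0 : 1 / 2 < α) (h1 : α < 1) (N q s : ℕ) (hN : 2 * q ≤ N)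
    (hq : 1 ≤ q) (hs : s = 0 ∨ s = 3)
    (hB : 32 * (q : ℝ) ^ 2 * Real.exp (be α * q / 8) ≤ N)
    (hC : Real.log N ≤ be α * (1 - xx α / 4) * ((1 + xx α) * q - 1) / 2) :
    Zf α (dd α) (xx α) N q s ≤ 16 * Mn α N q * (2 * q / N) ^ s + 16 ^ q := by
  have hM := Mn_nonneg α N q
  have hterm : ∀ j ∈ Icc s q,
      ((4 * q).choose (j - s) : ℝ) * (N.choose (q - j) : ℝ) * gam α (dd α) (xx α) q j ≤
      8 * Mn α N q * (2 * q / N) ^ s * (1 / 2) ^ (j - s) + ((4 * q).choose (j - s) : ℝ) := by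
    intro j hj
    rw [mem_Icc] at hj
    by_cases hjx : (j : ℝ) ≤ xx α * q
    · have := term_small h0 h1 N q j s hN hq hj.2 hj.1 hs hjx hB
      have h2 : (0 : ℝ) ≤ ((4 * q).choose (j - s) : ℝ) := by positivity
      linarith
    · have := term_large h0 h1 N q j s (by omega) hj.2 hjx hC
      have h2 : (0 : ℝ) ≤ 8 * Mn α N q * (2 * q / N) ^ s * (1 / 2) ^ (j - s) := by positivity
      linarith
  unfold Zf
  refine (sum_le_sum hterm).trans ?_
  rw [sum_add_distrib, ← mul_sum]
  apply add_le_add _ (sum_choose_le s q)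
  calc 8 * Mn α N q * (2 * q / N) ^ s * ∑ j ∈ Icc s q, (1 / 2 : ℝ) ^ (j - s)
      ≤ 8 * Mn α N q * (2 * q / N) ^ s * 2 :=
        mul_le_mul_of_nonneg_left (sum_geom_le s q) (by positivity)
    _ = _ := by ring

end Pool.Agent.H69.Clique
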