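import Mathlib
import Pool.Agent.H69.CliqueAvg

/-!
# The two potential strategies
-/

set_option autoImplicit false
set_option linter.unusedSectionVars false

namespace Pool.Agent.H69.Clique

open Finset

variable {E : Type} [Fintype E] [DecidableEq E]

lemma play_succ (σ τ : Strategy E) (n : ℕ) : play σ τ (n + 1) = round σ τ (play σ τ n) := by
  unfold play
  rw [Function.iterate_succ_apply']

/-- A position of the play after `n` rounds is full or has at least `n` claimed elements. -/
lemma card_play (σ τ : Strategy E) (hσ : Legal σ) (n : ℕ) :
    (play σ τ n).1 ∪ (play σ τ n).2 = univ ∨ n ≤ ((play σ τ n).1 ∪ (play σ τ n).2).card := by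
  induction n with
  | zero => right; exact Nat.zero_le _
  | succ n ih =>
    rw [play_succ]
    set p := play σ τ n with hp
    by_cases hu : p.1 ∪ p.2 = univ
    · left
      unfold round
      rw [if_pos hu]
      exact hu
    · have h1 := ih.resolve_left hu
      have he := hσ p.1 p.2 hu
      unfold round
      rw [if_neg hu]
      split_ifs with h2
      · left
        exact h2
      · right
        simp only
        have h3 : insert (σ p.1 p.2) (p.1 ∪ p.2) ⊆ insert (σ p.1 p.2) p.1 ∪
            insert (τ (insert (σ p.1 p.2) p.1) p.2) p.2 := by
          intro x hx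
          simp only [mem_insert, mem_union] at hx ⊢
          tauto
        have h4 := card_le_card h3
        rw [card_insert_of_notMem he] at h4
        omega

lemma play_full (σ τ : Strategy E) (hσ : Legal σ) :
    (play σ τ (Fintype.card E)).1 ∪ (play σ τ (Fintype.card E)).2 = univ := by
  rcases card_play σ τ hσ (Fintype.card E) with h | h
  · exact h
  · exact eq_univ_of_card _ (le_antisymm (card_le_univ _) h)

/-- Maker's potential strategy. -/
theorem maker_wins [Nonempty E] (L : Finset E → Finset E → ℝ) (hL : Harmonic L)
    (W : Finset E → Prop) (hW : ∀ R B, Disjoint R B → R ∪ B = univ → 0 < L R B → W R)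
    (hmono : ∀ R R' : Finset E, R ⊆ R' → W R → W R') (ℓ : ℝ) (hℓ : 0 ≤ ℓ)
    (hcross : ∀ R B e f, Disjoint R B → e ∉ R ∪ B → f ∉ R ∪ B → e ≠ f → 1 / 2 ≤ L R B →
      -ℓ ≤ cross L R B e f)
    (h0 : 1 / 2 + (Fintype.card E : ℝ) * ℓ ≤ L ∅ ∅) : MakerGuarantees W := by
  classical
  have hchoice : ∀ R B : Finset E, ∃ e : E, (R ∪ B ≠ univ → (e ∉ R ∪ B ∧
      ∀ f, f ∉ R ∪ B → L (insert f R) B ≤ L (insert e R) B)) := by
    intro R B
    by_cases hne : (free R B).Nonempty
    · obtain ⟨e, he, hmax⟩ := exists_max_image (free R B) (fun e => L (insert e R) B) hne
      exact ⟨e, fun _ => ⟨mem_free.1 he, fun f hf => hmax f (mem_free.2 hf)⟩⟩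
    · rw [not_nonempty_iff_eq_empty, free_eq_empty] at hne
      exact ⟨Classical.arbitrary E, fun h => absurd hne h⟩
  choose σ hσ using hchoice
  have hleg : Legal σ := fun R B h => (hσ R B h).1
  refine ⟨σ, hleg, ?_⟩
  intro τ hτ
  have inv : ∀ n : ℕ, Disjoint (play σ τ n).1 (play σ τ n).2 ∧
      ((play σ τ n).1 ∪ (play σ τ n).2 = univ → W (play σ τ n).1) ∧
      ((play σ τ n).1 ∪ (play σ τ n).2 ≠ univ →
        L ∅ ∅ - n * ℓ ≤ L (play σ τ n).1 (play σ τ n).2) := by
    intro n
    induction n with
    | zero =>
      have hp0 : play σ τ 0 = (∅, ∅) := rfl
      rw [hp0]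
      refine ⟨disjoint_empty_left _, ?_, ?_⟩
      · intro hu
        apply hW ∅ ∅ (disjoint_empty_left _) hu
        have : 0 ≤ (Fintype.card E : ℝ) * ℓ := by positivity
        linarith
      · intro _
        simp
    | succ n ih =>
      have hcard := card_play σ τ hleg n
      rw [play_succ]
      set p := play σ τ n with hp
      obtain ⟨hd, hWp, hLp⟩ := ih
      by_cases hu : p.1 ∪ p.2 = univ
      · have : round σ τ p = p := by
          unfold round
          rw [if_pos hu]
        rw [this]
        exact ⟨hd, hWp, fun h => absurd hu h⟩
      · have hLp' := hLp hu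
        obtain ⟨he, hmax⟩ := hσ p.1 p.2 hu
        set e := σ p.1 p.2 with hedef
        have hc1 := hcard.resolve_left hu
        have hc2 : (p.1 ∪ p.2).card < Fintype.card E := by
          refine lt_of_le_of_ne (card_le_univ _) ?_
          intro h
          exact hu (eq_univ_of_card _ h)
        have hn : (n : ℝ) + 1 ≤ Fintype.card E := by
          have : n + 1 ≤ Fintype.card E := by omega
          exact_mod_cast this
        have hLhalf : 1 / 2 + ℓ ≤ L p.1 p.2 := by nlinarith
        have hharm := hL p.1 p.2 hd e he
        unfold round
        rw [if_neg hu]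
        split_ifs with h2
        · refine ⟨disjoint_insert_left' hd he, ?_, fun h => absurd h2 h⟩
          intro _
          simp only
          by_cases hpos : 0 < L (insert e p.1) p.2
          · exact hW _ _ (disjoint_insert_left' hd he) h2 hpos
          · push Not at hpos
            have hpos2 : 0 < L p.1 (insert e p.2) := by linarith
            have hu2 : p.1 ∪ insert e p.2 = univ := by
              rw [union_insert, ← insert_union]
              exact h2
            exact hmono _ _ (subset_insert _ _)
              (hW _ _ (disjoint_insert_right' hd he) hu2 hpos2)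
        · have hf := hτ (insert e p.1) p.2 h2
          set f := τ (insert e p.1) p.2 with hfdef
          have hf2 : f ∉ p.1 ∪ p.2 := by
            intro h
            apply hf
            rw [insert_union]
            exact mem_insert_of_mem h
          have hef : e ≠ f := by
            intro h
            apply hf
            rw [insert_union, ← h]
            exact mem_insert_self _ _
          have hX := hcross p.1 p.2 e f hd he hf2 hef (by linarith)
          have hmax' := hmax f hf2
          have hharmf := hL p.1 p.2 hd f hf2
          have hnew : L p.1 p.2 - ℓ ≤ L (insert e p.1) (insert f p.2) := by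
            unfold cross at hX
            linarith
          have hd2 : Disjoint (insert e p.1) (insert f p.2) :=
            disjoint_insert_right' (disjoint_insert_left' hd he) hf
          refine ⟨hd2, ?_, ?_⟩
          · intro hu3
            exact hW _ _ hd2 hu3 (by simp only at hu3 ⊢; linarith)
          · intro _
            simp only
            push_cast
            linarith
  exact (inv (Fintype.card E)).2.1 (play_full σ τ hleg)

/-- Breaker's potential strategy: `φ` is a potential such that giving an element to Maker and
another one to Breaker, the latter chosen to maximise Maker's gain, never increases it. -/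
theorem breaker_wins [Nonempty E] (φ : Finset E → Finset E → ℝ) (hφ : Harmonic φ)
    (hmono : ∀ R B e, Disjoint R B → e ∉ R ∪ B → φ R B ≤ φ (insert e R) B)
    (hcross : ∀ R B e f, Disjoint R B → e ∉ R ∪ B → f ∉ R ∪ B → e ≠ f → cross φ R B e f ≤ 0)
    (c : ℝ) (h0 : ∀ e, φ {e} ∅ < c)
    (W : Finset E → Prop) (hW : ∀ R B, Disjoint R B → R ∪ B = univ → W R → c ≤ φ R B) :
    ¬ MakerGuarantees W := by
  classical
  rintro ⟨σ, hleg, hall⟩
  have hchoice : ∀ R B : Finset E, ∃ e : E, (R ∪ B ≠ univ → (e ∉ R ∪ B ∧
      ∀ f, f ∉ R ∪ B → φ (insert f R) B ≤ φ (insert e R) B)) := by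
    intro R B
    by_cases hne : (free R B).Nonempty
    · obtain ⟨e, he, hmax⟩ := exists_max_image (free R B) (fun e => φ (insert e R) B) hne
      exact ⟨e, fun _ => ⟨mem_free.1 he, fun f hf => hmax f (mem_free.2 hf)⟩⟩
    · rw [not_nonempty_iff_eq_empty, free_eq_empty] at hne
      exact ⟨Classical.arbitrary E, fun h => absurd hne h⟩
  choose τ hτ using hchoice
  have hlegτ : Legal τ := fun R B h => (hτ R B h).1
  -- invariant: after `n` rounds the potential stays below `c` even after any move of Maker
  have inv : ∀ n : ℕ, Disjoint (play σ τ n).1 (play σ τ n).2 ∧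
      ((play σ τ n).1 ∪ (play σ τ n).2 = univ → φ (play σ τ n).1 (play σ τ n).2 < c) ∧
      (∀ e, e ∉ (play σ τ n).1 ∪ (play σ τ n).2 →
        φ (insert e (play σ τ n).1) (play σ τ n).2 < c) := by
    intro n
    induction n with
    | zero =>
      have hp0 : play σ τ 0 = (∅, ∅) := rfl
      rw [hp0]
      refine ⟨disjoint_empty_left _, ?_, ?_⟩
      · intro hu
        exfalso
        have : (Classical.arbitrary E) ∈ (∅ ∪ ∅ : Finset E) := by
          simp only at hu
          rw [hu]
          exact mem_univ _
        simp at this
      · intro e _
        simpa using h0 e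
    | succ n ih =>
      rw [play_succ]
      set p := play σ τ n with hp
      obtain ⟨hd, hfull, hnext⟩ := ih
      by_cases hu : p.1 ∪ p.2 = univ
      · have : round σ τ p = p := by
          unfold round
          rw [if_pos hu]
        rw [this]
        exact ⟨hd, hfull, hnext⟩
      · have he := hleg p.1 p.2 hu
        set e := σ p.1 p.2 with hedef
        have hd1 := disjoint_insert_left' hd he
        have hlt := hnext e he
        unfold round
        rw [if_neg hu]
        split_ifs with h2
        · refine ⟨hd1, fun _ => hlt, ?_⟩
          intro g hg
          simp only at hg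
          rw [h2] at hg
          exact absurd (mem_univ g) hg
        · obtain ⟨hf, hmax⟩ := hτ (insert e p.1) p.2 h2
          set f := τ (insert e p.1) p.2 with hfdef
          have hd2 : Disjoint (insert e p.1) (insert f p.2) := disjoint_insert_right' hd1 hf
          have hh := hφ (insert e p.1) p.2 hd1 f hf
          have hm := hmono (insert e p.1) p.2 f hd1 hf
          refine ⟨hd2, ?_, ?_⟩
          · intro _
            simp only
            linarith
          · intro g hg
            simp only at hg ⊢
            have hg2 : g ∉ insert e p.1 ∪ p.2 := by
              intro h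
              apply hg
              rw [union_insert]
              exact mem_insert_of_mem h
            have hgf : g ≠ f := by
              intro h
              apply hg
              rw [union_insert, h]
              exact mem_insert_self _ _
            have hX := hcross (insert e p.1) p.2 g f hd1 hg2 hf hgf
            have hmax' := hmax g hg2
            unfold cross at hX
            linarith
  have hfin := play_full σ τ hleg
  have h1 := (inv (Fintype.card E)).2.1 hfin
  have h2 := hW _ _ (inv (Fintype.card E)).1 hfin (hall τ hlegτ)
  linarith

end Pool.Agent.H69.Clique
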