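import Mathlib
import Pool.Agent.H69.CliqueTuple
import Pool.Agent.H69.CliqueGame

/-!
# Maker's strategy
-/

set_option autoImplicit false
set_option linter.unusedSectionVars false

namespace Pool.Agent.H69.Clique

open Finset

variable {N : ℕ}

lemma avg_harmonic {E : Type} [Fintype E] [DecidableEq E] (h : Finset E → ℝ) :
    Harmonic (avg h) := fun R B _ e he => avg_split h R B e he

lemma hasDense_mono (α : ℝ) (q : ℕ) (R R' : Finset (Edge N)) (h : R ⊆ R')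
    (hR : HasDense N α q R) : HasDense N α q R' := by
  obtain ⟨A, hA, hd⟩ := hR
  refine ⟨A, hA, hd.trans ?_⟩
  exact_mod_cast card_le_card (inter_subset_inter_right h)

lemma cross_avg_X {α δ x₀ : ℝ} (q : ℕ) (R B : Finset (Edge N)) (e f : Edge N)
    (he : e ∉ R ∪ B) (hf : f ∉ R ∪ B) (hef : e ≠ f) :
    ∃ S : Finset (Fin N), S.card = 3 ∧
      -avg (X α δ x₀ q S) R B ≤ cross (avg (X α δ x₀ q ∅)) R B e f := by
  classical
  obtain ⟨S, hS, hSA⟩ := exists_three hef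
  refine ⟨S, hS, ?_⟩
  have h1 : ∀ S' : Finset (Fin N), ∀ R' B' : Finset (Edge N), avg (X α δ x₀ q S') R' B' =
      ∑ A ∈ fam N q S', avg (Y α δ x₀ q A) R' B' := by
    intro S' R' B'
    unfold X
    exact avg_sum (fam N q S') (fun A => Y α δ x₀ q A) R' B'
  have h2 : cross (avg (X α δ x₀ q ∅)) R B e f =
      ∑ A ∈ fam N q ∅, cross (avg (Y α δ x₀ q A)) R B e f := by
    unfold cross
    rw [h1, h1, h1, h1, sum_add_distrib, sum_sub_distrib, sum_sub_distrib]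
  rw [h2, h1]
  have h3 : fam N q S = (fam N q ∅).filter (fun A => S ⊆ A) := by
    ext A
    simp only [mem_filter, mem_fam, empty_subset, and_true]
  rw [h3, sum_filter, ← sum_neg_distrib]
  apply sum_le_sum
  intro A _
  have hnn := avg_nonneg (Y α δ x₀ q A) (Y_nonneg α δ x₀ q A) R B
  by_cases hiA : e ∈ inside A ∧ f ∈ inside A
  · rw [if_pos (hSA A hiA.1 hiA.2)]
    exact avg_cross_ge _ (Y_nonneg α δ x₀ q A) R B e f he hf hef
  · have hz : cross (avg (Y α δ x₀ q A)) R B e f = 0 := by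
      by_cases hi : e ∈ inside A
      · exact avg_cross_zero_right _ R B e f hf hef
          (fun T => Y_indep α δ x₀ q A T f (fun h => hiA ⟨hi, h⟩))
      · exact avg_cross_zero_left _ R B e f he hef (fun T => Y_indep α δ x₀ q A T e hi)
    rw [hz]
    split_ifs
    · linarith
    · simp

theorem maker_main {α δ x₀ : ℝ} (h0 : 1 / 2 < α) (h1 : α < 1) (q : ℕ) (hN : 2 ≤ N)
    (hq : 3 ≤ q) (hqN : q ≤ N) (K K₃ Φ₀ : ℝ) (hK : 1 ≤ K) (hK3 : 0 ≤ K₃)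
    (hΦ : Φ₀ = avg (X (N := N) α δ x₀ q ∅) ∅ ∅)
    (hΦ0 : 0 < Φ₀) (hZ0 : Zf α δ x₀ N q 0 ≤ K * Φ₀) (hZ3 : Zf α δ x₀ N q 3 * (N : ℝ) ^ 3 ≤ K₃ * Φ₀)
    (hbig : 256 * K₃ ^ 4 * K ^ 2 ≤ N) : MakerGuarantees (HasDense N α q) := by
  classical
  have hN0 : (0 : ℝ) < N := by
    have : 0 < N := by omega
    exact_mod_cast this
  have hne : Nonempty (Edge N) :=
    ⟨⟨s(⟨0, by omega⟩, ⟨1, by omega⟩), fun h => by
      have := Sym2.mk_isDiag_iff.1 h
      simp at this⟩⟩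
  -- positivity of the counting bounds
  have hZpos : ∀ s, s ≤ q → 0 < Zf α δ x₀ N q s := by
    intro s hs
    unfold Zf
    refine sum_pos' (fun j _ => mul_nonneg (by positivity) (gam_pos _ _ _ _ _).le) ?_
    refine ⟨s, mem_Icc.2 ⟨le_rfl, hs⟩, ?_⟩
    apply mul_pos _ (gam_pos _ _ _ _ _)
    rw [Nat.sub_self, Nat.choose_zero_right, Nat.cast_one, one_mul]
    have : 0 < N.choose (q - s) := Nat.choose_pos (by omega)
    exact_mod_cast this
  have hZ0pos := hZpos 0 (by omega)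
  have hZ3pos := hZpos 3 hq
  set Z0 := Zf α δ x₀ N q 0 with hZ0def
  set Z3 := Zf α δ x₀ N q 3 with hZ3def
  set T3 := powersetCard 3 (univ : Finset (Fin N)) with hT3
  let L : Finset (Edge N) → Finset (Edge N) → ℝ := fun R B =>
    avg (X α δ x₀ q ∅) R B / Φ₀ - (1 / 8) * ((∑ S ∈ T3, Psi α δ x₀ q S R B) / ((N : ℝ) ^ 3 * Z3 ^ 4)
      + Psi α δ x₀ q ∅ R B / Z0 ^ 4)
  have hLdef : ∀ R B, L R B = avg (X α δ x₀ q ∅) R B / Φ₀ -
      (1 / 8) * ((∑ S ∈ T3, Psi α δ x₀ q S R B) / ((N : ℝ) ^ 3 * Z3 ^ 4)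
      + Psi α δ x₀ q ∅ R B / Z0 ^ 4) := fun _ _ => rfl
  have hharm : Harmonic L := by
    intro R B hd e he
    have a1 := avg_harmonic (X α δ x₀ q ∅) R B hd e he
    have a2 := Psi_harmonic α δ x₀ q ∅ R B hd e he
    have a3 : (∑ S ∈ T3, Psi α δ x₀ q S (insert e R) B) +
        (∑ S ∈ T3, Psi α δ x₀ q S R (insert e B)) = 2 * ∑ S ∈ T3, Psi α δ x₀ q S R B := by
      rw [← sum_add_distrib, mul_sum]
      exact sum_congr rfl (fun S _ => Psi_harmonic α δ x₀ q S R B hd e he)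
    rw [hLdef, hLdef, hLdef]
    have e1 : avg (X α δ x₀ q ∅) (insert e R) B / Φ₀ + avg (X α δ x₀ q ∅) R (insert e B) / Φ₀ =
        2 * (avg (X α δ x₀ q ∅) R B / Φ₀) := by
      rw [← add_div, a1]
      ring
    have e2 : (∑ S ∈ T3, Psi α δ x₀ q S (insert e R) B) / ((N : ℝ) ^ 3 * Z3 ^ 4) +
        (∑ S ∈ T3, Psi α δ x₀ q S R (insert e B)) / ((N : ℝ) ^ 3 * Z3 ^ 4) =
        2 * ((∑ S ∈ T3, Psi α δ x₀ q S R B) / ((N : ℝ) ^ 3 * Z3 ^ 4)) := by
      rw [← add_div, a3]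
      ring
    have e3 : Psi α δ x₀ q ∅ (insert e R) B / Z0 ^ 4 + Psi α δ x₀ q ∅ R (insert e B) / Z0 ^ 4 =
        2 * (Psi α δ x₀ q ∅ R B / Z0 ^ 4) := by
      rw [← add_div, a2]
      ring
    linarith
  have hden : 0 < (N : ℝ) ^ 3 * Z3 ^ 4 := by positivity
  have hPsum : ∀ R B, 0 ≤ ∑ S ∈ T3, Psi α δ x₀ q S R B := fun R B =>
    sum_nonneg (fun S _ => Psi_nonneg δ x₀ h0 h1 q S R B)
  refine maker_wins L hharm (HasDense N α q) ?_ (hasDense_mono α q) (1 / (2 * (N : ℝ) ^ 2))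
    (by positivity) ?_ ?_
  · -- at the end
    intro R B hd hu hL
    rw [hLdef] at hL
    have p1 : 0 ≤ (∑ S ∈ T3, Psi α δ x₀ q S R B) / ((N : ℝ) ^ 3 * Z3 ^ 4) :=
      div_nonneg (hPsum R B) hden.le
    have p2 : 0 ≤ Psi α δ x₀ q ∅ R B / Z0 ^ 4 :=
      div_nonneg (Psi_nonneg δ x₀ h0 h1 q ∅ R B) (by positivity)
    have p3 : 0 < avg (X α δ x₀ q ∅) R B / Φ₀ := by linarith
    have p4 : 0 < avg (X α δ x₀ q ∅) R B := by
      by_contra hcon
      push Not at hcon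
      have := div_nonpos_of_nonpos_of_nonneg hcon hΦ0.le
      linarith
    rw [avg_final _ _ _ hu] at p4
    unfold X at p4
    obtain ⟨A, hA, hYA⟩ := exists_lt_of_sum_lt (s := fam N q ∅) (f := fun _ => (0 : ℝ))
      (g := fun A => Y α δ x₀ q A R) (by simpa using p4)
    unfold Y at hYA
    by_cases hb : Bal α δ x₀ q A R
    · refine ⟨A, (mem_fam.1 hA).1, ?_⟩
      rw [hb.1]
      exact Nat.le_ceil _
    · rw [if_neg hb] at hYA
      exact absurd hYA (lt_irrefl _)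
  · -- the cross term
    intro R B e f hd he hf hef hhalf
    obtain ⟨S, hS, hcr⟩ := cross_avg_X (α := α) (δ := δ) (x₀ := x₀) q R B e f he hf hef
    have hSmem : S ∈ T3 := by
      rw [hT3, mem_powersetCard]
      exact ⟨subset_univ _, hS⟩
    have c1 : cross L R B e f = cross (avg (X α δ x₀ q ∅)) R B e f / Φ₀ -
        (1 / 8) * ((∑ S ∈ T3, cross (Psi α δ x₀ q S) R B e f) / ((N : ℝ) ^ 3 * Z3 ^ 4)
          + cross (Psi α δ x₀ q ∅) R B e f / Z0 ^ 4) := by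
      unfold cross
      rw [hLdef, hLdef, hLdef, hLdef, sum_add_distrib, sum_sub_distrib, sum_sub_distrib]
      ring
    have c2 : (∑ S ∈ T3, cross (Psi α δ x₀ q S) R B e f) / ((N : ℝ) ^ 3 * Z3 ^ 4) ≤ 0 :=
      div_nonpos_of_nonpos_of_nonneg
        (sum_nonpos (fun S _ => Psi_cross_nonpos δ x₀ h0 h1 q S R B e f he hf)) hden.le
    have c3 : cross (Psi α δ x₀ q ∅) R B e f / Z0 ^ 4 ≤ 0 :=
      div_nonpos_of_nonpos_of_nonneg (Psi_cross_nonpos δ x₀ h0 h1 q ∅ R B e f he hf)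
        (by positivity)
    have c4 : -(avg (X α δ x₀ q S) R B / Φ₀) ≤ cross (avg (X α δ x₀ q ∅)) R B e f / Φ₀ := by
      rw [← neg_div]
      exact div_le_div_of_nonneg_right hcr hΦ0.le
    -- bounds from the potential
    rw [hLdef] at hhalf
    set Φ := avg (X α δ x₀ q ∅) R B with hΦdef
    have q1 : 0 ≤ (∑ S ∈ T3, Psi α δ x₀ q S R B) / ((N : ℝ) ^ 3 * Z3 ^ 4) :=
      div_nonneg (hPsum R B) hden.le
    have q2 : 0 ≤ Psi α δ x₀ q ∅ R B / Z0 ^ 4 :=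
      div_nonneg (Psi_nonneg δ x₀ h0 h1 q ∅ R B) (by positivity)
    set y := Φ / Φ₀ with hy
    have hypos : 0 < y := by linarith
    have hΦy : Φ = y * Φ₀ := by
      rw [hy]
      field_simp
    have r1 : Psi α δ x₀ q ∅ R B ≤ 8 * y * Z0 ^ 4 := by
      have : Psi α δ x₀ q ∅ R B / Z0 ^ 4 ≤ 8 * y := by linarith
      rwa [div_le_iff₀ (by positivity)] at this
    have r2 : ∑ S ∈ T3, Psi α δ x₀ q S R B ≤ 8 * y * ((N : ℝ) ^ 3 * Z3 ^ 4) := by
      have : (∑ S ∈ T3, Psi α δ x₀ q S R B) / ((N : ℝ) ^ 3 * Z3 ^ 4) ≤ 8 * y := by linarith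
      rwa [div_le_iff₀ hden] at this
    have r3 : Φ ^ 4 ≤ 8 * y * Z0 ^ 4 := (avg_X_pow_le δ x₀ h0 h1 q ∅ R B hd).trans r1
    have r4 : Z0 ^ 4 ≤ (K * Φ₀) ^ 4 := pow_le_pow_left₀ hZ0pos.le hZ0 4
    have r5 : y ^ 3 ≤ (2 * K ^ 2) ^ 3 := by
      have s1 : y ^ 4 * Φ₀ ^ 4 ≤ 8 * y * (K ^ 4 * Φ₀ ^ 4) := by
        have : Φ ^ 4 = y ^ 4 * Φ₀ ^ 4 := by
          rw [hΦy]
          ring
        rw [this] at r3
        refine r3.trans ?_
        rw [← mul_pow]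
        exact mul_le_mul_of_nonneg_left r4 (by positivity)
      have s2 : y * Φ₀ ^ 4 * y ^ 3 ≤ y * Φ₀ ^ 4 * (8 * K ^ 4) := by nlinarith
      have s3 : y ^ 3 ≤ 8 * K ^ 4 := le_of_mul_le_mul_left s2 (by positivity)
      refine s3.trans ?_
      have s4 : K ^ 4 ≤ K ^ 6 := pow_le_pow_right₀ hK (by norm_num)
      nlinarith
    have r6 : y ≤ 2 * K ^ 2 := le_of_pow_le_pow_left₀ (by norm_num) (by positivity) r5
    set x := avg (X α δ x₀ q S) R B / Φ₀ with hx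
    have hxnn : 0 ≤ x := div_nonneg (avg_nonneg _ (X_nonneg α δ x₀ q S) R B) hΦ0.le
    have r7 : x ^ 4 * Φ₀ ^ 4 ≤ 8 * y * ((N : ℝ) ^ 3 * Z3 ^ 4) := by
      have t1 : x ^ 4 * Φ₀ ^ 4 = avg (X α δ x₀ q S) R B ^ 4 := by
        rw [hx]
        field_simp
      rw [t1]
      refine (avg_X_pow_le δ x₀ h0 h1 q S R B hd).trans (le_trans ?_ r2)
      exact single_le_sum (fun S _ => Psi_nonneg δ x₀ h0 h1 q S R B) hSmem
    have r8 : Z3 ^ 4 * (N : ℝ) ^ 12 ≤ K₃ ^ 4 * Φ₀ ^ 4 := by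
      have t1 : Z3 ^ 4 * (N : ℝ) ^ 12 = (Z3 * (N : ℝ) ^ 3) ^ 4 := by ring
      rw [t1, ← mul_pow]
      exact pow_le_pow_left₀ (by positivity) hZ3 4
    have r9 : x ^ 4 ≤ (1 / (2 * (N : ℝ) ^ 2)) ^ 4 := by
      have t1 : x ^ 4 * Φ₀ ^ 4 * (N : ℝ) ^ 12 ≤ 8 * y * (N : ℝ) ^ 3 * (K₃ ^ 4 * Φ₀ ^ 4) := by
        calc x ^ 4 * Φ₀ ^ 4 * (N : ℝ) ^ 12 ≤ 8 * y * ((N : ℝ) ^ 3 * Z3 ^ 4) * (N : ℝ) ^ 12 :=
              mul_le_mul_of_nonneg_right r7 (by positivity)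
          _ = 8 * y * (N : ℝ) ^ 3 * (Z3 ^ 4 * (N : ℝ) ^ 12) := by ring
          _ ≤ _ := mul_le_mul_of_nonneg_left r8 (by positivity)
      have t2 : x ^ 4 * (N : ℝ) ^ 9 ≤ 8 * y * K₃ ^ 4 := by
        have : (Φ₀ ^ 4 * (N : ℝ) ^ 3) * (x ^ 4 * (N : ℝ) ^ 9) ≤
            (Φ₀ ^ 4 * (N : ℝ) ^ 3) * (8 * y * K₃ ^ 4) := by
          calc (Φ₀ ^ 4 * (N : ℝ) ^ 3) * (x ^ 4 * (N : ℝ) ^ 9)
              = x ^ 4 * Φ₀ ^ 4 * (N : ℝ) ^ 12 := by ring
            _ ≤ _ := t1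
            _ = _ := by ring
        exact le_of_mul_le_mul_left this (by positivity)
      have t3 : 8 * y * K₃ ^ 4 ≤ N / 16 := by
        have : y * K₃ ^ 4 ≤ 2 * K ^ 2 * K₃ ^ 4 := mul_le_mul_of_nonneg_right r6 (by positivity)
        nlinarith
      have t4 : (1 / (2 * (N : ℝ) ^ 2)) ^ 4 = (N / 16) / (N : ℝ) ^ 9 := by
        field_simp
        norm_num
      rw [t4, le_div_iff₀ (by positivity)]
      exact t2.trans t3
    have r10 : x ≤ 1 / (2 * (N : ℝ) ^ 2) := le_of_pow_le_pow_left₀ (by norm_num) (by positivity) r9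
    rw [c1]
    linarith
  · -- the start
    have hcard : (Fintype.card (Edge N) : ℝ) ≤ (N : ℝ) ^ 2 / 2 := by
      rw [card_edge, Nat.cast_choose_two]
      nlinarith
    have u1 : (Fintype.card (Edge N) : ℝ) * (1 / (2 * (N : ℝ) ^ 2)) ≤ 1 / 4 := by
      calc (Fintype.card (Edge N) : ℝ) * (1 / (2 * (N : ℝ) ^ 2))
          ≤ (N : ℝ) ^ 2 / 2 * (1 / (2 * (N : ℝ) ^ 2)) :=
            mul_le_mul_of_nonneg_right hcard (by positivity)
        _ = 1 / 4 := by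
            field_simp
            norm_num
    have u2 : Psi (N := N) α δ x₀ q ∅ ∅ ∅ / Z0 ^ 4 ≤ 1 := by
      rw [div_le_one (by positivity)]
      have := Psi_start_le (N := N) (α := α) (δ := δ) (x₀ := x₀) q ∅ (by simp)
      simpa using this
    have u3 : (∑ S ∈ T3, Psi α δ x₀ q S ∅ ∅) / ((N : ℝ) ^ 3 * Z3 ^ 4) ≤ 1 := by
      rw [div_le_one hden]
      have v1 : ∀ S ∈ T3, Psi α δ x₀ q S ∅ ∅ ≤ Z3 ^ 4 := by
        intro S hS
        rw [hT3, mem_powersetCard] at hS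
        have := Psi_start_le (N := N) (α := α) (δ := δ) (x₀ := x₀) q S (by omega)
        rw [hS.2] at this
        exact this
      have v2 := sum_le_sum v1
      rw [sum_const, nsmul_eq_mul, hT3, card_powersetCard, card_univ, Fintype.card_fin] at v2
      refine v2.trans ?_
      apply mul_le_mul_of_nonneg_right _ (by positivity)
      have v3 : N.choose 3 ≤ N ^ 3 := Nat.choose_le_pow N 3
      exact_mod_cast v3
    rw [hLdef, ← hΦ, div_self hΦ0.ne']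
    linarith

end Pool.Agent.H69.Clique
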