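import Mathlib
import Pool.Agent.H69.CliqueCount
import Pool.Agent.H69.CliqueMaker

/-!
# Maker's side for large cliques
-/

set_option autoImplicit false
set_option linter.unusedSectionVars false

namespace Pool.Agent.H69.Clique

open Finset Filter

lemma ev_poly (C c : ℝ) (hc : 0 < c) (k : ℕ) :
    ∀ᶠ q : ℕ in atTop, C * (q : ℝ) ^ k ≤ Real.exp (c * q) := by
  have h1 := isLittleO_pow_exp_pos_mul_atTop (k := k) hc
  have h2 : (0 : ℝ) < 1 / (|C| + 1) := by positivity
  have h3 := h1.bound h2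
  have h4 := (tendsto_natCast_atTop_atTop (R := ℝ)).eventually h3
  filter_upwards [h4] with q hq
  have hq0 : (0 : ℝ) ≤ (q : ℝ) ^ k := by positivity
  rw [Real.norm_eq_abs, Real.norm_eq_abs, abs_of_nonneg hq0,
    abs_of_pos (Real.exp_pos _)] at hq
  have h5 : (q : ℝ) ^ k * (|C| + 1) ≤ Real.exp (c * q) := by
    have h6 : (0 : ℝ) < |C| + 1 := by positivity
    calc (q : ℝ) ^ k * (|C| + 1) ≤ 1 / (|C| + 1) * Real.exp (c * q) * (|C| + 1) :=
          mul_le_mul_of_nonneg_right hq h6.le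
      _ = _ := by field_simp
  have h6 : C * (q : ℝ) ^ k ≤ (q : ℝ) ^ k * (|C| + 1) := by
    have := le_abs_self C
    nlinarith
  linarith

/-- The function `h(q) = q e^{β (q - 1) / 2}`. -/
noncomputable def hh (α : ℝ) (q : ℕ) : ℝ := q * Real.exp (be α * (q - 1) / 2)

/-- The constant `λ₀ = 32 e^{2 β}`. -/
noncomputable def la (α : ℝ) : ℝ := 32 * Real.exp (2 * be α)

lemma la_pos (α : ℝ) : 0 < la α := by unfold la; positivity

lemma Mn_ge {α : ℝ} (N q : ℕ) (hq : 1 ≤ q) (hN : 2 * q ≤ N)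
    (h : la α * hh α q ≤ N) : (16 * Real.exp (2 * be α)) ^ q ≤ Mn α N q := by
  have hqr : (0 : ℝ) < q := by exact_mod_cast hq
  have hNq : 2 * (q : ℝ) ≤ N := by exact_mod_cast hN
  unfold Mn
  have e1 : (((N + 1 - q : ℕ) : ℝ) ^ q) / (q.factorial : ℝ) ≤ N.choose q := by
    exact_mod_cast Nat.pow_le_choose (α := ℝ) q N
  have e2 : (N : ℝ) / 2 ≤ ((N + 1 - q : ℕ) : ℝ) := by
    rw [Nat.cast_sub (by omega)]
    push_cast
    linarith
  have e3 : (q.factorial : ℝ) ≤ (q : ℝ) ^ q := by exact_mod_cast Nat.factorial_le_pow q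
  have e4 : ((N : ℝ) / (2 * q)) ^ q ≤ N.choose q := by
    calc ((N : ℝ) / (2 * q)) ^ q = ((N : ℝ) / 2) ^ q / (q : ℝ) ^ q := by
          rw [← div_pow]
          congr 1
          field_simp
      _ ≤ ((N + 1 - q : ℕ) : ℝ) ^ q / (q.factorial : ℝ) := by
          apply div_le_div₀ (by positivity) (pow_le_pow_left₀ (by positivity) e2 q)
            (by exact_mod_cast Nat.factorial_pos q) e3
      _ ≤ _ := e1
  have e5 : Real.exp (-(be α * (q.choose 2 : ℕ))) = (Real.exp (-(be α * (q - 1) / 2))) ^ q := by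
    rw [← Real.exp_nat_mul, Nat.cast_choose_two]
    congr 1
    ring
  rw [e5]
  have e6 : 16 * Real.exp (2 * be α) ≤ (N : ℝ) / (2 * q) * Real.exp (-(be α * (q - 1) / 2)) := by
    rw [Real.exp_neg, ← div_eq_mul_inv, le_div_iff₀ (Real.exp_pos _), le_div_iff₀ (by positivity)]
    refine le_trans (le_of_eq ?_) h
    unfold la hh
    ring
  calc (16 * Real.exp (2 * be α)) ^ q
      ≤ ((N : ℝ) / (2 * q) * Real.exp (-(be α * (q - 1) / 2))) ^ q :=
        pow_le_pow_left₀ (by positivity) e6 q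
    _ = ((N : ℝ) / (2 * q)) ^ q * (Real.exp (-(be α * (q - 1) / 2))) ^ q := mul_pow _ _ _
    _ ≤ _ := mul_le_mul_of_nonneg_right e4 (by positivity)

lemma one_add_exp_pow (q : ℕ) (t : ℝ) (ht : 0 ≤ t) (htq : q * t ≤ 1) :
    (1 + t) ^ q - 1 ≤ 2 * (q * t) := by
  have h1 : (1 + t) ^ q ≤ Real.exp (q * t) := by
    rw [Real.exp_nat_mul]
    apply pow_le_pow_left₀ (by linarith)
    have := Real.add_one_le_exp t
    linarith
  have h0 : 0 ≤ q * t := by positivity
  have h2 : |Real.exp (q * t) - 1| ≤ 2 * |q * t| := by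
    apply Real.abs_exp_sub_one_le
    rw [abs_of_nonneg h0]
    exact htq
  rw [abs_of_nonneg h0] at h2
  have := le_abs_self (Real.exp (q * t) - 1)
  linarith

lemma choose_two_add_one_le (q : ℕ) (hq : 1 ≤ q) : ((q.choose 2 : ℕ) : ℝ) + 1 ≤ (q : ℝ) ^ 2 := by
  rw [Nat.cast_choose_two]
  have : (1 : ℝ) ≤ q := by exact_mod_cast hq
  nlinarith

theorem maker_side {α : ℝ} (h0 : 1 / 2 < α) (h1 : α < 1) :
    ∀ᶠ q : ℕ in atTop, ∀ N : ℕ, la α * hh α q ≤ N → (N : ℝ) ≤ la α * hh α (q + 1) →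
      MakerGuarantees (HasDense N α q) := by
  have hb := be_pos h0 h1
  have ht := ta_pos h0 h1
  have hx := xx_pos h0 h1
  have hx4 := xx_le h0 h1
  have hd := dd_pos h0 h1
  have hd1 := dd_le_one α
  have hla := la_pos α
  filter_upwards [eventually_ge_atTop 3, ev_poly 1 (3 * be α / 8) (by positivity) 1,
    ev_poly (8 * la α ^ 3) (be α / 2) (by positivity) 3,
    ev_poly (2 * la α * Real.exp (be α / 2)) (be α * xx α / 4) (by positivity) 1,
    ev_poly 8 (dd α ^ 2 / 8) (by positivity) 3,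
    ev_poly (256 * 516 ^ 4 * 68 ^ 2 * Real.exp (6 * ta α)) (be α / 2) (by positivity) 24]
    with q hq3 c1 c2 c3 c4 c5
  intro N hNl hNu
  have hq1 : 1 ≤ q := by omega
  have hqr : (0 : ℝ) < q := by exact_mod_cast hq1
  have hqr3 : (3 : ℝ) ≤ q := by exact_mod_cast hq3
  -- lower bounds for `N`
  have hexp_ge : Real.exp (be α * q / 2) ≤ Real.exp (2 * be α) * Real.exp (be α * (q - 1) / 2) := by
    rw [← Real.exp_add]
    apply Real.exp_le_exp.2
    nlinarith
  have hNq : 32 * (q : ℝ) * Real.exp (be α * q / 2) ≤ N := by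
    refine le_trans ?_ hNl
    unfold la hh
    calc 32 * (q : ℝ) * Real.exp (be α * q / 2)
        ≤ 32 * (q : ℝ) * (Real.exp (2 * be α) * Real.exp (be α * (q - 1) / 2)) :=
          mul_le_mul_of_nonneg_left hexp_ge (by positivity)
      _ = _ := by ring
  have hexp1 : 1 ≤ Real.exp (be α * q / 2) := Real.one_le_exp (by positivity)
  have hN32 : 32 * (q : ℝ) ≤ N := by nlinarith
  have hN2q : 2 * q ≤ N := by
    have : 2 * (q : ℝ) ≤ N := by linarith
    exact_mod_cast this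
  have hNpos : (0 : ℝ) < N := by linarith
  have hN1 : (1 : ℝ) ≤ N := by linarith
  -- upper bound for `N`
  have hNu' : (N : ℝ) ≤ la α * (q + 1) * Real.exp (be α * q / 2) := by
    refine hNu.trans (le_of_eq ?_)
    unfold hh
    push_cast
    rw [show ((q : ℝ) + 1 - 1) = q by ring]
    ring
  -- condition B
  have hB : 32 * (q : ℝ) ^ 2 * Real.exp (be α * q / 8) ≤ N := by
    refine le_trans ?_ hNq
    have e1 : Real.exp (be α * q / 2) = Real.exp (3 * be α / 8 * q) * Real.exp (be α * q / 8) := by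
      rw [← Real.exp_add]
      congr 1
      ring
    rw [e1]
    rw [one_mul, pow_one] at c1
    have := Real.exp_pos (be α * q / 8)
    calc 32 * (q : ℝ) ^ 2 * Real.exp (be α * q / 8)
        = 32 * (q : ℝ) * (q * Real.exp (be α * q / 8)) := by ring
      _ ≤ 32 * (q : ℝ) * (Real.exp (3 * be α / 8 * q) * Real.exp (be α * q / 8)) :=
          mul_le_mul_of_nonneg_left (mul_le_mul_of_nonneg_right c1 this.le) (by positivity)
  -- condition C
  have hC : Real.log N ≤ be α * (1 - xx α / 4) * ((1 + xx α) * q - 1) / 2 := by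
    have e1 : (N : ℝ) ≤ Real.exp (be α * xx α / 4 * q - be α / 2 + be α * q / 2) := by
      refine hNu'.trans ?_
      rw [Real.exp_add, Real.exp_sub]
      apply mul_le_mul_of_nonneg_right _ (Real.exp_pos _).le
      rw [le_div_iff₀ (Real.exp_pos _)]
      refine le_trans ?_ c3
      rw [pow_one]
      have : (q : ℝ) + 1 ≤ 2 * q := by linarith
      have h2 : 0 < Real.exp (be α / 2) := Real.exp_pos _
      calc la α * (q + 1) * Real.exp (be α / 2) ≤ la α * (2 * q) * Real.exp (be α / 2) :=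
            mul_le_mul_of_nonneg_right (mul_le_mul_of_nonneg_left this hla.le) h2.le
        _ = _ := by ring
    have e2 : Real.log N ≤ be α * xx α / 4 * q - be α / 2 + be α * q / 2 := by
      rw [← Real.log_exp (be α * xx α / 4 * q - be α / 2 + be α * q / 2)]
      exact Real.log_le_log hNpos e1
    refine e2.trans ?_
    have e3 : be α * (1 - xx α / 4) * ((1 + xx α) * q - 1) / 2 -
        (be α * xx α / 4 * q - be α / 2 + be α * q / 2) =
        be α * xx α * q * (1 / 8 - xx α / 8) + be α * xx α / 8 := by ring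
    have e4 : 0 ≤ be α * xx α * q * (1 / 8 - xx α / 8) + be α * xx α / 8 := by
      have : 0 ≤ 1 / 8 - xx α / 8 := by linarith
      positivity
    linarith
  -- condition E
  have hE : (1 + Real.exp (-(dd α ^ 2 / 8 * q))) ^ q - 1 ≤
      1 / (4 * ((q.choose 2 : ℕ) + 1 : ℝ)) := by
    have hEx := Real.exp_pos (-(dd α ^ 2 / 8 * q))
    have e1 : 8 * (q : ℝ) ^ 3 * Real.exp (-(dd α ^ 2 / 8 * q)) ≤ 1 := by
      rw [Real.exp_neg, ← div_eq_mul_inv, div_le_one (Real.exp_pos _)]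
      exact c4
    have e2 := choose_two_add_one_le q hq1
    have hm : (0 : ℝ) ≤ (q.choose 2 : ℕ) := by positivity
    have e3 : (q : ℝ) * Real.exp (-(dd α ^ 2 / 8 * q)) ≤ 1 := by
      refine le_trans ?_ e1
      apply mul_le_mul_of_nonneg_right _ hEx.le
      have : (1 : ℝ) ≤ q ^ 2 := by nlinarith
      nlinarith
    refine (one_add_exp_pow q _ hEx.le e3).trans ?_
    rw [le_div_iff₀ (by positivity)]
    refine le_trans ?_ e1
    calc 2 * ((q : ℝ) * Real.exp (-(dd α ^ 2 / 8 * q))) * (4 * ((q.choose 2 : ℕ) + 1 : ℝ))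
        = 8 * q * ((q.choose 2 : ℕ) + 1 : ℝ) * Real.exp (-(dd α ^ 2 / 8 * q)) := by ring
      _ ≤ 8 * q * (q : ℝ) ^ 2 * Real.exp (-(dd α ^ 2 / 8 * q)) :=
          mul_le_mul_of_nonneg_right (mul_le_mul_of_nonneg_left e2 (by positivity)) hEx.le
      _ = _ := by ring
  -- condition F
  have hM := Mn_ge (α := α) N q hq1 hN2q hNl
  have hF : (16 : ℝ) ^ q * (N : ℝ) ^ 3 ≤ Mn α N q := by
    refine le_trans ?_ hM
    rw [mul_pow]
    apply mul_le_mul_of_nonneg_left _ (by positivity)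
    have e1 : (N : ℝ) ^ 3 ≤ (la α * (q + 1) * Real.exp (be α * q / 2)) ^ 3 :=
      pow_le_pow_left₀ hNpos.le hNu' 3
    refine e1.trans ?_
    rw [mul_pow, ← Real.exp_nat_mul, ← Real.exp_nat_mul]
    have e2 : (q : ℝ) * (2 * be α) = be α / 2 * q + ((3 : ℕ) : ℝ) * (be α * q / 2) := by
      push_cast
      ring
    rw [e2, Real.exp_add]
    apply mul_le_mul_of_nonneg_right _ (Real.exp_pos _).le
    refine le_trans ?_ c2
    have : (q : ℝ) + 1 ≤ 2 * q := by linarith
    calc (la α * (q + 1)) ^ 3 ≤ (la α * (2 * q)) ^ 3 :=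
          pow_le_pow_left₀ (by positivity) (mul_le_mul_of_nonneg_left this hla.le) 3
      _ = _ := by ring
  have hMn := Mn_nonneg α N q
  -- the starting value
  set Φ₀ := avg (X (N := N) α (dd α) (xx α) q ∅) ∅ ∅ with hΦ
  have hΦge : Mn α N q ≤ 4 * Real.exp (ta α) * (q : ℝ) ^ 2 * Φ₀ := by
    have e1 : Φ₀ = ∑ A ∈ fam N q ∅, avg (Y α (dd α) (xx α) q A) ∅ ∅ := by
      rw [hΦ]
      unfold X
      rw [avg_sum]
    have e2 : (N.choose q : ℝ) * (Real.exp (-(be α * (q.choose 2 : ℕ)) - ta α) /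
        (4 * ((q.choose 2 : ℕ) + 1 : ℝ))) ≤ Φ₀ := by
      rw [e1]
      have e3 : (fam N q ∅).card = N.choose q := by
        unfold fam
        rw [filter_true_of_mem (fun A _ => empty_subset A), card_powersetCard, card_univ,
          Fintype.card_fin]
      rw [← e3, ← nsmul_eq_mul]
      apply card_nsmul_le_sum
      intro A hA
      exact avg_Y_ge h0 h1 hd.le hd1 hx q hq3 hE A (mem_fam.1 hA).1
    have e4 : Mn α N q = 4 * Real.exp (ta α) * ((q.choose 2 : ℕ) + 1 : ℝ) *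
        ((N.choose q : ℝ) * (Real.exp (-(be α * (q.choose 2 : ℕ)) - ta α) /
        (4 * ((q.choose 2 : ℕ) + 1 : ℝ)))) := by
      unfold Mn
      rw [Real.exp_sub]
      have : ((q.choose 2 : ℕ) + 1 : ℝ) ≠ 0 := by positivity
      field_simp
    rw [e4]
    have e5 := choose_two_add_one_le q hq1
    apply mul_le_mul (mul_le_mul_of_nonneg_left e5 (by positivity)) e2 (by positivity)
      (by positivity)
  have hMpos : 0 < Mn α N q := lt_of_lt_of_le (by positivity) hF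
  have hΦ0 : 0 < Φ₀ := by
    by_contra hcon
    push Not at hcon
    have : 4 * Real.exp (ta α) * (q : ℝ) ^ 2 * Φ₀ ≤ 0 :=
      mul_nonpos_of_nonneg_of_nonpos (by positivity) hcon
    linarith
  have h16 : (16 : ℝ) ^ q ≤ Mn α N q := by
    refine le_trans ?_ hF
    have : (1 : ℝ) ≤ (N : ℝ) ^ 3 := one_le_pow₀ hN1
    have h2 : (0 : ℝ) < 16 ^ q := by positivity
    nlinarith
  have hZ0 : Zf α (dd α) (xx α) N q 0 ≤ 68 * Real.exp (ta α) * (q : ℝ) ^ 2 * Φ₀ := by
    have := Zf_le h0 h1 N q 0 hN2q hq1 (Or.inl rfl) hB hC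
    rw [pow_zero, mul_one] at this
    calc Zf α (dd α) (xx α) N q 0 ≤ 16 * Mn α N q + 16 ^ q := this
      _ ≤ 17 * Mn α N q := by linarith
      _ ≤ 17 * (4 * Real.exp (ta α) * (q : ℝ) ^ 2 * Φ₀) := by linarith
      _ = _ := by ring
  have hZ3 : Zf α (dd α) (xx α) N q 3 * (N : ℝ) ^ 3 ≤
      516 * Real.exp (ta α) * (q : ℝ) ^ 5 * Φ₀ := by
    have := Zf_le h0 h1 N q 3 hN2q hq1 (Or.inr rfl) hB hC
    have hN3 : (0 : ℝ) < (N : ℝ) ^ 3 := by positivity
    have hq31 : (1 : ℝ) ≤ (q : ℝ) ^ 3 := one_le_pow₀ (by linarith)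
    calc Zf α (dd α) (xx α) N q 3 * (N : ℝ) ^ 3
        ≤ (16 * Mn α N q * (2 * q / N) ^ 3 + 16 ^ q) * (N : ℝ) ^ 3 :=
          mul_le_mul_of_nonneg_right this hN3.le
      _ = 128 * (q : ℝ) ^ 3 * Mn α N q + 16 ^ q * (N : ℝ) ^ 3 := by
          field_simp
          ring
      _ ≤ 128 * (q : ℝ) ^ 3 * Mn α N q + Mn α N q := by linarith
      _ ≤ 129 * (q : ℝ) ^ 3 * Mn α N q := by nlinarith
      _ ≤ 129 * (q : ℝ) ^ 3 * (4 * Real.exp (ta α) * (q : ℝ) ^ 2 * Φ₀) :=
          mul_le_mul_of_nonneg_left hΦge (by positivity)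
      _ = _ := by ring
  apply maker_main h0 h1 q (by omega) hq3 (by omega) (68 * Real.exp (ta α) * (q : ℝ) ^ 2)
    (516 * Real.exp (ta α) * (q : ℝ) ^ 5) Φ₀ _ (by positivity) hΦ hΦ0 hZ0 hZ3
  · have e6 : (516 * Real.exp (ta α) * (q : ℝ) ^ 5) ^ 4 * (68 * Real.exp (ta α) * (q : ℝ) ^ 2) ^ 2 =
        516 ^ 4 * 68 ^ 2 * Real.exp (6 * ta α) * (q : ℝ) ^ 24 := by
      have : Real.exp (6 * ta α) = Real.exp (ta α) ^ 6 := by
        rw [← Real.exp_nat_mul]
        norm_num
      rw [this]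
      ring
    calc 256 * (516 * Real.exp (ta α) * (q : ℝ) ^ 5) ^ 4 *
          (68 * Real.exp (ta α) * (q : ℝ) ^ 2) ^ 2
        = 256 * 516 ^ 4 * 68 ^ 2 * Real.exp (6 * ta α) * (q : ℝ) ^ 24 := by
          rw [mul_assoc 256, e6]
          ring
      _ ≤ Real.exp (be α / 2 * q) := c5
      _ = Real.exp (be α * q / 2) := by congr 1; ring
      _ ≤ N := by nlinarith
  · have e7 : 1 ≤ Real.exp (ta α) := Real.one_le_exp ht.le
    have e8 : (1 : ℝ) ≤ (q : ℝ) ^ 2 := one_le_pow₀ (by linarith)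
    nlinarith

end Pool.Agent.H69.Clique
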