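import Mathlib
import Pool.Agent.H69.CliqueY
import Pool.Agent.H69.CliqueGame

/-!
# Breaker's side
-/

set_option autoImplicit false
set_option linter.unusedSectionVars false

namespace Pool.Agent.H69.Clique

open Finset

variable {N : ℕ}

/-- Breaker's potential. -/
noncomputable def pot (α : ℝ) (q : ℕ) (R B : Finset (Edge N)) : ℝ :=
  ∑ A ∈ powersetCard q (univ : Finset (Fin N)), wgt (2 * α - 1) (inside A) R B

lemma pot_harmonic (α : ℝ) (q : ℕ) : Harmonic (pot (N := N) α q) := by
  intro R B hd e he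
  unfold pot
  rw [← sum_add_distrib, mul_sum]
  exact sum_congr rfl (fun A _ => wgt_harmonic _ _ R B hd e he)

lemma pot_mono {α : ℝ} (h0 : 1 / 2 < α) (h1 : α < 1) (q : ℕ) (R B : Finset (Edge N))
    (e : Edge N) (he : e ∉ R ∪ B) : pot α q R B ≤ pot α q (insert e R) B := by
  rw [mem_union, not_or] at he
  unfold pot
  refine sum_le_sum (fun A _ => ?_)
  rw [wgt_insert_left _ _ _ _ _ he.1]
  have h2 := wgt_nonneg (ε := 2 * α - 1) (by linarith) (by linarith) (inside A) R B
  split_ifs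
  · nlinarith
  · linarith

lemma pot_cross {α : ℝ} (h0 : 1 / 2 < α) (h1 : α < 1) (q : ℕ) (R B : Finset (Edge N))
    (e f : Edge N) (he : e ∉ R ∪ B) (hf : f ∉ R ∪ B) : cross (pot α q) R B e f ≤ 0 := by
  have : cross (pot α q) R B e f =
      ∑ A ∈ powersetCard q (univ : Finset (Fin N)), cross (wgt (2 * α - 1) (inside A)) R B e f := by
    unfold cross pot
    rw [← sum_sub_distrib, ← sum_sub_distrib, ← sum_add_distrib]
  rw [this]
  exact sum_nonpos (fun A _ => wgt_cross_nonpos (by linarith) (by linarith) _ _ _ _ _ he hf)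

lemma pot_first {α : ℝ} (h0 : 1 / 2 < α) (q : ℕ) (e : Edge N) :
    pot α q {e} ∅ ≤ 2 * α * N.choose q := by
  unfold pot
  have h2 : ∀ A ∈ powersetCard q (univ : Finset (Fin N)),
      wgt (2 * α - 1) (inside A) {e} ∅ ≤ 2 * α := by
    intro A _
    rw [show ({e} : Finset (Edge N)) = insert e ∅ from rfl,
      wgt_insert_left _ _ _ _ _ (notMem_empty e)]
    have : wgt (2 * α - 1) (inside A) (∅ : Finset (Edge N)) ∅ = 1 := by simp [wgt]
    rw [this]
    split_ifs <;> linarith
  refine (sum_le_card_nsmul _ _ _ h2).trans (le_of_eq ?_)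
  rw [card_powersetCard, card_univ, Fintype.card_fin, nsmul_eq_mul]
  ring

lemma pot_last {α : ℝ} (h0 : 1 / 2 < α) (h1 : α < 1) (q : ℕ) (R B : Finset (Edge N))
    (hd : Disjoint R B) (hu : R ∪ B = univ) (hW : HasDense N α q R) :
    Real.exp (be α * (q.choose 2 : ℕ)) ≤ pot α q R B := by
  obtain ⟨A, hA, hr⟩ := hW
  have h2 : wgt (2 * α - 1) (inside A) R B ≤ pot α q R B := by
    unfold pot
    refine single_le_sum (f := fun A => wgt (2 * α - 1) (inside A) R B) (fun A' _ => ?_) ?_
    · exact wgt_nonneg (by linarith) (by linarith) _ _ _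
    · rw [mem_powersetCard]
      exact ⟨subset_univ _, hA⟩
  refine le_trans ?_ h2
  have hcard : (inside A ∩ R).card + (inside A ∩ B).card = q.choose 2 := by
    rw [← card_union_of_disjoint, ← inter_union_distrib_left, hu, inter_univ, card_inside, hA]
    exact hd.mono inter_subset_right inter_subset_right
  rw [inter_comm] at hr
  set r := (inside A ∩ R).card
  set b := (inside A ∩ B).card
  have e1 : (1 : ℝ) + (2 * α - 1) = Real.exp (aa α) := by
    unfold aa
    rw [← Real.log_mul two_ne_zero (by linarith), Real.exp_log (by linarith)]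
    ring
  have e2 : (1 : ℝ) - (2 * α - 1) = Real.exp (Real.log 2 + Real.log (1 - α)) := by
    rw [← Real.log_mul two_ne_zero (by linarith), Real.exp_log (by linarith)]
    ring
  unfold wgt
  rw [e1, e2, ← Real.exp_nat_mul, ← Real.exp_nat_mul, ← Real.exp_add]
  apply Real.exp_le_exp.2
  have hc : ((q.choose 2 : ℕ) : ℝ) = r + b := by rw [← hcard]; push_cast; ring
  have ht := ta_pos h0 h1
  rw [hc] at hr ⊢
  unfold ta at ht
  unfold be aa
  nlinarith

theorem breaker_side {α : ℝ} (h0 : 1 / 2 < α) (h1 : α < 1) (q : ℕ) (hN : 2 ≤ N)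
    (h : 2 * α * N.choose q < Real.exp (be α * (q.choose 2 : ℕ))) :
    ¬ MakerGuarantees (HasDense N α q) := by
  have hne : Nonempty (Edge N) :=
    ⟨⟨s(⟨0, by omega⟩, ⟨1, by omega⟩), fun h => by
      have := Sym2.mk_isDiag_iff.1 h
      simp at this⟩⟩
  refine breaker_wins (pot α q) (pot_harmonic α q) (fun R B e _ he => pot_mono h0 h1 q R B e he)
    (fun R B e f _ he hf _ => pot_cross h0 h1 q R B e f he hf)
    (Real.exp (be α * (q.choose 2 : ℕ))) (fun e => (pot_first h0 q e).trans_lt h) _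
    (fun R B hd hu hW => pot_last h0 h1 q R B hd hu hW)

/-- Breaker wins when `2 e N ≤ h(q)`. -/
theorem breaker_large {α : ℝ} (h0 : 1 / 2 < α) (h1 : α < 1) (q : ℕ) (hN : 2 ≤ N) (hq : 1 ≤ q)
    (h : 2 * Real.exp 1 * N ≤ q * Real.exp (be α * (q - 1) / 2)) :
    ¬ MakerGuarantees (HasDense N α q) := by
  apply breaker_side h0 h1 q hN
  have hqr : (0 : ℝ) < q := by exact_mod_cast hq
  have hNr : (0 : ℝ) < N := by
    have : 0 < N := by omega
    exact_mod_cast this
  have e1 : (N.choose q : ℝ) ≤ (N : ℝ) ^ q / (q.factorial : ℝ) := Nat.choose_le_pow_div q N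
  have e2 : (q : ℝ) ^ q / (q.factorial : ℝ) ≤ Real.exp q :=
    Real.pow_div_factorial_le_exp _ hqr.le q
  have hqq : (0 : ℝ) < (q : ℝ) ^ q := by positivity
  have hf : (0 : ℝ) < (q.factorial : ℝ) := by exact_mod_cast Nat.factorial_pos q
  have e3 : (N.choose q : ℝ) ≤ (Real.exp 1 * N / q) ^ q := by
    refine e1.trans ?_
    rw [div_pow, mul_pow, ← Real.exp_nat_mul, mul_one]
    calc (N : ℝ) ^ q / (q.factorial : ℝ) = (q : ℝ) ^ q / (q.factorial : ℝ) * (N : ℝ) ^ q / (q : ℝ) ^ q := by
          field_simp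
      _ ≤ Real.exp q * (N : ℝ) ^ q / (q : ℝ) ^ q := by
          apply div_le_div_of_nonneg_right _ hqq.le
          exact mul_le_mul_of_nonneg_right e2 (by positivity)
  have e4 : Real.exp (be α * (q.choose 2 : ℕ)) = (Real.exp (be α * (q - 1) / 2)) ^ q := by
    rw [← Real.exp_nat_mul, Nat.cast_choose_two]
    congr 1
    ring
  have hpos : 0 < (Real.exp 1 * N / q) ^ q := by positivity
  rw [e4]
  calc 2 * α * (N.choose q : ℝ) ≤ 2 * α * (Real.exp 1 * N / q) ^ q :=
        mul_le_mul_of_nonneg_left e3 (by linarith)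
    _ < 2 * (Real.exp 1 * N / q) ^ q := by nlinarith
    _ ≤ 2 ^ q * (Real.exp 1 * N / q) ^ q := by
        apply mul_le_mul_of_nonneg_right _ hpos.le
        calc (2 : ℝ) = 2 ^ 1 := by norm_num
          _ ≤ 2 ^ q := pow_le_pow_right₀ (by norm_num) hq
    _ = (2 * (Real.exp 1 * N / q)) ^ q := (mul_pow _ _ _).symm
    _ ≤ _ := by
        apply pow_le_pow_left₀ (by positivity)
        rw [← mul_div_assoc, div_le_iff₀ hqr]
        linarith

/-- The property fails for `q > N`. -/
theorem breaker_gt {α : ℝ} (h0 : 1 / 2 < α) (h1 : α < 1) (q : ℕ) (hN : 2 ≤ N) (hq : N < q) :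
    ¬ MakerGuarantees (HasDense N α q) := by
  apply breaker_side h0 h1 q hN
  rw [Nat.choose_eq_zero_of_lt hq]
  simp only [Nat.cast_zero, mul_zero]
  exact Real.exp_pos _

end Pool.Agent.H69.Clique
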