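import Mathlib
import Pool.Agent.H69.CliqueAsym
import Pool.Agent.H69.CliqueBreaker

/-!
# The achievement number up to a bounded error
-/

set_option autoImplicit false
set_option linter.unusedSectionVars false

namespace Pool.Agent.H69.Clique

open Finset Filter

lemma one_sub_entropy (α : ℝ) : 1 - entropy α = be α / Real.log 2 := by
  have hl : Real.log 2 ≠ 0 := (Real.log_pos one_lt_two).ne'
  unfold entropy be Real.logb
  field_simp
  ring

/-- `Q` in natural logarithms. -/
lemma Q_eq {α : ℝ} (h0 : 1 / 2 < α) (h1 : α < 1) {N : ℕ} (hN : 2 ≤ N) :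
    Q α N = 2 / be α * (Real.log N - Real.log (Real.log N) + Real.log (be α) + 1 - Real.log 2) - 1 := by
  have hl : 0 < Real.log 2 := Real.log_pos one_lt_two
  have hb := be_pos h0 h1
  have hNr : (1 : ℝ) < N := by
    have : 1 < N := by omega
    exact_mod_cast this
  have hlN : 0 < Real.log N := Real.log_pos hNr
  unfold Q
  rw [one_sub_entropy]
  unfold Real.logb
  rw [Real.log_div hlN.ne' hl.ne', Real.log_div hb.ne' hl.ne', Real.log_exp]
  field_simp
  ring

lemma tendsto_log_cast : Tendsto (fun N : ℕ => Real.log N) atTop atTop :=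
  Real.tendsto_log_atTop.comp tendsto_natCast_atTop_atTop

/-- For large `N`, `Q` lies between `(log N) / β` and `2 (log N) / β`. -/
lemma Q_bounds {α : ℝ} (h0 : 1 / 2 < α) (h1 : α < 1) :
    ∀ᶠ N : ℕ in atTop, Real.log N / be α ≤ Q α N ∧ Q α N ≤ 2 / be α * Real.log N := by
  have hb := be_pos h0 h1
  have e1 : ∀ᶠ x : ℝ in atTop, Real.log x ≤ x / 4 := by
    have := Real.isLittleO_log_id_atTop.bound (show (0 : ℝ) < 1 / 4 by norm_num)
    filter_upwards [this, eventually_ge_atTop 1] with x hx hx1
    rw [Real.norm_eq_abs, Real.norm_eq_abs, abs_of_nonneg (Real.log_nonneg hx1), id,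
      abs_of_nonneg (by linarith)] at hx
    linarith
  filter_upwards [eventually_ge_atTop 2, tendsto_log_cast.eventually e1,
    tendsto_log_cast.eventually (eventually_ge_atTop
      (2 * (be α - 2 * Real.log (be α) - 2 + 2 * Real.log 2))),
    (Real.tendsto_log_atTop.comp tendsto_log_cast).eventually (eventually_ge_atTop
      (Real.log (be α) + 1 - Real.log 2))] with N hN2 a1 a2 a3
  rw [Q_eq h0 h1 hN2]
  simp only [Function.comp] at a3
  constructor
  · rw [div_le_iff₀ hb]
    have : (2 / be α * (Real.log N - Real.log (Real.log N) + Real.log (be α) + 1 - Real.log 2) - 1) *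
        be α = 2 * (Real.log N - Real.log (Real.log N) + Real.log (be α) + 1 - Real.log 2) - be α := by
      field_simp
    rw [this]
    linarith
  · have : 2 / be α * (Real.log N - Real.log (Real.log N) + Real.log (be α) + 1 - Real.log 2) ≤
        2 / be α * Real.log N := mul_le_mul_of_nonneg_left (by linarith) (by positivity)
    linarith

/-- The exponential of `Q`. -/
lemma exp_Q {α : ℝ} (h0 : 1 / 2 < α) (h1 : α < 1) {N : ℕ} (hN : 2 ≤ N) (c : ℝ) :
    Real.exp (be α * (Q α N + c - 1) / 2) =
      N / Real.log N * be α * Real.exp 1 / 2 * Real.exp (be α * c / 2 - be α) := by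
  have hb := be_pos h0 h1
  have hNr : (1 : ℝ) < N := by
    have : 1 < N := by omega
    exact_mod_cast this
  have hlN : 0 < Real.log N := Real.log_pos hNr
  rw [Q_eq h0 h1 hN]
  have e1 : be α * (2 / be α * (Real.log N - Real.log (Real.log N) + Real.log (be α) + 1 -
      Real.log 2) - 1 + c - 1) / 2 = Real.log N - Real.log (Real.log N) + Real.log (be α) + 1 -
      Real.log 2 + (be α * c / 2 - be α) := by
    field_simp
    ring
  rw [e1, Real.exp_add, Real.exp_sub, Real.exp_add, Real.exp_add, Real.exp_sub,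
    Real.exp_log (by linarith), Real.exp_log hlN, Real.exp_log hb, Real.exp_log two_pos]

theorem upper_bound {α : ℝ} (h0 : 1 / 2 < α) (h1 : α < 1) :
    ∀ᶠ N : ℕ in atTop, ∀ q : ℕ, MakerGuarantees (HasDense N α q) →
      (q : ℝ) ≤ Q α N + (2 + 2 * Real.log 4 / be α) := by
  have hb := be_pos h0 h1
  filter_upwards [eventually_ge_atTop 2, Q_bounds h0 h1] with N hN2 hQ
  intro q hq
  by_contra hcon
  push Not at hcon
  have hNr : (1 : ℝ) < N := by
    have : 1 < N := by omega
    exact_mod_cast this
  have hlN : 0 < Real.log N := Real.log_pos hNr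
  have hl4 : 0 < Real.log 4 := Real.log_pos (by norm_num)
  have hqQ : Real.log N / be α ≤ q := by
    have : 0 < 2 + 2 * Real.log 4 / be α := by positivity
    linarith [hQ.1]
  have hq0 : (0 : ℝ) < q := lt_of_lt_of_le (by positivity) hqQ
  have hq1 : 1 ≤ q := by
    have : 0 < q := by exact_mod_cast hq0
    omega
  refine breaker_large h0 h1 q hN2 hq1 ?_ hq
  have e1 : Real.exp (be α * (Q α N + (2 + 2 * Real.log 4 / be α) - 1) / 2) ≤
      Real.exp (be α * (q - 1) / 2) := by
    apply Real.exp_le_exp.2
    have : be α * (Q α N + (2 + 2 * Real.log 4 / be α) - 1) ≤ be α * (q - 1) :=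
      mul_le_mul_of_nonneg_left (by linarith) hb.le
    linarith
  rw [exp_Q h0 h1 hN2] at e1
  have e2 : be α * (2 + 2 * Real.log 4 / be α) / 2 - be α = Real.log 4 := by
    field_simp
    ring
  rw [e2, Real.exp_log (by norm_num)] at e1
  calc 2 * Real.exp 1 * N = Real.log N / be α * (N / Real.log N * be α * Real.exp 1 / 2 * 4) := by
        field_simp
        ring
    _ ≤ q * Real.exp (be α * (q - 1) / 2) := mul_le_mul hqQ e1 (by positivity) hq0.le

theorem lower_bound {α : ℝ} (h0 : 1 / 2 < α) (h1 : α < 1) :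
    ∀ᶠ N : ℕ in atTop, ∃ q : ℕ, MakerGuarantees (HasDense N α q) ∧
      Q α N - (2 / be α * (Real.log 32 + 1 + be α)) - 1 ≤ q := by
  have hb := be_pos h0 h1
  obtain ⟨q₀, hq₀⟩ := eventually_atTop.1 (maker_side h0 h1)
  have hlim : Tendsto (fun N : ℕ => Real.log N / be α) atTop atTop :=
    tendsto_log_cast.atTop_div_const hb
  filter_upwards [eventually_ge_atTop 2, Q_bounds h0 h1, hlim.eventually (eventually_ge_atTop
    ((q₀ : ℝ) + (2 / be α * (Real.log 32 + 1 + be α)) + 1))] with N hN2 hQ hbig
  have hNr : (1 : ℝ) < N := by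
    have : 1 < N := by omega
    exact_mod_cast this
  have hlN : 0 < Real.log N := Real.log_pos hNr
  classical
  set q := Nat.findGreatest (fun q => la α * hh α q ≤ N) N with hqdef
  have hP0 : la α * hh α 0 ≤ N := by
    unfold hh
    simp
  have hPq : la α * hh α q ≤ N := by
    rw [hqdef]
    exact Nat.findGreatest_spec (P := fun q => la α * hh α q ≤ (N : ℝ)) (Nat.zero_le N) hP0
  have hhge : ∀ k : ℕ, 1 ≤ k → (k : ℝ) ≤ la α * hh α k := by
    intro k hk
    have hkr : (1 : ℝ) ≤ k := by exact_mod_cast hk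
    unfold la hh
    have e1 : 1 ≤ Real.exp (2 * be α) := Real.one_le_exp (by positivity)
    have e2 : 1 ≤ Real.exp (be α * (k - 1) / 2) := by
      apply Real.one_le_exp
      have : (0 : ℝ) ≤ k - 1 := by linarith
      positivity
    have e3 : (k : ℝ) ≤ k * Real.exp (be α * (k - 1) / 2) := by nlinarith
    have e4 : 1 ≤ 32 * Real.exp (2 * be α) := by linarith
    nlinarith
  have hlt : (N : ℝ) < la α * hh α (q + 1) := by
    by_contra hcon
    push Not at hcon
    by_cases hqN : q + 1 ≤ N
    · have := Nat.findGreatest_is_greatest (P := fun q => la α * hh α q ≤ (N : ℝ)) (n := N)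
        (k := q + 1) (by rw [← hqdef]; omega) hqN
      exact this hcon
    · have h2 := hhge (q + 1) (by omega)
      have h3 : ((q + 1 : ℕ) : ℝ) ≤ N := h2.trans hcon
      have h4 : q + 1 ≤ N := by exact_mod_cast h3
      exact hqN h4
  have hlow : Q α N - (2 / be α * (Real.log 32 + 1 + be α)) - 1 ≤ q := by
    by_contra hcon
    push Not at hcon
    have hq1 : (q : ℝ) + 1 ≤ Q α N + (-(2 / be α * (Real.log 32 + 1 + be α))) := by linarith
    have hl32 : 0 < Real.log 32 := Real.log_pos (by norm_num)
    have hq2 : (q : ℝ) + 1 ≤ 2 / be α * Real.log N := by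
      have : 0 < 2 / be α * (Real.log 32 + 1 + be α) := by positivity
      linarith [hQ.2]
    have e1 : Real.exp (be α * q / 2) ≤
        Real.exp (be α * (Q α N + (-(2 / be α * (Real.log 32 + 1 + be α))) - 1) / 2) := by
      apply Real.exp_le_exp.2
      have : be α * q ≤ be α * (Q α N + (-(2 / be α * (Real.log 32 + 1 + be α))) - 1) :=
        mul_le_mul_of_nonneg_left (by linarith) hb.le
      linarith
    rw [exp_Q h0 h1 hN2] at e1
    have e2 : be α * (-(2 / be α * (Real.log 32 + 1 + be α))) / 2 - be α =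
        -(Real.log 32) - 1 - 2 * be α := by
      field_simp
      ring
    rw [e2] at e1
    have e3 : hh α (q + 1) ≤ 2 / be α * Real.log N * (N / Real.log N * be α * Real.exp 1 / 2 *
        Real.exp (-(Real.log 32) - 1 - 2 * be α)) := by
      unfold hh
      push_cast
      rw [show ((q : ℝ) + 1 - 1) = q by ring]
      exact mul_le_mul hq2 e1 (Real.exp_pos _).le (by positivity)
    have e4 : la α * (2 / be α * Real.log N * (N / Real.log N * be α * Real.exp 1 / 2 *
        Real.exp (-(Real.log 32) - 1 - 2 * be α))) = N := by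
      unfold la
      rw [Real.exp_sub, Real.exp_sub, Real.exp_neg, Real.exp_log (by norm_num)]
      have := Real.exp_pos 1
      have := Real.exp_pos (2 * be α)
      field_simp
    have e5 : la α * hh α (q + 1) ≤ N := by
      rw [← e4]
      have e6 := mul_le_mul_of_nonneg_left e3 (la_pos α).le
      rw [e4] at e6 ⊢
      exact e6
    linarith
  refine ⟨q, ?_, hlow⟩
  have hqq0 : q₀ ≤ q := by
    have : (q₀ : ℝ) ≤ q := by linarith [hQ.1]
    exact_mod_cast this
  exact hq₀ q hqq0 N hPq hlt.le

/-- The achievement number equals `Q` up to a bounded error. -/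
theorem bounded_error {α : ℝ} (h0 : 1 / 2 < α) (h1 : α < 1) :
    ∃ C : ℝ, ∀ᶠ N : ℕ in atTop,
      IsGreatest {q : ℕ | MakerGuarantees (HasDense N α q)} (achievement N α) ∧
      |(achievement N α : ℝ) - Q α N| ≤ C := by
  have hb := be_pos h0 h1
  have hl4 : 0 < Real.log 4 := Real.log_pos (by norm_num)
  have hl32 : 0 < Real.log 32 := Real.log_pos (by norm_num)
  refine ⟨(2 + 2 * Real.log 4 / be α) + (2 / be α * (Real.log 32 + 1 + be α) + 1), ?_⟩
  filter_upwards [eventually_ge_atTop 2, upper_bound h0 h1, lower_bound h0 h1] with N hN2 hU hL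
  obtain ⟨q, hq, hqQ⟩ := hL
  have hbdd : BddAbove {q : ℕ | MakerGuarantees (HasDense N α q)} := by
    refine ⟨N, fun k hk => ?_⟩
    by_contra hcon
    push Not at hcon
    exact breaker_gt h0 h1 k hN2 hcon hk
  have h2 : q ≤ achievement N α := le_csSup hbdd hq
  have h3 : MakerGuarantees (HasDense N α (achievement N α)) := Nat.sSup_mem ⟨q, hq⟩ hbdd
  have h4 := hU _ h3
  have h5 : (q : ℝ) ≤ achievement N α := by exact_mod_cast h2
  have p1 : 0 < 2 + 2 * Real.log 4 / be α := by positivity
  have p2 : 0 < 2 / be α * (Real.log 32 + 1 + be α) := by positivity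
  refine ⟨⟨h3, fun k hk => le_csSup hbdd hk⟩, ?_⟩
  rw [abs_le]
  constructor <;> linarith

end Pool.Agent.H69.Clique
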