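import Mathlib

/-!
# Flow polynomials of finite multigraphs

A finite multigraph is given by finite types `V` (vertices) and `E` (edges) and two maps
`s t : E → V`; the edge `e` joins `s e` and `t e` (loops and parallel edges are allowed).
-/

set_option autoImplicit false

namespace Pool.Agent.H69.Flow

open Finset Polynomial

/-- Adjacency through an edge of `A`: `u = s e` and `v = t e` for some `e ∈ A`. -/
def rel {V E : Type} (s t : E → V) (A : Finset E) (u v : V) : Prop :=
  ∃ e ∈ A, s e = u ∧ t e = v

/-- The number of connected components of the spanning subgraph with edge set `A`: the number of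
classes of the equivalence relation generated by the edges in `A`. -/
noncomputable def comps {V E : Type} (s t : E → V) (A : Finset E) : ℕ := Nat.card (Quot (rel s t A))

/-- The flow polynomial: the sum over all edge sets `A` of
`(-1) ^ (|E| - |A|) * X ^ (|A| + comps A - |V|)`.  The exponent is the cyclomatic number of `A`;
it is non-negative, so the subtraction of natural numbers is the usual one. -/
noncomputable def fp {V E : Type} [Fintype V] [Fintype E] (s t : E → V) : ℝ[X] :=
  ∑ A : Finset E, C ((-1 : ℝ) ^ (Fintype.card E - A.card)) *
    X ^ (A.card + comps s t A - Fintype.card V)

/-- The flow roots: real roots of flow polynomials, not identically zero, of finite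
multigraphs. -/
def flowRoots : Set ℝ :=
  {x | ∃ (V E : Type) (_ : Fintype V) (_ : Fintype E) (s t : E → V),
    fp s t ≠ 0 ∧ (fp s t).eval x = 0}

end Pool.Agent.H69.Flow
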