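import Mathlib
import Pool.Agent.H69.FlowDefs

/-!
# Real flow roots: bounded above if and only if some interval is free of them

A finite multigraph is given by finite types `V` (vertices) and `E` (edges) and two maps
`s t : E → V`; the edge `e` joins `s e` and `t e` (loops and parallel edges are allowed).
`fp s t` is its flow polynomial and `flowRoots` is the set of real roots of flow polynomials
that are not identically zero.

Outline.  With `zp = X ^ |V| * fp`, the multiplication identity `zp_mul` shows that the set of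
points where no graph is negative is closed under products, and that a product of an interval
of such points with such a point contains no root.  If an interval in `(2, ∞)` has no root and
some graph is negative there, take such a graph with fewest edges and an edge `e`; gluing copies
of the graph without `e` in parallel, together with parallel edges, produces a sign change
inside the interval unless a certain exponent is constant, which a degree comparison excludes.
-/

set_option autoImplicit false
set_option linter.unusedSectionVars false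

namespace Pool.Agent.H69.Flow

open Finset Polynomial

/-! ### Quotients -/

/-- Double quotient. -/
def quotQuot {V : Type*} (r₁ r₂ : V → V → Prop) :
    Quot (fun a b : Quot r₁ => ∃ u v, Quot.mk r₁ u = a ∧ Quot.mk r₁ v = b ∧ r₂ u v) ≃
      Quot (fun u v => r₁ u v ∨ r₂ u v) where
  toFun := Quot.lift (Quot.lift (fun u => Quot.mk _ u) (fun u v h => Quot.sound (Or.inl h)))
    (by
      rintro _ _ ⟨u, v, rfl, rfl, h⟩
      exact Quot.sound (Or.inr h))
  invFun := Quot.lift (fun u => Quot.mk _ (Quot.mk _ u))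
    (by
      rintro u v (h | h)
      · exact congrArg _ (Quot.sound h)
      · exact Quot.sound ⟨u, v, rfl, rfl, h⟩)
  left_inv := by
    rintro ⟨⟨u⟩⟩
    rfl
  right_inv := by
    rintro ⟨u⟩
    rfl

lemma card_quot_pair {W : Type*} [Finite W] (x y : W) (h : x ≠ y) :
    Nat.card (Quot (fun a b : W => a = x ∧ b = y)) + 1 = Nat.card W := by
  classical
  have e : Quot (fun a b : W => a = x ∧ b = y) ≃ {w : W // w ≠ y} :=
    { toFun := Quot.lift (fun w => if hw : w = y then ⟨x, h⟩ else ⟨w, hw⟩)
        (by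
          rintro a b ⟨rfl, rfl⟩
          simp [h])
      invFun := fun w => Quot.mk _ w.1
      left_inv := by
        rintro ⟨w⟩
        by_cases hw : w = y
        · simp only [hw, dite_true]
          exact Quot.sound ⟨rfl, rfl⟩
        · simp [hw]
      right_inv := by
        rintro ⟨w, hw⟩
        simp [hw] }
  have := Fintype.ofFinite W
  rw [Nat.card_congr e, Nat.card_eq_fintype_card, Nat.card_eq_fintype_card,
    Fintype.card_subtype_compl, Fintype.card_subtype_eq]
  have : 0 < Fintype.card W := Fintype.card_pos_iff.2 ⟨x⟩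
  omega

lemma card_quot_refl {W : Type*} (x : W) :
    Nat.card (Quot (fun a b : W => a = x ∧ b = x)) = Nat.card W := by
  have e : Quot (fun a b : W => a = x ∧ b = x) ≃ W :=
    { toFun := Quot.lift id (by rintro a b ⟨rfl, rfl⟩; rfl)
      invFun := fun w => Quot.mk _ w
      left_inv := by rintro ⟨w⟩; rfl
      right_inv := fun w => rfl }
  exact Nat.card_congr e

section graph

variable {V E : Type} [Fintype V] [Fintype E]

lemma comps_empty (s t : E → V) : comps s t ∅ = Fintype.card V := by
  have e : Quot (rel s t ∅) ≃ V :=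
    { toFun := Quot.lift id (by rintro a b ⟨e, he, _⟩; simp at he)
      invFun := fun w => Quot.mk _ w
      left_inv := by rintro ⟨w⟩; rfl
      right_inv := fun w => rfl }
  rw [comps, Nat.card_congr e, Nat.card_eq_fintype_card]

lemma comps_insert_conn (s t : E → V) [DecidableEq E] (A : Finset E) (e : E)
    (h : Quot.mk (rel s t A) (s e) = Quot.mk (rel s t A) (t e)) :
    comps s t (insert e A) = comps s t A := by
  have h1 : rel s t (insert e A) = fun u v => rel s t A u v ∨ (s e = u ∧ t e = v) := by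
    funext u v
    apply propext
    constructor
    · rintro ⟨f, hf, hf2⟩
      rw [mem_insert] at hf
      rcases hf with rfl | hf
      · exact Or.inr hf2
      · exact Or.inl ⟨f, hf, hf2⟩
    · rintro (⟨f, hf, hf2⟩ | hf)
      · exact ⟨f, mem_insert_of_mem hf, hf2⟩
      · exact ⟨e, mem_insert_self _ _, hf⟩
  have h2 : (fun a b : Quot (rel s t A) => ∃ u v, Quot.mk (rel s t A) u = a ∧
      Quot.mk (rel s t A) v = b ∧ (s e = u ∧ t e = v)) =
      fun a b => a = Quot.mk (rel s t A) (s e) ∧ b = Quot.mk (rel s t A) (s e) := by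
    funext a b
    apply propext
    constructor
    · rintro ⟨u, v, rfl, rfl, rfl, rfl⟩
      exact ⟨rfl, h.symm⟩
    · rintro ⟨rfl, rfl⟩
      exact ⟨s e, t e, rfl, h.symm, rfl, rfl⟩
  unfold comps
  rw [h1, ← Nat.card_congr (quotQuot (rel s t A) (fun u v => s e = u ∧ t e = v)), h2,
    card_quot_refl]

lemma comps_insert_not_conn (s t : E → V) [DecidableEq E] (A : Finset E) (e : E)
    (h : Quot.mk (rel s t A) (s e) ≠ Quot.mk (rel s t A) (t e)) :
    comps s t (insert e A) + 1 = comps s t A := by
  have h1 : rel s t (insert e A) = fun u v => rel s t A u v ∨ (s e = u ∧ t e = v) := by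
    funext u v
    apply propext
    constructor
    · rintro ⟨f, hf, hf2⟩
      rw [mem_insert] at hf
      rcases hf with rfl | hf
      · exact Or.inr hf2
      · exact Or.inl ⟨f, hf, hf2⟩
    · rintro (⟨f, hf, hf2⟩ | hf)
      · exact ⟨f, mem_insert_of_mem hf, hf2⟩
      · exact ⟨e, mem_insert_self _ _, hf⟩
  have h2 : (fun a b : Quot (rel s t A) => ∃ u v, Quot.mk (rel s t A) u = a ∧
      Quot.mk (rel s t A) v = b ∧ (s e = u ∧ t e = v)) =
      fun a b => a = Quot.mk (rel s t A) (s e) ∧ b = Quot.mk (rel s t A) (t e) := by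
    funext a b
    apply propext
    constructor
    · rintro ⟨u, v, rfl, rfl, rfl, rfl⟩
      exact ⟨rfl, rfl⟩
    · rintro ⟨rfl, rfl⟩
      exact ⟨s e, t e, rfl, rfl, rfl, rfl⟩
  unfold comps
  rw [h1, ← Nat.card_congr (quotQuot (rel s t A) (fun u v => s e = u ∧ t e = v)), h2]
  exact card_quot_pair _ _ h

lemma conn_mono (s t : E → V) {A B : Finset E} (hAB : A ⊆ B) (u v : V)
    (h : Quot.mk (rel s t A) u = Quot.mk (rel s t A) v) :
    Quot.mk (rel s t B) u = Quot.mk (rel s t B) v := by
  let f : Quot (rel s t A) → Quot (rel s t B) := Quot.lift (fun u => Quot.mk _ u)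
    (by
      rintro a b ⟨e, he, hab⟩
      exact Quot.sound ⟨e, hAB he, hab⟩)
  have := congrArg f h
  exact this

lemma mono_aux (s t : E → V) [DecidableEq E] (A : Finset E) (e : E) (he : e ∉ A) :
    A.card + comps s t A ≤ (insert e A).card + comps s t (insert e A) := by
  rw [card_insert_of_notMem he]
  by_cases h : Quot.mk (rel s t A) (s e) = Quot.mk (rel s t A) (t e)
  · rw [comps_insert_conn s t A e h]; omega
  · have := comps_insert_not_conn s t A e h
    omega

lemma expo_mono (s t : E → V) {A B : Finset E} (hAB : A ⊆ B) :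
    A.card + comps s t A ≤ B.card + comps s t B := by
  classical
  induction B using Finset.strongInduction with
  | H B ih =>
    by_cases h : A = B
    · rw [h]
    · obtain ⟨e, heB, heA⟩ := Finset.exists_of_ssubset (hAB.ssubset_of_ne h)
      have h1 : A ⊆ B.erase e := fun x hx => mem_erase.2 ⟨fun h => heA (h ▸ hx), hAB hx⟩
      have h2 := ih (B.erase e) (erase_ssubset heB) h1
      have h3 := mono_aux s t (B.erase e) e (notMem_erase e B)
      rw [insert_erase heB] at h3
      exact h2.trans h3

lemma card_le_expo (s t : E → V) (A : Finset E) : Fintype.card V ≤ A.card + comps s t A := by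
  have := expo_mono s t (empty_subset A)
  rw [comps_empty, card_empty, zero_add] at this
  exact this

/-- `t^{|V|}` times the flow polynomial. -/
noncomputable def zp (s t : E → V) : ℝ[X] :=
  ∑ A : Finset E, C ((-1 : ℝ) ^ (Fintype.card E - A.card)) * X ^ (A.card + comps s t A)

lemma zp_eq (s t : E → V) : zp s t = X ^ Fintype.card V * fp s t := by
  rw [zp, fp, mul_sum]
  apply sum_congr rfl
  intro A _
  rw [← mul_assoc, mul_comm (X ^ Fintype.card V), mul_assoc, ← pow_add,
    Nat.add_sub_cancel' (card_le_expo s t A)]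

lemma zp_eval (s t : E → V) (x : ℝ) : (zp s t).eval x =
    ∑ A : Finset E, (-1 : ℝ) ^ (Fintype.card E - A.card) * x ^ (A.card + comps s t A) := by
  rw [zp, eval_finsetSum]
  apply sum_congr rfl
  intro A _
  simp


/-- Components in a minor. -/
lemma comps_minor (s t : E → V) [DecidableEq E] (S F : Finset E) (A : Finset {e // e ∈ F}) :
    comps (fun e : {e // e ∈ F} => Quot.mk (rel s t S) (s e.1))
      (fun e : {e // e ∈ F} => Quot.mk (rel s t S) (t e.1)) A =
      comps s t (S ∪ A.map (Function.Embedding.subtype _)) := by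
  have h1 : rel s t (S ∪ A.map (Function.Embedding.subtype _)) =
      fun u v => rel s t S u v ∨ (∃ e ∈ A, s e.1 = u ∧ t e.1 = v) := by
    funext u v
    apply propext
    constructor
    · rintro ⟨f, hf, hf2⟩
      rw [mem_union] at hf
      rcases hf with hf | hf
      · exact Or.inl ⟨f, hf, hf2⟩
      · rw [mem_map] at hf
        obtain ⟨g, hg, rfl⟩ := hf
        exact Or.inr ⟨g, hg, hf2⟩
    · rintro (⟨f, hf, hf2⟩ | ⟨g, hg, hf2⟩)
      · exact ⟨f, mem_union_left _ hf, hf2⟩
      · exact ⟨g.1, mem_union_right _ (mem_map.2 ⟨g, hg, rfl⟩), hf2⟩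
  have h2 : (fun a b : Quot (rel s t S) => ∃ u v, Quot.mk (rel s t S) u = a ∧
      Quot.mk (rel s t S) v = b ∧ (∃ e ∈ A, s e.1 = u ∧ t e.1 = v)) =
      rel (fun e : {e // e ∈ F} => Quot.mk (rel s t S) (s e.1))
      (fun e : {e // e ∈ F} => Quot.mk (rel s t S) (t e.1)) A := by
    funext a b
    apply propext
    constructor
    · rintro ⟨u, v, rfl, rfl, e, he, rfl, rfl⟩
      exact ⟨e, he, rfl, rfl⟩
    · rintro ⟨e, he, rfl, rfl⟩
      exact ⟨s e.1, t e.1, rfl, rfl, e, he, rfl, rfl⟩
  unfold comps
  rw [h1, ← Nat.card_congr (quotQuot (rel s t S) (fun u v => ∃ e ∈ A, s e.1 = u ∧ t e.1 = v)), h2]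

open Classical in
/-- The polynomial of a minor: contract `S`, keep `F`. -/
noncomputable def zm (s t : E → V) (S F : Finset E) : ℝ[X] :=
  ∑ B ∈ F.powerset, C ((-1 : ℝ) ^ (F.card - B.card)) * X ^ (B.card + comps s t (S ∪ B))

lemma zm_formula (s t : E → V) [DecidableEq E] (S F : Finset E) : zm s t S F =
    ∑ B ∈ F.powerset, C ((-1 : ℝ) ^ (F.card - B.card)) * X ^ (B.card + comps s t (S ∪ B)) := by
  rw [zm]
  apply sum_congr rfl
  intro B _
  have h : (@Union.union (Finset E) (@Finset.instUnion E (fun a b => Classical.propDecidable (a = b)))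
      S B) = S ∪ B := by
    ext x
    simp
  rw [h]

lemma zm_eval (s t : E → V) [DecidableEq E] (S F : Finset E) (x : ℝ) : (zm s t S F).eval x =
    ∑ B ∈ F.powerset, (-1 : ℝ) ^ (F.card - B.card) * x ^ (B.card + comps s t (S ∪ B)) := by
  rw [zm_formula, eval_finsetSum]
  apply sum_congr rfl
  intro A _
  simp

lemma zm_eq_zp (s t : E → V) (S F : Finset E) :
    zm s t S F = zp (fun e : {e // e ∈ F} => Quot.mk (rel s t S) (s e.1))
      (fun e : {e // e ∈ F} => Quot.mk (rel s t S) (t e.1)) := by
  classical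
  rw [zm_formula, zp]
  symm
  refine sum_bij' (fun A _ => A.map (Function.Embedding.subtype _))
    (fun B _ => B.subtype (· ∈ F)) ?_ ?_ ?_ ?_ ?_
  · intro A _
    rw [mem_powerset]
    intro x hx
    rw [mem_map] at hx
    obtain ⟨y, _, rfl⟩ := hx
    exact y.2
  · intro B _
    exact mem_univ _
  · intro A _
    ext x
    simp
  · intro B hB
    rw [mem_powerset] at hB
    ext x
    simp only [mem_map, mem_subtype, Function.Embedding.subtype_apply]
    constructor
    · rintro ⟨y, hy, rfl⟩
      exact hy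
    · intro hx
      exact ⟨⟨x, hB hx⟩, hx, rfl⟩
  · intro A _
    simp only [card_map, Fintype.card_coe]
    rw [comps_minor]

lemma zp_eq_zm (s t : E → V) : zp s t = zm s t ∅ univ := by
  classical
  rw [zm_formula, zp]
  rw [powerset_univ]
  apply sum_congr rfl
  intro A _
  rw [empty_union, card_univ]

/-- Deletion and contraction. -/
lemma zp_del_con (s t : E → V) [DecidableEq E] (e : E) :
    zp s t = X * zm s t {e} (univ.erase e) - zm s t ∅ (univ.erase e) := by
  have h1 : (univ : Finset E) = insert e (univ.erase e) := (insert_erase (mem_univ e)).symm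
  rw [zp_eq_zm, zm_formula, zm_formula, zm_formula]
  conv_lhs => rw [h1]
  rw [sum_powerset_insert (notMem_erase e univ), mul_sum, add_comm, sub_eq_add_neg,
    ← sum_neg_distrib]
  congr 1
  · apply sum_congr rfl
    intro B hB
    rw [mem_powerset] at hB
    have h2 : e ∉ B := fun h => notMem_erase e univ (hB h)
    rw [card_insert_of_notMem (notMem_erase e univ), card_insert_of_notMem h2, empty_union,
      Nat.add_sub_add_right]
    have h3 : insert e B = {e} ∪ B := rfl
    rw [h3, pow_add, pow_add, pow_add, pow_one]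
    ring
  · apply sum_congr rfl
    intro B hB
    rw [mem_powerset] at hB
    rw [card_insert_of_notMem (notMem_erase e univ), empty_union]
    have h4 : B.card ≤ (univ.erase e).card := card_le_card hB
    rw [Nat.succ_sub h4, pow_succ]
    simp

lemma mobius (E : Type) [DecidableEq E] (A : Finset E) : ∀ h : Finset E → ℝ,
    ∑ S ∈ A.powerset, ∑ B ∈ S.powerset, (-1 : ℝ) ^ (S.card - B.card) * h B = h A := by
  induction A using Finset.induction_on with
  | empty => intro h; simp
  | insert e A heA ih =>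
    intro h
    rw [sum_powerset_insert heA]
    have h1 : ∀ S ∈ A.powerset, ∑ B ∈ (insert e S).powerset,
        (-1 : ℝ) ^ ((insert e S).card - B.card) * h B =
        - (∑ B ∈ S.powerset, (-1 : ℝ) ^ (S.card - B.card) * h B) +
        ∑ B ∈ S.powerset, (-1 : ℝ) ^ (S.card - B.card) * h (insert e B) := by
      intro S hS
      rw [mem_powerset] at hS
      have heS : e ∉ S := fun h => heA (hS h)
      rw [sum_powerset_insert heS, ← sum_neg_distrib]
      congr 1
      · apply sum_congr rfl
        intro B hB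
        rw [mem_powerset] at hB
        rw [card_insert_of_notMem heS, Nat.succ_sub (card_le_card hB), pow_succ]
        ring
      · apply sum_congr rfl
        intro B hB
        rw [mem_powerset] at hB
        have heB : e ∉ B := fun h => heS (hB h)
        rw [card_insert_of_notMem heS, card_insert_of_notMem heB, Nat.add_sub_add_right]
    rw [sum_congr rfl h1, sum_add_distrib, sum_neg_distrib, add_neg_cancel_left]
    exact ih (fun B => h (insert e B))

/-- The product identity. -/
lemma zp_mul (s t : E → V) [DecidableEq E] (a b : ℝ) : (zp s t).eval (a * b) =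
    ∑ S : Finset E, b ^ S.card * ((zm s t ∅ S).eval a * (zm s t S Sᶜ).eval b) := by
  rw [zp_eval]
  have h1 : ∀ A : Finset E, (-1 : ℝ) ^ (Fintype.card E - A.card) * (a * b) ^ (A.card + comps s t A)
      = ∑ S ∈ A.powerset, (-1 : ℝ) ^ (Fintype.card E - A.card) * b ^ (A.card + comps s t A) *
        (zm s t ∅ S).eval a := by
    intro A
    rw [← mul_sum, mul_pow, mul_comm (a ^ _), ← mul_assoc]
    congr 1
    rw [← mobius E A (fun B => a ^ (B.card + comps s t B))]
    apply sum_congr rfl
    intro S _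
    rw [zm_eval]
    apply sum_congr rfl
    intro B _
    rw [empty_union]
  rw [sum_congr rfl (fun A _ => h1 A)]
  rw [sum_comm' (t' := univ) (s' := fun S => univ.filter (fun A => S ⊆ A))
    (by intro A S; simp)]
  apply sum_congr rfl
  intro S _
  rw [← sum_mul, zm_eval s t S Sᶜ, mul_comm (eval a _), ← mul_assoc]
  congr 1
  rw [mul_sum]
  refine sum_bij' (fun A _ => A \ S) (fun B _ => S ∪ B) ?_ ?_ ?_ ?_ ?_
  · intro A _
    rw [mem_powerset]
    intro x hx
    rw [mem_sdiff] at hx
    exact mem_compl.2 hx.2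
  · intro B _
    rw [mem_filter]
    exact ⟨mem_univ _, subset_union_left⟩
  · intro A hA
    rw [mem_filter] at hA
    exact union_sdiff_of_subset hA.2
  · intro B hB
    rw [mem_powerset] at hB
    have : Disjoint S B := by
      rw [Finset.disjoint_left]
      intro x hx hx2
      exact (mem_compl.1 (hB hx2)) hx
    rw [union_sdiff_left]
    exact sdiff_eq_self_of_disjoint this.symm
  · intro A hA
    rw [mem_filter] at hA
    have h2 : A.card = S.card + (A \ S).card := by
      rw [card_sdiff_of_subset hA.2]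
      have := card_le_card hA.2
      omega
    have h3 : Sᶜ.card - (A \ S).card = Fintype.card E - A.card := by
      rw [card_compl]
      omega
    rw [union_sdiff_of_subset hA.2, h3]
    have h4 : A.card + comps s t A = S.card + ((A \ S).card + comps s t A) := by omega
    rw [h4, pow_add]
    ring


lemma zp_zero_or_monic (s t : E → V) : zp s t = 0 ∨
    ((zp s t).Monic ∧ (zp s t).natDegree = Fintype.card E + comps s t univ) := by
  classical
  by_cases hb : ∃ e, Quot.mk (rel s t (univ.erase e)) (s e) ≠ Quot.mk (rel s t (univ.erase e)) (t e)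
  · left
    obtain ⟨e, he⟩ := hb
    rw [zp_del_con s t e, sub_eq_zero, zm_formula, zm_formula, mul_sum]
    apply sum_congr rfl
    intro B hB
    rw [mem_powerset] at hB
    have h1 : Quot.mk (rel s t B) (s e) ≠ Quot.mk (rel s t B) (t e) :=
      fun h => he (conn_mono s t hB _ _ h)
    have h2 := comps_insert_not_conn s t B e h1
    have h3 : {e} ∪ B = insert e B := rfl
    rw [empty_union, h3, ← h2, ← add_assoc, pow_succ]
    ring
  · right
    push Not at hb
    have h0 : ∀ e, comps s t (univ.erase e) = comps s t univ := by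
      intro e
      have := comps_insert_conn s t (univ.erase e) e (hb e)
      rw [insert_erase (mem_univ e)] at this
      exact this.symm
    have h1 : zp s t = X ^ (Fintype.card E + comps s t univ) +
        ∑ A ∈ univ.erase (univ : Finset E),
          C ((-1 : ℝ) ^ (Fintype.card E - A.card)) * X ^ (A.card + comps s t A) := by
      rw [zp, ← add_sum_erase univ _ (mem_univ (univ : Finset E)), card_univ, Nat.sub_self,
        pow_zero, map_one, one_mul]
    have h2 : degree (∑ A ∈ univ.erase (univ : Finset E),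
          C ((-1 : ℝ) ^ (Fintype.card E - A.card)) * X ^ (A.card + comps s t A)) <
          ((Fintype.card E + comps s t univ : ℕ) : WithBot ℕ) := by
      refine (degree_sum_le _ _).trans_lt ?_
      rw [Finset.sup_lt_iff (WithBot.bot_lt_coe _)]
      intro A hA
      refine (degree_C_mul_X_pow_le _ _).trans_lt ?_
      have hA1 := ne_of_mem_erase hA
      obtain ⟨e, he⟩ : ∃ e, e ∉ A := by
        by_contra hcon
        push Not at hcon
        exact hA1 (eq_univ_iff_forall.2 hcon)
      have h3 : A ⊆ univ.erase e := fun x hx => mem_erase.2 ⟨fun h => he (h ▸ hx), mem_univ _⟩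
      have h4 := expo_mono s t h3
      rw [h0 e, card_erase_of_mem (mem_univ e), card_univ] at h4
      have h5 : 0 < Fintype.card E := Fintype.card_pos_iff.2 ⟨e⟩
      rw [Nat.cast_lt]
      omega
    constructor
    · rw [h1]
      exact monic_X_pow_add h2
    · rw [h1]
      apply natDegree_eq_of_degree_eq_some
      rw [degree_add_eq_left_of_degree_lt, degree_X_pow]
      rw [degree_X_pow]
      exact h2

/-! ### Colourings -/

open Classical in
/-- The weight of an edge. -/
noncomputable def wt (k : ℕ) (c d : Fin k) : ℝ := k * (if c = d then 1 else 0) - 1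

/-- Maps constant on the classes. -/
def quotArrow {W : Type*} (r : W → W → Prop) (K : Type*) :
    (Quot r → K) ≃ {σ : W → K // ∀ a b, r a b → σ a = σ b} where
  toFun f := ⟨fun w => f (Quot.mk r w), fun a b h => congrArg f (Quot.sound h)⟩
  invFun σ := Quot.lift σ.1 σ.2
  left_inv f := by
    funext q
    induction q using Quot.ind
    rfl
  right_inv σ := rfl

open Classical in
lemma card_const (s t : E → V) (A : Finset E) (k : ℕ) :
    ∑ σ : V → Fin k, (if ∀ e ∈ A, σ (s e) = σ (t e) then (1 : ℝ) else 0) =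
      (k : ℝ) ^ comps s t A := by
  rw [sum_boole]
  have h1 : (univ.filter (fun σ : V → Fin k => ∀ e ∈ A, σ (s e) = σ (t e))).card =
      Nat.card {σ : V → Fin k // ∀ a b, rel s t A a b → σ a = σ b} := by
    rw [Nat.card_eq_fintype_card, Fintype.card_subtype]
    congr 1
    ext σ
    simp only [mem_filter, mem_univ, true_and]
    constructor
    · rintro h a b ⟨e, he, rfl, rfl⟩
      exact h e he
    · intro h e he
      exact h _ _ ⟨e, he, rfl, rfl⟩
  rw [h1, ← Nat.card_congr (quotArrow (rel s t A) (Fin k)), Nat.card_fun, Nat.card_fin, comps]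
  push_cast
  rfl

open Classical in
/-- The colouring formula for minors. -/
lemma potts (s t : E → V) (S F : Finset E) (k : ℕ) : (zm s t S F).eval (k : ℝ) =
    ∑ σ : V → Fin k, (if ∀ e ∈ S, σ (s e) = σ (t e) then (1 : ℝ) else 0) *
      ∏ e ∈ F, wt k (σ (s e)) (σ (t e)) := by
  rw [zm_eval]
  have h1 : ∀ σ : V → Fin k, (if ∀ e ∈ S, σ (s e) = σ (t e) then (1 : ℝ) else 0) *
      ∏ e ∈ F, wt k (σ (s e)) (σ (t e)) =
      ∑ B ∈ F.powerset, (-1 : ℝ) ^ (F.card - B.card) * (k : ℝ) ^ B.card *
        (if ∀ e ∈ S ∪ B, σ (s e) = σ (t e) then (1 : ℝ) else 0) := by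
    intro σ
    have h2 : ∏ e ∈ F, wt k (σ (s e)) (σ (t e)) = ∑ B ∈ F.powerset,
        (∏ e ∈ B, (k : ℝ) * (if σ (s e) = σ (t e) then 1 else 0)) * ∏ e ∈ F \ B, (-1 : ℝ) := by
      rw [← prod_add]
      rfl
    rw [h2, mul_sum]
    apply sum_congr rfl
    intro B hB
    rw [mem_powerset] at hB
    rw [prod_mul_distrib, prod_const, prod_const, card_sdiff_of_subset hB]
    have h3 : ∏ e ∈ B, (if σ (s e) = σ (t e) then (1 : ℝ) else 0) =
        if ∀ e ∈ B, σ (s e) = σ (t e) then 1 else 0 := by
      split_ifs with h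
      · exact prod_eq_one (fun e he => if_pos (h e he))
      · push Not at h
        obtain ⟨e, he, hne⟩ := h
        exact prod_eq_zero he (if_neg hne)
    rw [h3]
    have h4 : (if ∀ e ∈ S ∪ B, σ (s e) = σ (t e) then (1 : ℝ) else 0) =
        (if ∀ e ∈ S, σ (s e) = σ (t e) then (1 : ℝ) else 0) *
        (if ∀ e ∈ B, σ (s e) = σ (t e) then (1 : ℝ) else 0) := by
      by_cases h5 : ∀ e ∈ S, σ (s e) = σ (t e)
      · by_cases h6 : ∀ e ∈ B, σ (s e) = σ (t e)
        · rw [if_pos h5, if_pos h6, if_pos]
          · ring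
          · intro e he
            rcases mem_union.1 he with h | h
            · exact h5 e h
            · exact h6 e h
        · rw [if_neg h6, if_neg (fun h => h6 (fun e he => h e (mem_union_right _ he)))]
          ring
      · rw [if_neg h5, if_neg (fun h => h5 (fun e he => h e (mem_union_left _ he)))]
        ring
    rw [h4]
    ring
  rw [sum_congr rfl (fun σ _ => h1 σ), sum_comm]
  apply sum_congr rfl
  intro B _
  rw [← mul_sum, card_const, pow_add]
  ring

open Classical in
/-- The two-terminal function of a graph with terminals `u, v`. -/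
noncomputable def zt (s t : E → V) (F : Finset E) (u v : V) (k : ℕ) (c d : Fin k) : ℝ :=
  ∑ σ : V → Fin k, (if σ u = c then (1 : ℝ) else 0) * (if σ v = d then (1 : ℝ) else 0) *
    ∏ e ∈ F, wt k (σ (s e)) (σ (t e))

open Classical in
lemma sum_zt (s t : E → V) (F : Finset E) (u v : V) (k : ℕ) :
    ∑ c, ∑ d, zt s t F u v k c d = (zm s t ∅ F).eval (k : ℝ) := by
  rw [potts]
  unfold zt
  rw [sum_congr rfl (fun c _ => sum_comm), sum_comm]
  apply sum_congr rfl
  intro σ _
  rw [if_pos (by simp)]
  simp only [mul_assoc, ← mul_sum, ← sum_mul]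
  simp

open Classical in
lemma sum_zt_diag (s t : E → V) (F : Finset E) (e : E) (k : ℕ) :
    ∑ c, zt s t F (s e) (t e) k c c = (zm s t {e} F).eval (k : ℝ) := by
  rw [potts]
  unfold zt
  rw [sum_comm]
  apply sum_congr rfl
  intro σ _
  rw [← sum_mul]
  congr 1
  have h1 : ∀ c : Fin k, (if σ (s e) = c then (1 : ℝ) else 0) * (if σ (t e) = c then 1 else 0) =
      if σ (s e) = c then (if σ (t e) = σ (s e) then 1 else 0) else 0 := by
    intro c
    by_cases h : σ (s e) = c
    · rw [if_pos h, if_pos h, one_mul, h]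
    · rw [if_neg h, if_neg h, zero_mul]
  rw [sum_congr rfl (fun c _ => h1 c), sum_ite_eq]
  simp only [mem_univ, if_true, mem_singleton, forall_eq]
  by_cases h : σ (s e) = σ (t e)
  · rw [if_pos h, if_pos h.symm]
  · rw [if_neg h, if_neg (fun h2 => h h2.symm)]

open Classical in
lemma wt_perm (k : ℕ) (c d : Fin k) (π : Equiv.Perm (Fin k)) : wt k (π c) (π d) = wt k c d := by
  unfold wt
  simp

open Classical in
lemma zt_perm (s t : E → V) (F : Finset E) (u v : V) (k : ℕ) (c d : Fin k)
    (π : Equiv.Perm (Fin k)) : zt s t F u v k (π c) (π d) = zt s t F u v k c d := by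
  unfold zt
  rw [← Equiv.sum_comp (Equiv.arrowCongr (Equiv.refl V) π)]
  apply sum_congr rfl
  intro σ _
  simp [wt_perm]

lemma exists_perm (k : ℕ) {c d c' d' : Fin k} (h : c ≠ d) (h' : c' ≠ d') :
    ∃ π : Equiv.Perm (Fin k), π c = c' ∧ π d = d' := by
  refine ⟨(Equiv.swap c c').trans (Equiv.swap (Equiv.swap c c' d) d'), ?_, ?_⟩
  · have h1 : c' ≠ Equiv.swap c c' d := by
      intro h2
      apply h
      apply (Equiv.swap c c').injective
      rw [Equiv.swap_apply_left]
      exact h2
    rw [Equiv.trans_apply, Equiv.swap_apply_left]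
    exact Equiv.swap_apply_of_ne_of_ne h1 h'
  · rw [Equiv.trans_apply, Equiv.swap_apply_left]

lemma zt_ab (s t : E → V) (F : Finset E) (u v : V) (k : ℕ) (hk : 2 ≤ k) :
    ∃ α β : ℝ, ∀ c d, zt s t F u v k c d = if c = d then α else β := by
  refine ⟨zt s t F u v k ⟨0, by omega⟩ ⟨0, by omega⟩, zt s t F u v k ⟨0, by omega⟩ ⟨1, by omega⟩, ?_⟩
  intro c d
  split_ifs with h
  · subst h
    have := zt_perm s t F u v k ⟨0, by omega⟩ ⟨0, by omega⟩ (Equiv.swap ⟨0, by omega⟩ c)
    rw [Equiv.swap_apply_left] at this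
    exact this
  · have h01 : (⟨0, by omega⟩ : Fin k) ≠ ⟨1, by omega⟩ := by
      intro h2
      have := congrArg Fin.val h2
      simp at this
    obtain ⟨π, h1, h2⟩ := exists_perm k h01 h
    have := zt_perm s t F u v k ⟨0, by omega⟩ ⟨1, by omega⟩ π
    rw [h1, h2] at this
    exact this


end graph

/-- Functions realised by two-terminal graphs. -/
def Rep (f : (k : ℕ) → Fin k → Fin k → ℝ) : Prop :=
  ∃ (V E : Type) (_ : Fintype V) (_ : Fintype E) (s t : E → V) (F : Finset E) (u v : V),
    ∀ k c d, zt s t F u v k c d = f k c d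

/-- The relation used to glue two graphs at two vertices. -/
def glueRel {V₁ V₂ : Type} (u₁ v₁ : V₁) (u₂ v₂ : V₂) (a b : V₁ ⊕ V₂) : Prop :=
  (a = Sum.inl u₁ ∧ b = Sum.inr u₂) ∨ (a = Sum.inl v₁ ∧ b = Sum.inr v₂)

open Classical in
lemma Rep.mul {f g : (k : ℕ) → Fin k → Fin k → ℝ} (hf : Rep f) (hg : Rep g) :
    Rep (fun k c d => f k c d * g k c d) := by
  obtain ⟨V₁, E₁, _, _, s₁, t₁, F₁, u₁, v₁, h₁⟩ := hf
  obtain ⟨V₂, E₂, _, _, s₂, t₂, F₂, u₂, v₂, h₂⟩ := hg
  refine ⟨Quot (glueRel u₁ v₁ u₂ v₂), E₁ ⊕ E₂, Fintype.ofFinite _, inferInstance,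
    Sum.elim (fun e => Quot.mk _ (Sum.inl (s₁ e))) (fun e => Quot.mk _ (Sum.inr (s₂ e))),
    Sum.elim (fun e => Quot.mk _ (Sum.inl (t₁ e))) (fun e => Quot.mk _ (Sum.inr (t₂ e))),
    F₁.disjSum F₂, Quot.mk _ (Sum.inl u₁), Quot.mk _ (Sum.inl v₁), ?_⟩
  intro k c d
  show _ = f k c d * g k c d
  rw [← h₁, ← h₂]
  unfold zt
  let _ : Fintype (Quot (glueRel u₁ v₁ u₂ v₂)) := Fintype.ofFinite _
  have e1 : ∑ σ : Quot (glueRel u₁ v₁ u₂ v₂) → Fin k,
      (if σ (Quot.mk _ (Sum.inl u₁)) = c then (1 : ℝ) else 0) *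
      (if σ (Quot.mk _ (Sum.inl v₁)) = d then (1 : ℝ) else 0) *
      ∏ e ∈ F₁.disjSum F₂, wt k
        (σ (Sum.elim (fun e => Quot.mk _ (Sum.inl (s₁ e))) (fun e => Quot.mk _ (Sum.inr (s₂ e))) e))
        (σ (Sum.elim (fun e => Quot.mk _ (Sum.inl (t₁ e))) (fun e => Quot.mk _ (Sum.inr (t₂ e))) e)) =
      ∑ σ : {σ : V₁ ⊕ V₂ → Fin k // ∀ a b, glueRel u₁ v₁ u₂ v₂ a b → σ a = σ b},
      (if σ.1 (Sum.inl u₁) = c then (1 : ℝ) else 0) *
      (if σ.1 (Sum.inl v₁) = d then (1 : ℝ) else 0) *
      ((∏ e ∈ F₁, wt k (σ.1 (Sum.inl (s₁ e))) (σ.1 (Sum.inl (t₁ e)))) *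
      ∏ e ∈ F₂, wt k (σ.1 (Sum.inr (s₂ e))) (σ.1 (Sum.inr (t₂ e)))) := by
    apply Fintype.sum_equiv (quotArrow (glueRel u₁ v₁ u₂ v₂) (Fin k))
    intro σ
    rw [prod_disjSum]
    rfl
  refine e1.trans ?_
  rw [← sum_subtype (univ.filter (fun σ : V₁ ⊕ V₂ → Fin k =>
    ∀ a b, glueRel u₁ v₁ u₂ v₂ a b → σ a = σ b)) (by intro x; simp)
    (fun σ : V₁ ⊕ V₂ → Fin k => (if σ (Sum.inl u₁) = c then (1 : ℝ) else 0) *
      (if σ (Sum.inl v₁) = d then (1 : ℝ) else 0) *
      ((∏ e ∈ F₁, wt k (σ (Sum.inl (s₁ e))) (σ (Sum.inl (t₁ e)))) *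
      ∏ e ∈ F₂, wt k (σ (Sum.inr (s₂ e))) (σ (Sum.inr (t₂ e)))))]
  rw [sum_filter, ← Equiv.sum_comp (Equiv.sumArrowEquivProdArrow V₁ V₂ (Fin k)).symm,
    Fintype.sum_prod_type, sum_mul_sum]
  apply sum_congr rfl
  intro σ₁ _
  apply sum_congr rfl
  intro σ₂ _
  simp only [Equiv.sumArrowEquivProdArrow_symm_apply_inl,
    Equiv.sumArrowEquivProdArrow_symm_apply_inr]
  generalize (∏ e ∈ F₁, wt k (σ₁ (s₁ e)) (σ₁ (t₁ e))) = P₁
  generalize (∏ e ∈ F₂, wt k (σ₂ (s₂ e)) (σ₂ (t₂ e))) = P₂
  have hc : (∀ a b, glueRel u₁ v₁ u₂ v₂ a b →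
      (Equiv.sumArrowEquivProdArrow V₁ V₂ (Fin k)).symm (σ₁, σ₂) a =
      (Equiv.sumArrowEquivProdArrow V₁ V₂ (Fin k)).symm (σ₁, σ₂) b) ↔
      (σ₁ u₁ = σ₂ u₂ ∧ σ₁ v₁ = σ₂ v₂) := by
    constructor
    · intro h
      exact ⟨h _ _ (Or.inl ⟨rfl, rfl⟩), h _ _ (Or.inr ⟨rfl, rfl⟩)⟩
    · rintro ⟨h1, h2⟩ a b (⟨rfl, rfl⟩ | ⟨rfl, rfl⟩)
      · exact h1
      · exact h2
  simp only [hc]
  by_cases h1 : σ₁ u₁ = c
  · by_cases h2 : σ₁ v₁ = d
    · subst h1
      subst h2
      by_cases h3 : σ₁ u₁ = σ₂ u₂
      · by_cases h4 : σ₁ v₁ = σ₂ v₂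
        · simp [h3, h4]
        · simp [h4, Ne.symm h4]
      · simp [h3, Ne.symm h3]
    · simp [h2]
  · simp [h1]

lemma Rep.pow_succ {f : (k : ℕ) → Fin k → Fin k → ℝ} (hf : Rep f) (n : ℕ) :
    Rep (fun k c d => f k c d ^ (n + 1)) := by
  induction n with
  | zero => simpa using hf
  | succ n ih =>
    have := ih.mul hf
    simpa only [← _root_.pow_succ] using this

lemma Rep.edge : Rep (fun k c d => wt k c d) := by
  classical
  refine ⟨Bool, Unit, inferInstance, inferInstance, fun _ => false, fun _ => true, univ,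
    false, true, ?_⟩
  intro k c d
  unfold zt
  refine Eq.trans (sum_eq_single (fun b => if b = true then d else c) ?_ ?_) ?_
  · intro σ _ hσ
    by_cases h1 : σ false = c
    · by_cases h2 : σ true = d
      · exfalso
        apply hσ
        funext b
        cases b
        · simpa using h1
        · simpa using h2
      · simp [h2]
    · simp [h1]
  · intro h
    exact absurd (by simp) h
  · simp

/-- The sum over all pairs of colours of a realised function is a value of some `zp`. -/
lemma Rep.exists_zp {f : (k : ℕ) → Fin k → Fin k → ℝ} (hf : Rep f) :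
    ∃ (V E : Type) (_ : Fintype V) (_ : Fintype E) (s t : E → V),
      ∀ k : ℕ, (zp s t).eval (k : ℝ) = ∑ c, ∑ d, f k c d := by
  classical
  obtain ⟨V, E, _, _, s, t, F, u, v, h⟩ := hf
  refine ⟨Quot (rel s t ∅), {e // e ∈ F}, Fintype.ofFinite _, inferInstance,
    fun e => Quot.mk _ (s e.1), fun e => Quot.mk _ (t e.1), ?_⟩
  intro k
  rw [← zm_eq_zp, ← sum_zt s t F u v k]
  simp only [h]

/-- The gluing identity. -/
lemma glue_identity {V E : Type} [Fintype V] [Fintype E] [DecidableEq E] (s t : E → V) (e : E)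
    (a b : ℕ) :
    ∃ (V' E' : Type) (_ : Fintype V') (_ : Fintype E') (s' t' : E' → V'),
      (X * (X - 1)) ^ a * zp s' t' =
        (zm s t {e} (univ.erase e)) ^ (a + 1) * (X - 1) ^ (a + (b + 1)) +
        (-1) ^ (b + 1) * (zm s t ∅ (univ.erase e) - zm s t {e} (univ.erase e)) ^ (a + 1) := by
  have hR : Rep (fun k c d => zt s t (univ.erase e) (s e) (t e) k c d ^ (a + 1) *
      wt k c d ^ (b + 1)) :=
    Rep.mul (Rep.pow_succ ⟨V, E, inferInstance, inferInstance, s, t, univ.erase e, s e, t e, fun _ _ _ => rfl⟩ a)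
      (Rep.pow_succ Rep.edge b)
  obtain ⟨V', E', iV, iE, s', t', h⟩ := hR.exists_zp
  refine ⟨V', E', iV, iE, s', t', ?_⟩
  apply eq_of_infinite_eval_eq
  apply Set.Infinite.mono (s := (fun k : ℕ => (k : ℝ)) '' Set.Ici 2)
  · rintro _ ⟨k, hk, rfl⟩
    have hk2 : 2 ≤ k := hk
    show eval (k : ℝ) _ = eval (k : ℝ) _
    obtain ⟨α, β, hab⟩ := zt_ab s t (univ.erase e) (s e) (t e) k hk2
    have h1 : (zm s t {e} (univ.erase e)).eval (k : ℝ) = k * α := by
      rw [← sum_zt_diag]
      simp [hab]
    have h2 : (zm s t ∅ (univ.erase e)).eval (k : ℝ) = k * α + k * (k - 1) * β := by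
      rw [← sum_zt s t _ (s e) (t e)]
      have h3 : ∀ c d : Fin k, zt s t (univ.erase e) (s e) (t e) k c d =
          (if c = d then (α - β) else 0) + β := by
        intro c d
        rw [hab]
        split_ifs
        · ring
        · ring
      simp only [h3, sum_add_distrib, sum_ite_eq, mem_univ, if_true, sum_const, card_univ,
        Fintype.card_fin, nsmul_eq_mul]
      ring
    have h4 : (zp s' t').eval (k : ℝ) = k * (α ^ (a + 1) * (k - 1) ^ (b + 1)) +
        k * (k - 1) * (β ^ (a + 1) * (-1) ^ (b + 1)) := by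
      rw [h]
      have h3 : ∀ c d : Fin k, zt s t (univ.erase e) (s e) (t e) k c d ^ (a + 1) *
          wt k c d ^ (b + 1) =
          (if c = d then (α ^ (a + 1) * ((k : ℝ) - 1) ^ (b + 1) - β ^ (a + 1) * (-1) ^ (b + 1))
            else 0) + β ^ (a + 1) * (-1) ^ (b + 1) := by
        intro c d
        rw [hab]
        unfold wt
        split_ifs
        · ring
        · ring
      simp only [h3, sum_add_distrib, sum_ite_eq, mem_univ, if_true, sum_const, card_univ,
        Fintype.card_fin, nsmul_eq_mul]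
      ring
    have h5 : (k : ℝ) * α + k * (k - 1) * β - k * α = k * (k - 1) * β := by ring
    simp only [eval_mul, eval_pow, eval_X, eval_sub, eval_add, eval_neg, eval_one, h1, h2, h4, h5]
    generalize (k : ℝ) - 1 = q
    ring
  · apply Set.Infinite.image
    · intro x _ y _ hxy
      exact Nat.cast_injective hxy
    · exact Set.Ici_infinite 2


/-! ### Sign arguments -/

/-- The point `r` is good if no graph takes a negative value at `r`. -/
def Good (r : ℝ) : Prop :=
  ∀ (V E : Type) [Fintype V] [Fintype E] (s t : E → V), 0 ≤ (zp s t).eval r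

lemma Good.zm {r : ℝ} (hr : Good r) {V E : Type} [Fintype V] [Fintype E] (s t : E → V)
    (S F : Finset E) : 0 ≤ (zm s t S F).eval r := by
  classical
  rw [zm_eq_zp]
  let _ : Fintype (Quot (rel s t S)) := Fintype.ofFinite _
  exact hr _ _ _ _

lemma Good.mul {a b : ℝ} (ha : Good a) (hb : Good b) (hb0 : 0 ≤ b) : Good (a * b) := by
  classical
  intro V E _ _ s t
  rw [zp_mul]
  exact sum_nonneg (fun S _ => mul_nonneg (pow_nonneg hb0 _)
    (mul_nonneg (ha.zm s t _ _) (hb.zm s t _ _)))

lemma Good.pow {a : ℝ} (ha : Good a) (ha0 : 0 ≤ a) (n : ℕ) : Good (a ^ (n + 1)) := by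
  induction n with
  | zero => simpa using ha
  | succ n ih =>
    rw [pow_succ]
    exact ih.mul ha ha0

lemma zp_lower {a b : ℝ} (ha : Good a) (hb : Good b) (hb0 : 0 ≤ b) {V E : Type} [Fintype V]
    [Fintype E] (s t : E → V) :
    b ^ Fintype.card E * ((zp s t).eval a * b ^ comps s t univ) ≤ (zp s t).eval (a * b) := by
  classical
  rw [zp_mul]
  have h1 := single_le_sum (f := fun S : Finset E => b ^ S.card * ((zm s t ∅ S).eval a *
    (zm s t S Sᶜ).eval b)) (fun S _ => mul_nonneg (pow_nonneg hb0 _)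
    (mul_nonneg (ha.zm s t _ _) (hb.zm s t _ _))) (mem_univ (univ : Finset E))
  refine le_trans (le_of_eq ?_) h1
  simp only [card_univ, compl_univ]
  rw [zp_eq_zm]
  congr 2
  rw [zm_eval]
  simp

lemma sign_const (p : ℝ[X]) {x y : ℝ} (h : ∀ r ∈ Set.Ioo x y, p.eval r ≠ 0) {r₀ r₁ : ℝ}
    (h0 : r₀ ∈ Set.Ioo x y) (h1 : r₁ ∈ Set.Ioo x y) (hneg : p.eval r₀ < 0) : p.eval r₁ < 0 := by
  by_contra hcon
  push Not at hcon
  have h2 := isPreconnected_Ioo.intermediate_value h0 h1 p.continuous.continuousOn
  obtain ⟨r, hr, hr0⟩ := h2 ⟨hneg.le, hcon⟩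
  exact h r hr hr0

lemma root_of_zp {V E : Type} [Fintype V] [Fintype E] (s t : E → V) (h : zp s t ≠ 0) {r : ℝ}
    (hr : 0 < r) (h0 : (zp s t).eval r = 0) : r ∈ flowRoots := by
  rw [zp_eq] at h h0
  refine ⟨V, E, inferInstance, inferInstance, s, t, right_ne_zero_of_mul h, ?_⟩
  rw [eval_mul, eval_pow, eval_X] at h0
  rcases mul_eq_zero.1 h0 with h1 | h1
  · exact absurd h1 (pow_pos hr _).ne'
  · exact h1

lemma exists_root_pow {w : ℝ} (hw : 0 < w) (k : ℕ) : ∃ s : ℝ, 0 < s ∧ s ^ (k + 1) = w := by
  refine ⟨Real.exp (Real.log w / ((k : ℝ) + 1)), Real.exp_pos _, ?_⟩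
  have hn0 : (0 : ℝ) < (k : ℝ) + 1 := by positivity
  rw [← Real.exp_nat_mul]
  push_cast
  rw [mul_div_cancel₀ _ hn0.ne', Real.exp_log hw]

lemma good_pow_interval {x y : ℝ} (hx : 0 < x) (hy : 0 < y) (h : ∀ r ∈ Set.Ioo x y, Good r)
    (k : ℕ) {w : ℝ} (h1 : x ^ (k + 1) < w) (h2 : w < y ^ (k + 1)) : Good w := by
  have hw : 0 < w := (pow_pos hx _).trans h1
  obtain ⟨s, hs, rfl⟩ := exists_root_pow hw k
  exact Good.pow (h s ⟨lt_of_pow_lt_pow_left₀ _ hs.le h1, lt_of_pow_lt_pow_left₀ _ hy.le h2⟩) hs.le k

/-- Powers of a good interval carry no root. -/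
lemma not_root_pow {x y : ℝ} (hx : 0 < x) (hy : 0 < y) (h : ∀ r ∈ Set.Ioo x y, Good r)
    (k : ℕ) {r : ℝ} (h1 : x ^ (k + 2) < r) (h2 : r < y ^ (k + 2)) : r ∉ flowRoots := by
  rintro ⟨V, E, iV, iE, s, t, hne, hr⟩
  apply hne
  have hr0 : 0 < r := (pow_pos hx _).trans h1
  have hz : (zp s t).eval r = 0 := by
    rw [zp_eq, eval_mul, hr, mul_zero]
  obtain ⟨c, hc, hcr⟩ := exists_root_pow hr0 (k + 1)
  have hxc : x < c := lt_of_pow_lt_pow_left₀ _ hc.le (h1.trans_eq hcr.symm)
  have hcy : c < y := lt_of_pow_lt_pow_left₀ _ hy.le (hcr.trans_lt h2)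
  have hxk : 0 < x ^ (k + 1) := pow_pos hx _
  have hyk : 0 < y ^ (k + 1) := pow_pos hy _
  have hck1 : x ^ (k + 1) < c ^ (k + 1) := pow_lt_pow_left₀ hxc hx.le (by omega)
  have hck2 : c ^ (k + 1) < y ^ (k + 1) := pow_lt_pow_left₀ hcy hc.le (by omega)
  have hcr' : c * c ^ (k + 1) = r := by
    rw [← hcr]
    ring
  have hI : max x (r / y ^ (k + 1)) < min y (r / x ^ (k + 1)) := by
    have e1 : r / y ^ (k + 1) < c := by
      rw [div_lt_iff₀ hyk, ← hcr']
      exact mul_lt_mul_of_pos_left hck2 hc
    have e2 : c < r / x ^ (k + 1) := by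
      rw [lt_div_iff₀ hxk, ← hcr']
      exact mul_lt_mul_of_pos_left hck1 hc
    exact (max_lt hxc e1).trans (lt_min hcy e2)
  have h0 : zp s t = 0 := by
    apply eq_of_infinite_eval_eq
    apply Set.Infinite.mono _ (Set.Ioo_infinite hI)
    intro a ha
    show eval a _ = eval a 0
    rw [eval_zero]
    have ha1 : x < a := (le_max_left _ _).trans_lt ha.1
    have ha2 : a < y := ha.2.trans_le (min_le_left _ _)
    have ha0 : 0 < a := hx.trans ha1
    have hb1 : x ^ (k + 1) < r / a := by
      rw [lt_div_iff₀ ha0]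
      have := ha.2.trans_le (min_le_right _ _)
      rw [lt_div_iff₀ hxk] at this
      linarith
    have hb2 : r / a < y ^ (k + 1) := by
      rw [div_lt_iff₀ ha0]
      have := (le_max_right _ _).trans_lt ha.1
      rw [div_lt_iff₀ hyk] at this
      linarith
    have hb0 : 0 < r / a := hxk.trans hb1
    have hga : Good a := h a ⟨ha1, ha2⟩
    have hgb : Good (r / a) := good_pow_interval hx hy h k hb1 hb2
    have h1 := zp_lower hga hgb hb0.le s t
    rw [mul_div_cancel₀ _ ha0.ne', hz] at h1
    have h2 : 0 ≤ (zp s t).eval a := hga V E s t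
    by_contra h3
    have h4 : 0 < (zp s t).eval a := lt_of_le_of_ne h2 (Ne.symm h3)
    have h5 : 0 < (r / a) ^ Fintype.card E * ((zp s t).eval a * (r / a) ^ comps s t univ) := by
      positivity
    linarith
  rw [zp_eq] at h0
  rcases mul_eq_zero.1 h0 with h1 | h1
  · exact absurd h1 (pow_ne_zero _ X_ne_zero)
  · exact h1

/-- A good interval without roots bounds all roots. -/
lemma bounded_of_good {x y : ℝ} (hx : 1 < x) (hxy : x < y) (h : ∀ r ∈ Set.Ioo x y, Good r)
    (h' : ∀ r ∈ flowRoots, r ∉ Set.Ioo x y) (r : ℝ) (hr : r ∈ flowRoots) :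
    r ≤ Real.exp (Real.log x * Real.log y / (Real.log y - Real.log x)) := by
  have hx0 : 0 < x := by linarith
  have hy0 : 0 < y := by linarith
  have hlx : 0 < Real.log x := Real.log_pos hx
  have hlxy : Real.log x < Real.log y := Real.log_lt_log hx0 hxy
  have hly : 0 < Real.log y := hlx.trans hlxy
  by_contra hcon
  push Not at hcon
  have hr0 : 0 < r := (Real.exp_pos _).trans hcon
  have h1 : Real.log x * Real.log y / (Real.log y - Real.log x) < Real.log r :=
    (Real.lt_log_iff_exp_lt hr0).2 hcon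
  have hlr : 0 < Real.log r := lt_trans (div_pos (mul_pos hlx hly) (by linarith)) h1
  rw [div_lt_iff₀ (by linarith)] at h1
  set n : ℕ := ⌊Real.log r / Real.log y⌋₊ with hn
  have h2 : Real.log r / Real.log y < (n : ℝ) + 1 := Nat.lt_floor_add_one _
  have h3 : (n : ℝ) ≤ Real.log r / Real.log y := Nat.floor_le (by positivity)
  have h4 : (n : ℝ) + 1 < Real.log r / Real.log x := by
    have e1 : Real.log r / Real.log y + 1 < Real.log r / Real.log x := by
      rw [div_add_one hly.ne', div_lt_div_iff₀ hly hlx]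
      nlinarith
    linarith
  have h5 : x ^ (n + 1) < r := by
    rw [← Real.log_lt_log_iff (pow_pos hx0 _) hr0, Real.log_pow]
    rw [lt_div_iff₀ hlx] at h4
    push_cast
    exact h4
  have h6 : r < y ^ (n + 1) := by
    rw [← Real.log_lt_log_iff hr0 (pow_pos hy0 _), Real.log_pow]
    rw [div_lt_iff₀ hly] at h2
    push_cast
    exact h2
  rcases n with _ | k
  · rw [zero_add, pow_one] at h5 h6
    exact h' r hr ⟨h5, h6⟩
  · exact not_root_pow hx0 hy0 h k h5 h6 hr

/-- The degree comparison used when the exponent is constant. -/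
lemma exponent_eq (D P : ℝ[X]) (hD : D ≠ 0) (hP : P ≠ 0) (ν : ℝ)
    (h : (X - 1) * derivative D * P - (X - 1) * derivative P * D = C ν * (D * P)) :
    ν = (D.natDegree : ℝ) - P.natDegree := by
  have key : ∀ p : ℝ[X], ((X - 1) * derivative p).natDegree ≤ p.natDegree ∧
      ((X - 1) * derivative p).coeff p.natDegree = p.natDegree * p.leadingCoeff := by
    intro p
    rcases Nat.eq_zero_or_pos p.natDegree with h0 | h0
    · rw [eq_C_of_natDegree_eq_zero h0]
      simp
    · obtain ⟨n, hn⟩ : ∃ n, p.natDegree = n + 1 := ⟨p.natDegree - 1, by omega⟩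
      have h1 : (derivative p).natDegree ≤ n := by
        have := natDegree_derivative_le p
        omega
      have h2 : (X - 1 : ℝ[X]).natDegree ≤ 1 := by
        have := natDegree_X_sub_C_le (1 : ℝ)
        simpa using this
      constructor
      · refine natDegree_mul_le.trans ?_
        omega
      · rw [hn, add_comm n 1, coeff_mul_add_eq_of_natDegree_le h2 h1]
        rw [coeff_derivative, leadingCoeff, hn]
        simp [coeff_one]
        ring
  have h1 := congrArg (fun q => coeff q (D.natDegree + P.natDegree)) h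
  simp only [coeff_sub, coeff_C_mul] at h1
  rw [coeff_mul_add_eq_of_natDegree_le (key D).1 le_rfl, coeff_mul_add_eq_of_natDegree_le le_rfl le_rfl,
    add_comm D.natDegree P.natDegree, coeff_mul_add_eq_of_natDegree_le (key P).1 le_rfl, (key D).2,
    (key P).2] at h1
  simp only [coeff_natDegree] at h1
  have h2 : D.leadingCoeff ≠ 0 := leadingCoeff_ne_zero.2 hD
  have h3 : P.leadingCoeff ≠ 0 := leadingCoeff_ne_zero.2 hP
  have h4 : D.leadingCoeff * P.leadingCoeff ≠ 0 := mul_ne_zero h2 h3
  have h5 : (ν - ((D.natDegree : ℝ) - P.natDegree)) * (D.leadingCoeff * P.leadingCoeff) = 0 := by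
    linear_combination -h1
  rcases mul_eq_zero.1 h5 with h6 | h6
  · linarith
  · exact absurd h6 h4


/-- Rational sandwich: from a non-constant exponent to a sign change. -/
lemma sign_change (P D : ℝ → ℝ) {r₁ r₂ : ℝ} (hr₁ : 2 < r₁) (hr₂ : 2 < r₂)
    (hP₁ : 0 < P r₁) (hP₂ : 0 < P r₂) (hD₁ : (r₁ - 1) * P r₁ < D r₁) (hD₂ : 0 < D r₂)
    (h : Real.log (D r₁ / P r₁) / Real.log (r₁ - 1) < Real.log (D r₂ / P r₂) / Real.log (r₂ - 1)) :
    ∃ m a : ℕ, 0 < a ∧ a ≤ m ∧ D r₁ ^ a < P r₁ ^ a * (r₁ - 1) ^ m ∧
      P r₂ ^ a * (r₂ - 1) ^ m < D r₂ ^ a := by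
  have hl₁ : 0 < Real.log (r₁ - 1) := Real.log_pos (by linarith)
  have hl₂ : 0 < Real.log (r₂ - 1) := Real.log_pos (by linarith)
  have hD₁0 : 0 < D r₁ := lt_trans (mul_pos (by linarith) hP₁) hD₁
  have hg1 : 1 < Real.log (D r₁ / P r₁) / Real.log (r₁ - 1) := by
    rw [lt_div_iff₀ hl₁, one_mul]
    apply Real.log_lt_log (by linarith)
    rw [lt_div_iff₀ hP₁]
    exact hD₁
  obtain ⟨q, hq1, hq2⟩ := exists_rat_btwn h
  have hq0 : (1 : ℝ) < (q : ℝ) := hg1.trans hq1
  have hq0' : 1 < q := by exact_mod_cast hq0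
  have hnum : 0 < q.num := Rat.num_pos.2 (by linarith)
  have hden : (0 : ℝ) < (q.den : ℝ) := by exact_mod_cast q.den_pos
  have hcast : (q.num.toNat : ℝ) = (q.num : ℝ) := by
    have := Int.toNat_of_nonneg hnum.le
    exact_mod_cast this
  have hqe : (q : ℝ) * q.den = (q.num.toNat : ℝ) := by
    rw [hcast]
    have := Rat.mul_den_eq_num q
    exact_mod_cast this
  have hle : q.den ≤ q.num.toNat := by
    have : (q.den : ℝ) ≤ (q.num.toNat : ℝ) := by
      rw [← hqe]
      nlinarith
    exact_mod_cast this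
  refine ⟨q.num.toNat, q.den, q.den_pos, hle, ?_, ?_⟩
  · rw [← Real.log_lt_log_iff (pow_pos hD₁0 _) (mul_pos (pow_pos hP₁ _) (pow_pos (by linarith) _)),
      Real.log_mul (pow_pos hP₁ _).ne' (pow_pos (by linarith) _).ne', Real.log_pow, Real.log_pow,
      Real.log_pow, ← hqe]
    rw [div_lt_iff₀ hl₁, Real.log_div hD₁0.ne' hP₁.ne'] at hq1
    nlinarith
  · rw [← Real.log_lt_log_iff (mul_pos (pow_pos hP₂ _) (pow_pos (by linarith) _)) (pow_pos hD₂ _),
      Real.log_mul (pow_pos hP₂ _).ne' (pow_pos (by linarith) _).ne', Real.log_pow, Real.log_pow,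
      Real.log_pow, ← hqe]
    rw [lt_div_iff₀ hl₂, Real.log_div hD₂.ne' hP₂.ne'] at hq2
    nlinarith

/-- A constant exponent gives a polynomial identity. -/
lemma const_exponent (P D : ℝ[X]) {x y : ℝ} (hx : 2 ≤ x) (hxy : x < y)
    (hP : ∀ r ∈ Set.Ioo x y, 0 < P.eval r) (hD : ∀ r ∈ Set.Ioo x y, 0 < D.eval r) (ν : ℝ)
    (h : ∀ r ∈ Set.Ioo x y, Real.log (D.eval r / P.eval r) / Real.log (r - 1) = ν) :
    (X - 1) * derivative D * P - (X - 1) * derivative P * D = C ν * (D * P) := by
  apply eq_of_infinite_eval_eq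
  apply Set.Infinite.mono (s := Set.Ioo x y) _ (Set.Ioo_infinite hxy)
  intro r hr
  show eval r _ = eval r _
  have hr1 : 1 < r - 1 := by
    have := hr.1
    linarith
  have hev : ∀ᶠ z in nhds r, Real.log (D.eval z) - Real.log (P.eval z) = ν * Real.log (z - 1) := by
    filter_upwards [Ioo_mem_nhds hr.1 hr.2] with z hz
    have hz1 : 1 < z - 1 := by
      have := hz.1
      linarith
    rw [← Real.log_div (hD z hz).ne' (hP z hz).ne', ← h z hz,
      div_mul_cancel₀ _ (Real.log_pos hz1).ne']
  have hd1 : HasDerivAt (fun z => Real.log (D.eval z) - Real.log (P.eval z))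
      ((derivative D).eval r / D.eval r - (derivative P).eval r / P.eval r) r :=
    ((D.hasDerivAt r).log (hD r hr).ne').sub ((P.hasDerivAt r).log (hP r hr).ne')
  have hd2 : HasDerivAt (fun z => ν * Real.log (z - 1)) (ν * (1 / (r - 1))) r := by
    have := ((hasDerivAt_id r).sub_const 1).log (by simp only [id]; linarith)
    exact this.const_mul ν
  have hd3 := hd2.congr_of_eventuallyEq hev
  have heq := hd1.unique hd3
  have hD0 := (hD r hr).ne'
  have hP0 := (hP r hr).ne'
  have hr0 : r - 1 ≠ 0 := by linarith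
  field_simp at heq
  simp only [eval_sub, eval_mul, eval_X, eval_one, eval_C]
  linear_combination heq

/-- On a gap, no graph takes a negative value. -/
lemma good_of_gap {x y : ℝ} (hx : 2 ≤ x) (hxy : x < y) (h : ∀ r ∈ flowRoots, r ∉ Set.Ioo x y) :
    ∀ r ∈ Set.Ioo x y, Good r := by
  classical
  have nr : ∀ (V E : Type) [Fintype V] [Fintype E] (s t : E → V), zp s t ≠ 0 →
      ∀ r ∈ Set.Ioo x y, (zp s t).eval r ≠ 0 := by
    intro V E _ _ s t h0 r hr hz
    have hr0 : 0 < r := by
      have := hr.1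
      linarith
    exact h r (root_of_zp s t h0 hr0 hz) hr
  have main : ∀ n : ℕ, ∀ (V E : Type) [Fintype V] [Fintype E] (s t : E → V),
      Fintype.card E = n → ∀ r ∈ Set.Ioo x y, 0 ≤ (zp s t).eval r := by
    intro n
    induction n using Nat.strong_induction_on with
    | _ n ih =>
      intro V E _ _ s t hn r₀ hr₀
      by_contra hneg
      push Not at hneg
      have hz0 : zp s t ≠ 0 := by
        intro h0
        rw [h0, eval_zero] at hneg
        exact lt_irrefl _ hneg
      have hzneg : ∀ r ∈ Set.Ioo x y, (zp s t).eval r < 0 := fun r hr =>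
        sign_const (zp s t) (nr V E s t hz0) hr₀ hr hneg
      have hE : Nonempty E := by
        by_contra hE
        rw [not_nonempty_iff] at hE
        have : 0 < (zp s t).eval r₀ := by
          have hr0 : 0 < r₀ := by
            have := hr₀.1
            linarith
          rw [zp_eval]
          simp only [univ_unique, sum_singleton]
          have h1 : Fintype.card E = 0 := Fintype.card_eq_zero
          rw [h1, Nat.zero_sub, pow_zero, one_mul]
          exact pow_pos hr0 _
        linarith
      obtain ⟨e⟩ := hE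
      have hcard : Fintype.card {f // f ∈ (univ : Finset E).erase e} = n - 1 := by
        rw [Fintype.card_coe, card_erase_of_mem (mem_univ e), card_univ, hn]
      have hn0 : 0 < n := by
        rw [← hn]
        exact Fintype.card_pos_iff.2 ⟨e⟩
      -- the contraction
      have hP : ∀ r ∈ Set.Ioo x y, 0 ≤ (zm s t {e} (univ.erase e)).eval r := by
        intro r hr
        rw [zm_eq_zp]
        let _ : Fintype (Quot (rel s t {e})) := Fintype.ofFinite _
        exact ih (n - 1) (by omega) _ _ _ _ hcard r hr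
      have hQ : ∀ r ∈ Set.Ioo x y, 0 ≤ (zm s t ∅ (univ.erase e)).eval r := by
        intro r hr
        rw [zm_eq_zp]
        let _ : Fintype (Quot (rel s t ∅)) := Fintype.ofFinite _
        exact ih (n - 1) (by omega) _ _ _ _ hcard r hr
      have hdc := zp_del_con s t e
      have hmon : (zp s t).Monic ∧ (zp s t).natDegree = Fintype.card E + comps s t univ :=
        (zp_zero_or_monic s t).resolve_left hz0
      set P := zm s t {e} (univ.erase e) with hPdef
      set Q := zm s t ∅ (univ.erase e) with hQdef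
      have hPzm : P = 0 ∨ (P.Monic ∧ P.natDegree + 1 = Fintype.card E + comps s t univ) := by
        rw [hPdef, zm_eq_zp]
        let _ : Fintype (Quot (rel s t {e})) := Fintype.ofFinite _
        rcases zp_zero_or_monic (fun f : {f // f ∈ univ.erase e} => Quot.mk (rel s t {e}) (s f.1))
          (fun f : {f // f ∈ univ.erase e} => Quot.mk (rel s t {e}) (t f.1)) with h1 | h1
        · exact Or.inl h1
        · refine Or.inr ⟨h1.1, ?_⟩
          rw [h1.2, comps_minor, hcard, hn]
          have h2 : ({e} ∪ (univ : Finset {f // f ∈ (univ : Finset E).erase e}).map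
              (Function.Embedding.subtype _)) = univ := by
            ext f
            simp only [mem_union, mem_singleton, mem_map, mem_univ, true_and, iff_true]
            by_cases hf : f = e
            · exact Or.inl hf
            · exact Or.inr ⟨⟨f, mem_erase.2 ⟨hf, mem_univ _⟩⟩, rfl⟩
          rw [h2]
          omega
      have hP0 : P ≠ 0 := by
        intro h0
        rw [h0, mul_zero, zero_sub] at hdc
        have hQ0 : Q ≠ 0 := by
          intro hQ0
          rw [hQ0, neg_zero] at hdc
          exact hz0 hdc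
        have hQm : Q.Monic := by
          have h1 : Q = 0 ∨ Q.Monic := by
            rw [hQdef, zm_eq_zp]
            let _ : Fintype (Quot (rel s t ∅)) := Fintype.ofFinite _
            rcases zp_zero_or_monic
              (fun f : {f // f ∈ univ.erase e} => Quot.mk (rel s t ∅) (s f.1))
              (fun f : {f // f ∈ univ.erase e} => Quot.mk (rel s t ∅) (t f.1)) with h1 | h1
            · exact Or.inl h1
            · exact Or.inr h1.1
          exact h1.resolve_left hQ0
        have h2 := hmon.1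
        rw [hdc] at h2
        have h3 := h2.leadingCoeff
        rw [leadingCoeff_neg, hQm.leadingCoeff] at h3
        norm_num at h3
      have hPm := hPzm.resolve_left hP0
      have hPpos : ∀ r ∈ Set.Ioo x y, 0 < P.eval r := by
        intro r hr
        refine lt_of_le_of_ne (hP r hr) (Ne.symm ?_)
        rw [hPdef, zm_eq_zp]
        rw [hPdef, zm_eq_zp] at hP0
        let _ : Fintype (Quot (rel s t {e})) := Fintype.ofFinite _
        exact nr _ _ _ _ hP0 r hr
      -- the difference
      set D := Q - P with hDdef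
      have hDlow : ∀ r ∈ Set.Ioo x y, (r - 1) * P.eval r < D.eval r := by
        intro r hr
        have h1 := hzneg r hr
        rw [hdc, eval_sub, eval_mul, eval_X] at h1
        rw [hDdef, eval_sub]
        linarith
      have hDpos : ∀ r ∈ Set.Ioo x y, 0 < D.eval r := by
        intro r hr
        refine lt_trans (mul_pos ?_ (hPpos r hr)) (hDlow r hr)
        have := hr.1
        linarith
      have hD0 : D ≠ 0 := by
        intro h0
        have := hDpos r₀ hr₀
        rw [h0, eval_zero] at this
        exact lt_irrefl _ this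
      -- no sign change
      have hle : ∀ r₁ ∈ Set.Ioo x y, ∀ r₂ ∈ Set.Ioo x y,
          ¬ (Real.log (D.eval r₁ / P.eval r₁) / Real.log (r₁ - 1) <
            Real.log (D.eval r₂ / P.eval r₂) / Real.log (r₂ - 1)) := by
        intro r₁ hr₁ r₂ hr₂ hlt
        have h21 : 2 < r₁ := lt_of_le_of_lt hx hr₁.1
        have h22 : 2 < r₂ := lt_of_le_of_lt hx hr₂.1
        obtain ⟨m, a, ha, ham, hs1, hs2⟩ := sign_change (fun r => P.eval r) (fun r => D.eval r)
          h21 h22 (hPpos r₁ hr₁) (hPpos r₂ hr₂) (hDlow r₁ hr₁) (hDpos r₂ hr₂) hlt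
        obtain ⟨V', E', iV, iE, s', t', hH⟩ := glue_identity s t e (2 * a - 1) (2 * m - 2 * a)
        have e1 : 2 * a - 1 + 1 = a * 2 := by omega
        have e2 : 2 * a - 1 + (2 * m - 2 * a + 1) = m * 2 := by omega
        have e3 : (-1 : ℝ[X]) ^ (2 * m - 2 * a + 1) = -1 := by
          apply Odd.neg_one_pow
          exact ⟨m - a, by omega⟩
        rw [e1, e2, e3, pow_mul, pow_mul, pow_mul] at hH
        have hval : ∀ r ∈ Set.Ioo x y, 2 < r → (r * (r - 1)) ^ (2 * a - 1) * (zp s' t').eval r =
            (P.eval r ^ a * (r - 1) ^ m) ^ 2 - (D.eval r ^ a) ^ 2 := by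
          intro r _ _
          have := congrArg (eval r) hH
          simp only [eval_mul, eval_pow, eval_X, eval_sub, eval_add, eval_neg, eval_one] at this
          rw [this, hDdef, eval_sub]
          ring
        have hv1 := hval r₁ hr₁ h21
        have hv2 := hval r₂ hr₂ h22
        have hq1 : 0 < (r₁ * (r₁ - 1)) ^ (2 * a - 1) := pow_pos (mul_pos (by linarith) (by linarith)) _
        have hq2 : 0 < (r₂ * (r₂ - 1)) ^ (2 * a - 1) := pow_pos (mul_pos (by linarith) (by linarith)) _
        have hz1 : 0 < (zp s' t').eval r₁ := by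
          have h3 : 0 < (P.eval r₁ ^ a * (r₁ - 1) ^ m) ^ 2 - (D.eval r₁ ^ a) ^ 2 := by
            have := pow_lt_pow_left₀ hs1 (pow_pos (hDpos r₁ hr₁) _).le two_ne_zero
            linarith
          rw [← hv1] at h3
          exact (mul_pos_iff_of_pos_left hq1).1 h3
        have hz2 : (zp s' t').eval r₂ < 0 := by
          have h3 : (P.eval r₂ ^ a * (r₂ - 1) ^ m) ^ 2 - (D.eval r₂ ^ a) ^ 2 < 0 := by
            have := pow_lt_pow_left₀ hs2
              (mul_pos (pow_pos (hPpos r₂ hr₂) _) (pow_pos (by linarith) _)).le two_ne_zero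
            linarith
          rw [← hv2] at h3
          by_contra hcon
          push Not at hcon
          have := mul_nonneg hq2.le hcon
          linarith
        have hne : zp s' t' ≠ 0 := by
          intro h0
          rw [h0, eval_zero] at hz1
          exact lt_irrefl _ hz1
        have := sign_const (zp s' t') (nr V' E' s' t' hne) hr₂ hr₁ hz2
        linarith
      have hconst : ∀ r ∈ Set.Ioo x y, Real.log (D.eval r / P.eval r) / Real.log (r - 1) =
          Real.log (D.eval r₀ / P.eval r₀) / Real.log (r₀ - 1) := by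
        intro r hr
        rcases lt_trichotomy (Real.log (D.eval r / P.eval r) / Real.log (r - 1))
          (Real.log (D.eval r₀ / P.eval r₀) / Real.log (r₀ - 1)) with h1 | h1 | h1
        · exact absurd h1 (hle r hr r₀ hr₀)
        · exact h1
        · exact absurd h1 (hle r₀ hr₀ r hr)
      have hid := const_exponent P D hx hxy hPpos hDpos _ hconst
      have hν := exponent_eq D P hD0 hP0 _ hid
      have hν1 : 1 < Real.log (D.eval r₀ / P.eval r₀) / Real.log (r₀ - 1) := by
        have h2 : 1 < r₀ - 1 := by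
          have := hr₀.1
          linarith
        rw [lt_div_iff₀ (Real.log_pos h2), one_mul]
        apply Real.log_lt_log (by linarith)
        rw [lt_div_iff₀ (hPpos r₀ hr₀)]
        exact hDlow r₀ hr₀
      have hQdeg : Q.natDegree ≤ P.natDegree := by
        have h1 : Q = X * P - zp s t := by
          rw [hdc]
          ring
        have h2 : (X * P).Monic := monic_X.mul hPm.1
        have h3 : (X * P).natDegree = P.natDegree + 1 := natDegree_X_mul hP0
        have h4 : degree (X * P) = degree (zp s t) := by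
          rw [degree_eq_natDegree h2.ne_zero, degree_eq_natDegree hz0, h3, hmon.2, hPm.2]
        have h5 : degree Q < degree (X * P) := by
          rw [h1]
          exact degree_sub_lt_left h4 h2.ne_zero (by rw [h2.leadingCoeff, hmon.1.leadingCoeff])
        have h6 : Q.natDegree < P.natDegree + 1 := by
          by_cases hQ0 : Q = 0
          · rw [hQ0]
            simp
          · rw [degree_eq_natDegree hQ0, degree_eq_natDegree h2.ne_zero, h3] at h5
            exact_mod_cast h5
        omega
      have hDdeg : D.natDegree ≤ P.natDegree := by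
        rw [hDdef]
        refine (natDegree_sub_le _ _).trans ?_
        exact max_le hQdeg le_rfl
      have : (D.natDegree : ℝ) ≤ P.natDegree := by exact_mod_cast hDdeg
      linarith
  intro r hr V E _ _ s t
  exact main _ V E s t rfl r hr

end Pool.Agent.H69.Flow
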